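import Pool.Agent.N249.LR.Dim

set_option autoImplicit false

/-!
Tubes tangent to a paraboloid: affine images and countable unions.
-/

open MeasureTheory Set ENNReal Real Metric
open scoped Pointwise

namespace Pool.Agent.N249.LR

variable {k : ℕ}

/-- The action of a linear automorphism on directions. -/
noncomputable def hd (L : Eu k ≃ₗ[ℝ] Eu k) (e : sphere (0 : Eu k) 1) : sphere (0 : Eu k) 1 :=
  ⟨‖L.symm e‖⁻¹ • L.symm e, by
    have h0 : L.symm e ≠ 0 := by
      intro h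
      have h1 : (e : Eu k) = 0 := by
        have := congrArg L h
        simpa using this
      have h2 : ‖(e : Eu k)‖ = 1 := by simp
      rw [h1, norm_zero] at h2
      exact zero_ne_one h2
    rw [mem_sphere_zero_iff_norm, norm_smul, norm_inv, norm_norm,
      inv_mul_cancel₀ (norm_ne_zero_iff.2 h0)]⟩

theorem hd_pos (L : Eu k ≃ₗ[ℝ] Eu k) (e : sphere (0 : Eu k) 1) : 0 < ‖L.symm (e : Eu k)‖ := by
  rw [norm_pos_iff]
  intro h
  have h1 : (e : Eu k) = 0 := by
    have := congrArg L h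
    simpa using this
  have h2 : ‖(e : Eu k)‖ = 1 := by simp
  rw [h1, norm_zero] at h2
  exact zero_ne_one h2

theorem hd_cont (L : Eu k ≃ₗ[ℝ] Eu k) : Continuous (hd L) := by
  have h1 : Continuous (fun e : sphere (0 : Eu k) 1 => L.symm (e : Eu k)) :=
    (LinearMap.continuous_of_finiteDimensional (L.symm : Eu k →ₗ[ℝ] Eu k)).comp
      continuous_subtype_val
  refine Continuous.subtype_mk ?_ _
  exact (h1.norm.inv₀ fun e => (hd_pos L e).ne').smul h1

/-- The cone over a null set of directions is null. -/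
theorem cone_null {t : Set (sphere (0 : Eu k) 1)} (ht : MeasurableSet t)
    (h0 : (volume : Measure (Eu k)).toSphere t = 0) :
    volume {x : Eu k | ∃ c : ℝ, 0 < c ∧ ∃ e ∈ t, x = c • (e : Eu k)} = 0 := by
  rw [Measure.toSphere_apply' _ ht] at h0
  have h1 : volume (Ioo (0 : ℝ) 1 • ((↑) '' t : Set (Eu k))) = 0 := by
    rcases mul_eq_zero.1 h0 with h | h
    · exfalso
      have : (Module.finrank ℝ (Eu k) : ℝ≥0∞) = ((k + 3 : ℕ) : ℝ≥0∞) := by simp
      rw [this] at h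
      exact absurd h (by exact_mod_cast (by omega : k + 3 ≠ 0))
    · exact h
  have h2 : {x : Eu k | ∃ c : ℝ, 0 < c ∧ ∃ e ∈ t, x = c • (e : Eu k)} ⊆
      ⋃ N : ℕ, ((N : ℝ) + 1) • (Ioo (0 : ℝ) 1 • ((↑) '' t : Set (Eu k))) := by
    rintro x ⟨c, hc, e, he, rfl⟩
    obtain ⟨N, hN⟩ := exists_nat_gt c
    refine mem_iUnion.2 ⟨N, ?_⟩
    have hN1 : 0 < (N : ℝ) + 1 := by positivity
    refine mem_smul_set.2 ⟨(c / ((N : ℝ) + 1)) • (e : Eu k), ?_, ?_⟩
    · refine mem_smul.2 ⟨c / ((N : ℝ) + 1), ⟨by positivity, ?_⟩, e, ⟨e, he, rfl⟩, rfl⟩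
      rw [div_lt_one hN1]
      linarith
    · rw [smul_smul, mul_div_cancel₀ _ hN1.ne']
  refine measure_mono_null h2 (measure_iUnion_null fun N => ?_)
  rw [Measure.addHaar_smul, h1, mul_zero]

/-- Null sets of directions are preserved. -/
theorem hd_null (L : Eu k ≃ₗ[ℝ] Eu k) {t : Set (sphere (0 : Eu k) 1)} (ht : MeasurableSet t)
    (h0 : (volume : Measure (Eu k)).toSphere t = 0) :
    (volume : Measure (Eu k)).toSphere (hd L ⁻¹' t) = 0 := by
  have hm : MeasurableSet (hd L ⁻¹' t) := (hd_cont L).measurable ht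
  rw [Measure.toSphere_apply' _ hm]
  have h1 : Ioo (0 : ℝ) 1 • ((↑) '' (hd L ⁻¹' t) : Set (Eu k)) ⊆
      (L : Eu k →ₗ[ℝ] Eu k) '' {x : Eu k | ∃ c : ℝ, 0 < c ∧ ∃ e ∈ t, x = c • (e : Eu k)} := by
    intro x hx
    obtain ⟨c, hc, y, ⟨e, he, rfl⟩, rfl⟩ := mem_smul.1 hx
    refine ⟨L.symm (c • (e : Eu k)), ⟨c * ‖L.symm (e : Eu k)‖, mul_pos hc.1 (hd_pos L e),
      hd L e, he, ?_⟩, ?_⟩
    · rw [map_smul, mul_smul]
      congr 1
      change _ = ‖L.symm (e : Eu k)‖ • (‖L.symm (e : Eu k)‖⁻¹ • L.symm (e : Eu k))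
      rw [smul_smul, mul_inv_cancel₀ (hd_pos L e).ne', one_smul]
    · simp
  have h2 : volume (Ioo (0 : ℝ) 1 • ((↑) '' (hd L ⁻¹' t) : Set (Eu k))) = 0 := by
    refine measure_mono_null h1 ?_
    rw [Measure.addHaar_image_linearMap, cone_null ht h0, mul_zero]
  rw [h2, mul_zero]

/-- The directions in a coordinate hyperplane form a null set. -/
theorem plane_null : (volume : Measure (Eu k)).toSphere
    {e : sphere (0 : Eu k) 1 | (e : Eu k) 0 = 0} = 0 := by
  have hc : Continuous (fun e : sphere (0 : Eu k) 1 => (e : Eu k) 0) := by fun_prop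
  have hm : MeasurableSet {e : sphere (0 : Eu k) 1 | (e : Eu k) 0 = 0} :=
    (isClosed_eq hc continuous_const).measurableSet
  rw [Measure.toSphere_apply' _ hm]
  have h1 : Ioo (0 : ℝ) 1 • ((↑) '' {e : sphere (0 : Eu k) 1 | (e : Eu k) 0 = 0} : Set (Eu k)) ⊆
      (LinearMap.ker (EuclideanSpace.proj (𝕜 := ℝ) (0 : Fin (k + 3))).toLinearMap : Set (Eu k)) := by
    intro x hx
    obtain ⟨c, hc, y, ⟨e, he, rfl⟩, rfl⟩ := mem_smul.1 hx
    have he' : (e : Eu k) 0 = 0 := he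
    simp [he']
  have h2 : (LinearMap.ker (EuclideanSpace.proj (𝕜 := ℝ) (0 : Fin (k + 3))).toLinearMap) ≠ ⊤ := by
    intro h
    rw [LinearMap.ker_eq_top] at h
    have h3 := LinearMap.congr_fun h (EuclideanSpace.single (0 : Fin (k + 3)) (1 : ℝ))
    simp at h3
  rw [measure_mono_null h1 (Measure.addHaar_submodule _ _ h2), mul_zero]

/-- Points of the paraboloid. -/
def OnPar (P : Eu k) : Prop := P 2 = P 0 ^ 2 + P 1 ^ 2 ∧ ∀ i : Fin (k + 3), 2 < i → P i = 0

theorem pair_smul {R c : ℝ} (hc : 0 < c) {P e : Eu k} (h : Pair R P e) : Pair R P (c • e) := by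
  refine ⟨h.P2, h.PR, h.Ps, ?_, ?_⟩
  · simp only [PiLp.smul_apply, smul_eq_mul]
    rw [h.e2]
    ring
  · intro i hi
    simp only [PiLp.smul_apply, smul_eq_mul]
    have e1 : (c * e 0) ^ 2 + (c * e 1) ^ 2 = c ^ 2 * (e 0 ^ 2 + e 1 ^ 2) := by ring
    rw [e1, Real.sqrt_mul (by positivity), Real.sqrt_sq hc.le, abs_mul, abs_of_pos hc]
    have := h.es i hi
    calc c * |e i| ≤ c * (R * √(e 0 ^ 2 + e 1 ^ 2)) := by gcongr
      _ = _ := by ring

theorem exists_pair {P e : Eu k} (hP : OnPar P) (he : e 2 = 2 * (P 0 * e 0 + P 1 * e 1))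
    (h0 : e 0 ≠ 0) : ∃ N : ℕ, Pair (N : ℝ) P e := by
  have hs : 0 < √(e 0 ^ 2 + e 1 ^ 2) := by
    apply Real.sqrt_pos.2
    have : 0 < e 0 ^ 2 := by positivity
    nlinarith [sq_nonneg (e 1)]
  obtain ⟨N, hN⟩ := exists_nat_ge ((P 0 ^ 2 + P 1 ^ 2) + 1 + ∑ i, |e i| / √(e 0 ^ 2 + e 1 ^ 2))
  have hsum : 0 ≤ ∑ i, |e i| / √(e 0 ^ 2 + e 1 ^ 2) := Finset.sum_nonneg fun i _ => by positivity
  refine ⟨N, hP.1, ?_, hP.2, he, ?_⟩
  · have h1 : P 0 ^ 2 + P 1 ^ 2 + 1 ≤ N := by linarith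
    nlinarith [sq_nonneg (P 0), sq_nonneg (P 1)]
  · intro i _
    have h1 : |e i| / √(e 0 ^ 2 + e 1 ^ 2) ≤ ∑ i, |e i| / √(e 0 ^ 2 + e 1 ^ 2) :=
      Finset.single_le_sum (f := fun i => |e i| / √(e 0 ^ 2 + e 1 ^ 2))
        (fun i _ => by positivity) (Finset.mem_univ i)
    have h2 : |e i| / √(e 0 ^ 2 + e 1 ^ 2) ≤ N := by
      have : 0 ≤ P 0 ^ 2 + P 1 ^ 2 := by positivity
      linarith
    rwa [div_le_iff₀ hs] at h2

/-- Kakeya sets of lines tangent to one of countably many affine images of the paraboloid. -/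
theorem dim_affine (L : ℕ → (Eu k ≃ₗ[ℝ] Eu k)) (b : ℕ → Eu k) {S : Set (sphere (0 : Eu k) 1)}
    (hS : (volume : Measure (Eu k)).toSphere S ≠ 0) {K : Set (Eu k)}
    (hK : ∀ e ∈ S, ∃ (j : ℕ) (P f : Eu k), OnPar P ∧ f 2 = 2 * (P 0 * f 0 + P 1 * f 1) ∧
      L j f = (e : Eu k) ∧ volume {t : ℝ | (L j P + b j) + t • (e : Eu k) ∈ K} ≠ 0) :
    dimH K = ((k + 3 : ℕ) : ℝ≥0∞) := by
  classical
  set T : ℕ → ℕ → Set (sphere (0 : Eu k) 1) := fun j N => {e | ∃ P : Eu k,
    Pair (N : ℝ) P (hd (L j) e : Eu k) ∧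
      volume {t : ℝ | (L j P + b j) + t • (e : Eu k) ∈ K} ≠ 0} with hT
  set Z : ℕ → Set (sphere (0 : Eu k) 1) := fun j =>
    hd (L j) ⁻¹' {e : sphere (0 : Eu k) 1 | (e : Eu k) 0 = 0} with hZ
  have hZ0 : ∀ j, (volume : Measure (Eu k)).toSphere (Z j) = 0 := by
    intro j
    have hc : Continuous (fun e : sphere (0 : Eu k) 1 => (e : Eu k) 0) := by fun_prop
    exact hd_null (L j) (isClosed_eq hc continuous_const).measurableSet plane_null
  have hcov : S ⊆ (⋃ j, Z j) ∪ ⋃ j, ⋃ N, T j N := by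
    intro e he
    obtain ⟨j, P, f, hP, hf, hLf, hv⟩ := hK e he
    have hfe : f = (L j).symm (e : Eu k) := by rw [← hLf]; simp
    have hhd : (hd (L j) e : Eu k) = ‖(L j).symm (e : Eu k)‖⁻¹ • f := by
      rw [hfe]; rfl
    by_cases h0 : f 0 = 0
    · refine Or.inl (mem_iUnion.2 ⟨j, ?_⟩)
      change (hd (L j) e : Eu k) 0 = 0
      rw [hhd]
      simp [h0]
    · obtain ⟨N, hN⟩ := exists_pair hP hf h0
      refine Or.inr (mem_iUnion.2 ⟨j, mem_iUnion.2 ⟨N, P, ?_, hv⟩⟩)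
      rw [hhd]
      exact pair_smul (by have := hd_pos (L j) e; positivity) hN
  obtain ⟨j, N, hjN⟩ : ∃ j N, (volume : Measure (Eu k)).toSphere (T j N) ≠ 0 := by
    by_contra hcon
    push Not at hcon
    apply hS
    refine measure_mono_null hcov (measure_union_null (measure_iUnion_null hZ0) ?_)
    exact measure_iUnion_null fun j => measure_iUnion_null fun N => hcon j N
  set S' : Set (sphere (0 : Eu k) 1) := hd (L j) '' T j N with hS'
  have hS'0 : (volume : Measure (Eu k)).toSphere S' ≠ 0 := by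
    intro h0
    apply hjN
    have h1 : (volume : Measure (Eu k)).toSphere
        (toMeasurable (volume : Measure (Eu k)).toSphere S') = 0 := by
      rw [measure_toMeasurable]; exact h0
    have h2 := hd_null (L j) (measurableSet_toMeasurable _ _) h1
    refine measure_mono_null ?_ h2
    intro e he
    exact subset_toMeasurable _ _ ⟨e, he, rfl⟩
  set K' : Set (Eu k) := {x | L j x + b j ∈ K} with hK'
  have hdim : ((k + 3 : ℕ) : ℝ≥0∞) ≤ dimH K' := by
    refine dim_std (R := N) (by positivity) hS'0 ?_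
    rintro _ ⟨e, ⟨P, hP, hv⟩, rfl⟩
    refine ⟨P, hP, ?_⟩
    set c : ℝ := ‖(L j).symm (e : Eu k)‖ with hc
    have hc0 : 0 < c := hd_pos (L j) e
    have hLe : L j (hd (L j) e : Eu k) = c⁻¹ • (e : Eu k) := by
      change L j (c⁻¹ • (L j).symm (e : Eu k)) = _
      rw [map_smul]
      simp
    have e1 : {t : ℝ | P + t • (hd (L j) e : Eu k) ∈ K'} =
        (fun t : ℝ => c⁻¹ * t) ⁻¹' {t : ℝ | (L j P + b j) + t • (e : Eu k) ∈ K} := by
      ext t
      simp only [hK', mem_ofPred_eq, mem_preimage]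
      have : L j (P + t • (hd (L j) e : Eu k)) + b j =
          L j P + b j + (c⁻¹ * t) • (e : Eu k) := by
        rw [map_add, map_smul, hLe, smul_smul, mul_comm t]
        abel
      rw [this]
    rw [e1, Real.volume_preimage_mul_left (by positivity)]
    refine mul_ne_zero ?_ hv
    simp only [ne_eq, ENNReal.ofReal_eq_zero, not_le]
    positivity
  have hle : dimH K' ≤ dimH K := by
    have hLip : ∃ C : NNReal, LipschitzWith C (fun y : Eu k => (L j).symm (y - b j)) := by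
      set M : Eu k →L[ℝ] Eu k := LinearMap.toContinuousLinearMap ((L j).symm : Eu k →ₗ[ℝ] Eu k)
      refine ⟨‖M‖₊, ?_⟩
      have h1 := M.lipschitz
      intro x y
      have h2 := h1 (x - b j) (y - b j)
      have h3 : edist (x - b j) (y - b j) = edist x y := by simp
      rw [h3] at h2
      exact h2
    obtain ⟨C, hC⟩ := hLip
    have e1 : K' = (fun y : Eu k => (L j).symm (y - b j)) '' K := by
      ext x
      simp only [hK', mem_ofPred_eq, mem_image]
      constructor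
      · intro hx
        exact ⟨_, hx, by simp⟩
      · rintro ⟨y, hy, rfl⟩
        simpa using hy
    rw [e1]
    exact hC.dimH_image_le K
  apply le_antisymm
  · have h := dimH_mono (subset_univ K)
    rw [Real.dimH_univ_eq_finrank] at h
    simpa using h
  · exact hdim.trans hle

end Pool.Agent.N249.LR
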