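import Pool.Agent.N249.LR.Avg

set_option autoImplicit false

/-!
Averages over light rays: the estimate for the averaged function.
-/

open MeasureTheory Set ENNReal Real

namespace Pool.Agent.N249.LR

variable {k : ℕ}

/-- The weighted integral of the averages at the parameter `r`. -/
noncomputable def XX (a b : ℝ) (g : ℂ → ℝ × (Fin k → ℝ) → ℝ≥0∞) (v : Fin k → ℝ) (r : ℝ) : ℝ≥0∞ :=
  ∫⁻ y, ((bxv k a b)⁻¹ * ∫⁻ p, Wt a b v r p * g y p ^ (k + 3)) * ENNReal.ofReal (|r| + b) ^ (k + 1)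

theorem XX_meas (a b : ℝ) {g : ℂ → ℝ × (Fin k → ℝ) → ℝ≥0∞} (hg : Measurable (Function.uncurry g)) :
    Measurable (fun q : (Fin k → ℝ) × ℝ => XX a b g q.1 q.2) := by
  have h1 : Measurable (fun q : (((Fin k → ℝ) × ℝ) × ℂ) × (ℝ × (Fin k → ℝ)) =>
      Wt a b q.1.1.1 q.1.1.2 q.2 * g q.1.2 q.2 ^ (k + 3)) := by
    apply Measurable.mul
    · exact (Wt_meas a b).comp (g := fun q : ((Fin k → ℝ) × ℝ) × (ℝ × (Fin k → ℝ)) =>
        Wt a b q.1.1 q.1.2 q.2)
        (f := fun q : (((Fin k → ℝ) × ℝ) × ℂ) × (ℝ × (Fin k → ℝ)) => (q.1.1, q.2)) (by fun_prop)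
    · exact (hg.comp (g := Function.uncurry g)
        (f := fun q : (((Fin k → ℝ) × ℝ) × ℂ) × (ℝ × (Fin k → ℝ)) => (q.1.2, q.2))
        (by fun_prop)).pow_const _
  have h2 : Measurable (fun q : ((Fin k → ℝ) × ℝ) × ℂ =>
      ((bxv k a b)⁻¹ * ∫⁻ p, Wt a b q.1.1 q.1.2 p * g q.2 p ^ (k + 3)) *
        ENNReal.ofReal (|q.1.2| + b) ^ (k + 1)) := by
    apply Measurable.mul
    · exact h1.lintegral_prod_right'.const_mul _
    · fun_prop
  exact h2.lintegral_prod_right'

/-- The logarithmic integral over an interval of length `2 S`. -/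
theorem log_shift {b S : ℝ} (hb : 0 < b) (hS : 0 < S) (T : ℝ) :
    ∫⁻ r in Metric.closedBall T S, (ENNReal.ofReal (|r| + b))⁻¹ ≤
      ENNReal.ofReal (2 + 2 * Real.log ((b + 3 * S) / b)) := by
  have hlog : 0 ≤ Real.log ((b + 3 * S) / b) := by
    apply Real.log_nonneg
    rw [le_div_iff₀ hb]
    linarith
  rcases le_total |T| (2 * S) with h | h
  · calc ∫⁻ r in Metric.closedBall T S, (ENNReal.ofReal (|r| + b))⁻¹
        ≤ ∫⁻ r in Icc (-(3 * S)) (3 * S), (ENNReal.ofReal (|r| + b))⁻¹ := by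
          apply lintegral_mono_set
          intro r hr
          rw [Metric.mem_closedBall, Real.dist_eq, abs_le] at hr
          have := abs_le.1 h
          exact ⟨by linarith [hr.1, this.1], by linarith [hr.2, this.2]⟩
      _ = ∫⁻ r in Icc (-(3 * S)) (3 * S), ENNReal.ofReal (1 / (b + |r|)) := by
          apply lintegral_congr
          intro r
          rw [← ENNReal.ofReal_inv_of_pos (by positivity)]
          congr 1
          rw [one_div, add_comm]
      _ ≤ ENNReal.ofReal (2 * Real.log ((b + 3 * S) / b)) := log_lint hb (by linarith)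
      _ ≤ _ := by
          apply ENNReal.ofReal_le_ofReal
          linarith
  · calc ∫⁻ r in Metric.closedBall T S, (ENNReal.ofReal (|r| + b))⁻¹
        ≤ ∫⁻ _ in Metric.closedBall T S, (ENNReal.ofReal S)⁻¹ := by
          apply setLIntegral_mono measurable_const
          intro r hr
          apply ENNReal.inv_le_inv.2
          apply ENNReal.ofReal_le_ofReal
          rw [Metric.mem_closedBall, Real.dist_eq] at hr
          have h1 : |T| ≤ |r| + |r - T| := by
            have := abs_sub_abs_le_abs_sub T r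
            rw [abs_sub_comm] at this
            linarith
          linarith
      _ = ENNReal.ofReal 2 := by
          rw [setLIntegral_const, Real.volume_closedBall, ← ENNReal.ofReal_inv_of_pos hS,
            ← ENNReal.ofReal_mul (by positivity)]
          congr 1
          field_simp
      _ ≤ _ := by
          apply ENNReal.ofReal_le_ofReal
          linarith

theorem assembled_T {a b R S : ℝ} (ha : 0 < a) (hb : 0 < b)
    (hS : 0 < S) (T : ℝ) {g : ℂ → ℝ × (Fin k → ℝ) → ℝ≥0∞} (hg : Measurable (Function.uncurry g))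
    {δ : ℝ} (hδ : 0 < δ) (hδ1 : δ ≤ 1) :
    ∫⁻ v in {v : Fin k → ℝ | ∀ i, |v i| ≤ R}, ∫⁻ φ in Ioc (-π) π, ∫⁻ m,
        ⨆ u : ℚ, SS (Ga a b S T g v) δ φ m u ^ (k + 3) ≤
      ENNReal.ofReal (2 + 2 * Real.log ((b + 3 * S) / b)) ^ (k + 1) *
        (LL δ * (ENNReal.ofReal (4 * π * S + 2) *
          ∫⁻ v in {v : Fin k → ℝ | ∀ i, |v i| ≤ R}, ∫⁻ r,
            (Metric.closedBall T S).indicator (fun _ => 1) r * XX a b g v r)) := by
  have hL : LL δ ≠ ∞ := ((LL_le hδ hδ1).trans_lt ENNReal.ofReal_lt_top).ne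
  set κ : ℝ → ℝ≥0∞ := fun r => ENNReal.ofReal (|r| + b) with hκ
  have hκm : Measurable κ := by rw [hκ]; fun_prop
  have hκ0 : ∀ r, κ r ≠ 0 := by
    intro r
    rw [hκ]
    simp only [ne_eq, ENNReal.ofReal_eq_zero, not_le]
    positivity
  have hκt : ∀ r, κ r ≠ ∞ := fun r => ENNReal.ofReal_ne_top
  set Λ : ℝ≥0∞ := ENNReal.ofReal (2 + 2 * Real.log ((b + 3 * S) / b)) ^ (k + 1) with hΛ
  have hΛt : Λ ≠ ∞ := ENNReal.pow_ne_top ENNReal.ofReal_ne_top
  have hΛ1 : (∫⁻ r in Metric.closedBall T S, (κ r)⁻¹) ^ (k + 1) ≤ Λ := by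
    rw [hΛ]
    gcongr
    exact log_shift hb hS T
  set C1 : ℝ≥0∞ := ENNReal.ofReal (4 * π * S + 2) with hC1
  have hGm : ∀ v : Fin k → ℝ, Measurable (Function.uncurry (Ga a b S T g v)) := by
    intro v
    exact (Ga_meas hg).comp (g := fun q : (Fin k → ℝ) × (ℝ × ℂ) => Ga a b S T g q.1 q.2.1 q.2.2)
      (f := fun q : ℝ × ℂ => (v, q)) (by fun_prop)
  have hsupp : ∀ (v : Fin k → ℝ) (r : ℝ) (y : ℂ), r ∉ Metric.closedBall T S →
      Ga a b S T g v r y = 0 := by
    intro v r y h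
    unfold Ga
    rw [indicator_of_notMem h]
  have hk : (0 : ℝ) ≤ k := Nat.cast_nonneg k
  have hv : ∀ v : Fin k → ℝ, ∫⁻ φ in Ioc (-π) π, ∫⁻ m,
      ⨆ u : ℚ, SS (Ga a b S T g v) δ φ m u ^ (k + 3) ≤
      Λ * (LL δ * (C1 * ∫⁻ r, (Metric.closedBall T S).indicator (fun _ => 1) r *
        XX a b g v r)) := by
    intro v
    set Γ' : ℝ → ℂ → ℝ≥0∞ := fun r y => Ga a b S T g v r y ^ (((k : ℝ) + 3) / 2) *
      κ r ^ (((k : ℝ) + 1) / 2) with hΓ'
    have hΓ'm : Measurable (Function.uncurry Γ') :=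
      ((hGm v).pow_const _).mul ((hκm.comp measurable_fst).pow_const _)
    have hz : (0 : ℝ≥0∞) ^ (((k : ℝ) + 3) / 2) = 0 := ENNReal.zero_rpow_of_pos (by positivity)
    have hc := core_shift hΓ'm hS.le T (fun r y h => by
        simp only [hΓ']
        rw [hsupp v r y (by rw [Metric.mem_closedBall, Real.dist_eq]; exact not_le.2 h), hz,
          zero_mul]) hδ hδ1
    calc ∫⁻ φ in Ioc (-π) π, ∫⁻ m, ⨆ u : ℚ, SS (Ga a b S T g v) δ φ m u ^ (k + 3)
        ≤ ∫⁻ φ in Ioc (-π) π, ∫⁻ m, Λ * ⨆ u : ℚ, SS Γ' δ φ m u ^ 2 := by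
          apply lintegral_mono
          intro φ
          apply lintegral_mono
          intro m
          apply iSup_le
          intro u
          calc SS (Ga a b S T g v) δ φ m u ^ (k + 3) ≤
              (∫⁻ r in Metric.closedBall T S, (κ r)⁻¹) ^ (k + 1) * SS Γ' δ φ m u ^ 2 :=
                SS_holder (hGm v) Metric.isClosed_closedBall.measurableSet (hsupp v) hκm hκ0 hκt
                  k hδ φ m u
            _ ≤ Λ * ⨆ u : ℚ, SS Γ' δ φ m u ^ 2 := by
                apply mul_le_mul' hΛ1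
                exact le_iSup (fun u : ℚ => SS Γ' δ φ m u ^ 2) u
      _ = Λ * ∫⁻ φ in Ioc (-π) π, ∫⁻ m, ⨆ u : ℚ, SS Γ' δ φ m u ^ 2 := by
          rw [← lintegral_const_mul' _ _ hΛt]
          apply lintegral_congr
          intro φ
          exact lintegral_const_mul' _ _ hΛt
      _ ≤ Λ * (LL δ * (C1 * ∫⁻ r, ∫⁻ y, Γ' r y ^ 2)) := by gcongr
      _ ≤ _ := by
          gcongr with r
          have e1 : ∀ y, Γ' r y ^ 2 = Ga a b S T g v r y ^ (k + 3) *
              ENNReal.ofReal (|r| + b) ^ (k + 1) := by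
            intro y
            simp only [hΓ', mul_pow]
            congr 1
            · rw [← ENNReal.rpow_natCast, ← ENNReal.rpow_mul, ← ENNReal.rpow_natCast]
              congr 1
              push_cast
              ring
            · rw [← ENNReal.rpow_natCast, ← ENNReal.rpow_mul, ← ENNReal.rpow_natCast]
              congr 1
              push_cast
              ring
          have hit : (Metric.closedBall T S).indicator (fun _ => (1 : ℝ≥0∞)) r ≠ ∞ := by
            refine ((indicator_le_self' (fun _ _ => zero_le) r).trans_lt ?_).ne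
            exact ENNReal.one_lt_top
          rw [XX, ← lintegral_const_mul' _ _ hit]
          apply lintegral_mono
          intro y
          simp only
          rw [e1, ← mul_assoc]
          gcongr
          exact Ga_pow_le ha hb hg v r y
  calc ∫⁻ v in {v : Fin k → ℝ | ∀ i, |v i| ≤ R}, ∫⁻ φ in Ioc (-π) π, ∫⁻ m,
        ⨆ u : ℚ, SS (Ga a b S T g v) δ φ m u ^ (k + 3)
      ≤ ∫⁻ v in {v : Fin k → ℝ | ∀ i, |v i| ≤ R},
          Λ * (LL δ * (C1 * ∫⁻ r, (Metric.closedBall T S).indicator (fun _ => 1) r *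
            XX a b g v r)) := lintegral_mono fun v => hv v
    _ = _ := by
        rw [lintegral_const_mul' _ _ hΛt, lintegral_const_mul' _ _ hL,
          lintegral_const_mul' _ _ ENNReal.ofReal_ne_top]

/-- The overlap of the intervals. -/
theorem overlap {S : ℝ} (hS : 0 < S) (r : ℝ) :
    ∑' T : ℤ, (Metric.closedBall (T : ℝ) S).indicator (fun _ => (1 : ℝ≥0∞)) r ≤
      ENNReal.ofReal (2 * S + 1) := by
  have hz : ∀ T : ℤ, T ∉ Finset.Icc ⌈r - S⌉ ⌊r + S⌋ →
      (Metric.closedBall (T : ℝ) S).indicator (fun _ => (1 : ℝ≥0∞)) r = 0 := by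
    intro T hT
    rw [indicator_of_notMem]
    intro hc
    apply hT
    rw [Metric.mem_closedBall, Real.dist_eq, abs_le] at hc
    rw [Finset.mem_Icc, Int.ceil_le, Int.le_floor]
    exact ⟨by linarith [hc.2], by linarith [hc.1]⟩
  rw [tsum_eq_sum hz]
  calc ∑ T ∈ Finset.Icc ⌈r - S⌉ ⌊r + S⌋,
        (Metric.closedBall (T : ℝ) S).indicator (fun _ => (1 : ℝ≥0∞)) r
      ≤ ∑ _T ∈ Finset.Icc ⌈r - S⌉ ⌊r + S⌋, (1 : ℝ≥0∞) := by
        apply Finset.sum_le_sum
        intro T _
        exact indicator_le_self' (fun _ _ => zero_le) r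
    _ = ((Finset.Icc ⌈r - S⌉ ⌊r + S⌋).card : ℝ≥0∞) := by simp
    _ ≤ _ := by
        rw [Int.card_Icc, ← ENNReal.ofReal_natCast]
        apply ENNReal.ofReal_le_ofReal
        have h1 := Int.floor_le (r + S)
        have h2 := Int.le_ceil (r - S)
        have h3 : (((⌊r + S⌋ + 1 - ⌈r - S⌉).toNat : ℤ) : ℝ) ≤ 2 * S + 1 := by
          rw [Int.toNat_eq_max]
          push_cast
          apply max_le
          · linarith
          · linarith
        exact_mod_cast h3

/-- The estimate for the sum over all positions. -/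
theorem assembled {a b R S : ℝ} (ha : 0 < a) (hb : 0 < b) (hab : b ^ 2 ≤ a) (hR : 0 ≤ R)
    (hS : 0 < S) {g : ℂ → ℝ × (Fin k → ℝ) → ℝ≥0∞} (hg : Measurable (Function.uncurry g))
    {δ : ℝ} (hδ : 0 < δ) (hδ1 : δ ≤ 1) :
    ∑' T : ℤ, ∫⁻ v in {v : Fin k → ℝ | ∀ i, |v i| ≤ R}, ∫⁻ φ in Ioc (-π) π, ∫⁻ m,
        ⨆ u : ℚ, SS (Ga a b S T g v) δ φ m u ^ (k + 3) ≤
      ENNReal.ofReal (2 + 2 * Real.log ((b + 3 * S) / b)) ^ (k + 1) *
        (LL δ * (ENNReal.ofReal (4 * π * S + 2) * (ENNReal.ofReal (2 * S + 1) *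
          (ENNReal.ofReal (3 * (1 + R) ^ k) * ∫⁻ y, ∫⁻ p, g y p ^ (k + 3))))) := by
  set V : Set (Fin k → ℝ) := {v : Fin k → ℝ | ∀ i, |v i| ≤ R} with hV
  have hX : ∀ T : ℤ, Measurable (fun q : (Fin k → ℝ) × ℝ =>
      (Metric.closedBall (T : ℝ) S).indicator (fun _ => (1 : ℝ≥0∞)) q.2 * XX a b g q.1 q.2) := by
    intro T
    apply Measurable.mul
    · have h1 : Measurable (fun r : ℝ =>
        (Metric.closedBall (T : ℝ) S).indicator (fun _ => (1 : ℝ≥0∞)) r) :=
        measurable_const.indicator Metric.isClosed_closedBall.measurableSet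
      exact h1.comp measurable_snd
    · exact XX_meas a b hg
  have hXr : ∀ (v : Fin k → ℝ) (T : ℤ), Measurable (fun r : ℝ =>
      (Metric.closedBall (T : ℝ) S).indicator (fun _ => (1 : ℝ≥0∞)) r * XX a b g v r) := by
    intro v T
    exact (hX T).comp (g := fun q : (Fin k → ℝ) × ℝ =>
      (Metric.closedBall (T : ℝ) S).indicator (fun _ => (1 : ℝ≥0∞)) q.2 * XX a b g q.1 q.2)
      (f := fun r : ℝ => (v, r)) (by fun_prop)
  calc _ ≤ ∑' T : ℤ, ENNReal.ofReal (2 + 2 * Real.log ((b + 3 * S) / b)) ^ (k + 1) *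
        (LL δ * (ENNReal.ofReal (4 * π * S + 2) *
          ∫⁻ v in V, ∫⁻ r,
            (Metric.closedBall (T : ℝ) S).indicator (fun _ => 1) r * XX a b g v r)) := by
        apply ENNReal.tsum_le_tsum
        intro T
        exact assembled_T ha hb hS T hg hδ hδ1
    _ = ENNReal.ofReal (2 + 2 * Real.log ((b + 3 * S) / b)) ^ (k + 1) *
        (LL δ * (ENNReal.ofReal (4 * π * S + 2) * ∑' T : ℤ,
          ∫⁻ v in V, ∫⁻ r,
            (Metric.closedBall (T : ℝ) S).indicator (fun _ => 1) r * XX a b g v r)) := by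
        rw [ENNReal.tsum_mul_left, ENNReal.tsum_mul_left, ENNReal.tsum_mul_left]
    _ ≤ _ := by
        gcongr
        calc ∑' T : ℤ, ∫⁻ v in V, ∫⁻ r,
              (Metric.closedBall (T : ℝ) S).indicator (fun _ => 1) r * XX a b g v r
            = ∫⁻ v in V, ∫⁻ r, (∑' T : ℤ,
                (Metric.closedBall (T : ℝ) S).indicator (fun _ => 1) r) * XX a b g v r := by
              rw [← lintegral_tsum]
              · apply lintegral_congr
                intro v
                rw [← lintegral_tsum]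
                · apply lintegral_congr
                  intro r
                  rw [ENNReal.tsum_mul_right]
                · intro T
                  exact (hXr v T).aemeasurable
              · intro T
                exact (hX T).lintegral_prod_right'.aemeasurable
          _ ≤ ∫⁻ v in V, ∫⁻ r, ENNReal.ofReal (2 * S + 1) * XX a b g v r := by
              gcongr with v r
              exact overlap hS r
          _ = ENNReal.ofReal (2 * S + 1) * ∫⁻ v in V, ∫⁻ r, XX a b g v r := by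
              rw [← lintegral_const_mul' _ _ ENNReal.ofReal_ne_top]
              apply lintegral_congr
              intro v
              exact lintegral_const_mul' _ _ ENNReal.ofReal_ne_top
          _ ≤ _ := by
              gcongr
              exact Ga_int ha hb hab hR hg

/-- Joint measurability. -/
theorem SSG_meas {a b S T δ : ℝ} {g : ℂ → ℝ × (Fin k → ℝ) → ℝ≥0∞}
    (hg : Measurable (Function.uncurry g)) (u : ℝ) :
    Measurable (fun q : (Fin k → ℝ) × (ℝ × ℝ) => SS (Ga a b S T g q.1) δ q.2.1 q.2.2 u) := by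
  have a1 : Measurable (fun p : (((Fin k → ℝ) × (ℝ × ℝ)) × ℝ) × ℝ =>
      rot p.1.1.2.1 (p.1.1.2.2 + p.2, p.1.2)) :=
    rot_meas.comp (g := fun q : ℝ × (ℝ × ℝ) => rot q.1 q.2)
      (f := fun p : (((Fin k → ℝ) × (ℝ × ℝ)) × ℝ) × ℝ => (p.1.1.2.1, (p.1.1.2.2 + p.2, p.1.2)))
      (by fun_prop)
  have a2 : Measurable (fun p : (((Fin k → ℝ) × (ℝ × ℝ)) × ℝ) × ℝ =>
      Ga a b S T g p.1.1.1 p.2 (rot p.1.1.2.1 (p.1.1.2.2 + p.2, p.1.2))) :=
    (Ga_meas hg).comp (g := fun q : (Fin k → ℝ) × (ℝ × ℂ) => Ga a b S T g q.1 q.2.1 q.2.2)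
      (f := fun p : (((Fin k → ℝ) × (ℝ × ℝ)) × ℝ) × ℝ =>
        (p.1.1.1, (p.2, rot p.1.1.2.1 (p.1.1.2.2 + p.2, p.1.2))))
      (by
        refine Measurable.prodMk (by fun_prop) (Measurable.prodMk (by fun_prop) a1))
  have a3 : Measurable (fun p : ((Fin k → ℝ) × (ℝ × ℝ)) × ℝ => ENNReal.ofReal (gam δ (u - p.2)) *
      ∫⁻ r, Ga a b S T g p.1.1 r (rot p.1.2.1 (p.1.2.2 + r, p.2))) := by
    apply Measurable.mul
    · exact ((gam_meas δ).comp (by fun_prop)).ennreal_ofReal
    · exact a2.lintegral_prod_right' (ν := (volume : Measure ℝ))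
  exact a3.lintegral_prod_right' (ν := (volume : Measure ℝ))

end Pool.Agent.N249.LR
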