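import Pool.Agent.N249.LR.Hold

set_option autoImplicit false

/-!
Averages over light rays: averages in the transversal variables.
-/

open MeasureTheory Set ENNReal Real

namespace Pool.Agent.N249.LR

variable {k : ℕ}

/-- The box of the transversal variables. -/
def Bx (a b : ℝ) (v : Fin k → ℝ) (r : ℝ) : Set (ℝ × (Fin k → ℝ)) :=
  {p | |p.1 + r ^ 2| ≤ a ∧ ∀ i, |p.2 i - r * v i| ≤ b}

/-- Its volume. -/
noncomputable def bxv (k : ℕ) (a b : ℝ) : ℝ≥0∞ := ENNReal.ofReal (2 * a) * ENNReal.ofReal (2 * b) ^ k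

theorem Bx_eq (a b : ℝ) (v : Fin k → ℝ) (r : ℝ) :
    Bx a b v r = (Icc (-r ^ 2 - a) (-r ^ 2 + a)) ×ˢ
      (Set.pi univ fun i => Icc (r * v i - b) (r * v i + b)) := by
  ext p
  simp only [Bx, mem_ofPred_eq, mem_prod, mem_Icc, mem_pi, mem_univ, forall_true_left, abs_le]
  constructor
  · rintro ⟨h1, h2⟩
    refine ⟨⟨by linarith [h1.1], by linarith [h1.2]⟩, fun i => ?_⟩
    have := h2 i
    exact ⟨by linarith [this.1], by linarith [this.2]⟩
  · rintro ⟨h1, h2⟩
    refine ⟨⟨by linarith [h1.1], by linarith [h1.2]⟩, fun i => ?_⟩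
    have := h2 i
    exact ⟨by linarith [this.1], by linarith [this.2]⟩

theorem Bx_meas (a b : ℝ) (v : Fin k → ℝ) (r : ℝ) : MeasurableSet (Bx a b v r) := by
  rw [Bx_eq]
  exact measurableSet_Icc.prod (MeasurableSet.univ_pi fun i => measurableSet_Icc)

theorem Bx_vol (a b : ℝ) (v : Fin k → ℝ) (r : ℝ) : volume (Bx a b v r) = bxv k a b := by
  rw [Bx_eq, Measure.volume_eq_prod, Measure.prod_prod, Real.volume_Icc, volume_pi_pi, bxv]
  simp only [Real.volume_Icc]
  have e1 : -r ^ 2 + a - (-r ^ 2 - a) = 2 * a := by ring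
  have e2 : ∀ i, r * v i + b - (r * v i - b) = 2 * b := by intro i; ring
  rw [e1]
  simp only [e2, Finset.prod_const, Finset.card_univ, Fintype.card_fin]

/-- The indicator of the box. -/
noncomputable def Wt (a b : ℝ) (v : Fin k → ℝ) (r : ℝ) (p : ℝ × (Fin k → ℝ)) : ℝ≥0∞ :=
  (Bx a b v r).indicator (fun _ => 1) p

theorem Wt_meas (a b : ℝ) : Measurable (fun q : ((Fin k → ℝ) × ℝ) × (ℝ × (Fin k → ℝ)) =>
    Wt a b q.1.1 q.1.2 q.2) := by
  have e : (fun q : ((Fin k → ℝ) × ℝ) × (ℝ × (Fin k → ℝ)) => Wt a b q.1.1 q.1.2 q.2) =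
      Set.indicator {q | |q.2.1 + q.1.2 ^ 2| ≤ a ∧ ∀ i, |q.2.2 i - q.1.2 * q.1.1 i| ≤ b}
        (fun _ => 1) := by
    funext q
    rfl
  rw [e]
  apply Measurable.indicator measurable_const
  have h1 : MeasurableSet {q : ((Fin k → ℝ) × ℝ) × (ℝ × (Fin k → ℝ)) |
      |q.2.1 + q.1.2 ^ 2| ≤ a} := measurableSet_le (by fun_prop) (by fun_prop)
  have h2 : MeasurableSet {q : ((Fin k → ℝ) × ℝ) × (ℝ × (Fin k → ℝ)) |
      ∀ i, |q.2.2 i - q.1.2 * q.1.1 i| ≤ b} := by
    have : {q : ((Fin k → ℝ) × ℝ) × (ℝ × (Fin k → ℝ)) | ∀ i, |q.2.2 i - q.1.2 * q.1.1 i| ≤ b} =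
        ⋂ i, {q | |q.2.2 i - q.1.2 * q.1.1 i| ≤ b} := by
      ext q
      simp
    rw [this]
    exact MeasurableSet.iInter fun i => measurableSet_le (by fun_prop) (by fun_prop)
  exact h1.inter h2

/-- The averages in the transversal variables. -/
noncomputable def Ga (a b S T : ℝ) (g : ℂ → ℝ × (Fin k → ℝ) → ℝ≥0∞) (v : Fin k → ℝ) (r : ℝ)
    (y : ℂ) : ℝ≥0∞ :=
  (Metric.closedBall T S).indicator
    (fun _ => (bxv k a b)⁻¹ * ∫⁻ p, Wt a b v r p * g y p) r

theorem Ga_meas {a b S T : ℝ} {g : ℂ → ℝ × (Fin k → ℝ) → ℝ≥0∞}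
    (hg : Measurable (Function.uncurry g)) :
    Measurable (fun q : (Fin k → ℝ) × (ℝ × ℂ) => Ga a b S T g q.1 q.2.1 q.2.2) := by
  have e : (fun q : (Fin k → ℝ) × (ℝ × ℂ) => Ga a b S T g q.1 q.2.1 q.2.2) =
      ((fun q : (Fin k → ℝ) × (ℝ × ℂ) => q.2.1) ⁻¹' Metric.closedBall T S).indicator
        (fun q => (bxv k a b)⁻¹ * ∫⁻ p, Wt a b q.1 q.2.1 p * g q.2.2 p) := by
    funext q
    rfl
  rw [e]
  apply Measurable.indicator
  · apply Measurable.const_mul
    have h1 : Measurable (fun q : ((Fin k → ℝ) × (ℝ × ℂ)) × (ℝ × (Fin k → ℝ)) =>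
        Wt a b q.1.1 q.1.2.1 q.2 * g q.1.2.2 q.2) := by
      apply Measurable.mul
      · exact (Wt_meas a b).comp (g := fun q : ((Fin k → ℝ) × ℝ) × (ℝ × (Fin k → ℝ)) =>
          Wt a b q.1.1 q.1.2 q.2)
          (f := fun q : ((Fin k → ℝ) × (ℝ × ℂ)) × (ℝ × (Fin k → ℝ)) =>
            ((q.1.1, q.1.2.1), q.2)) (by fun_prop)
      · exact hg.comp (g := Function.uncurry g)
          (f := fun q : ((Fin k → ℝ) × (ℝ × ℂ)) × (ℝ × (Fin k → ℝ)) => (q.1.2.2, q.2))
          (by fun_prop)
    exact h1.lintegral_prod_right'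
  · exact Metric.isClosed_closedBall.measurableSet.preimage (by fun_prop)

/-- Jensen's inequality. -/
theorem jensen {α : Type*} [MeasurableSpace α] (μ : Measure α) (n : ℕ) {f : α → ℝ≥0∞}
    (hf : AEMeasurable f μ) :
    (∫⁻ x, f x ∂μ) ^ (n + 2) ≤ (μ univ) ^ (n + 1) * ∫⁻ x, f x ^ (n + 2) ∂μ := by
  have hn : (0 : ℝ) ≤ n := Nat.cast_nonneg n
  set p : ℝ := (n : ℝ) + 2 with hp
  set q : ℝ := ((n : ℝ) + 2) / ((n : ℝ) + 1) with hq
  have hpq : p.HolderConjugate q := by
    rw [Real.holderConjugate_iff]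
    constructor
    · rw [hp]; linarith
    · rw [hp, hq]
      field_simp
      ring
  have h1 := ENNReal.lintegral_mul_le_Lp_mul_Lq μ hpq (f := f) (g := fun _ => (1 : ℝ≥0∞))
    hf aemeasurable_const
  have e1 : ∀ x, (f * (fun _ : α => (1 : ℝ≥0∞)) : α → ℝ≥0∞) x = f x := by
    intro x; simp
  simp only [e1, ENNReal.one_rpow, lintegral_one] at h1
  calc (∫⁻ x, f x ∂μ) ^ (n + 2) ≤ ((∫⁻ x, f x ^ p ∂μ) ^ (1 / p) * (μ univ) ^ (1 / q)) ^ (n + 2) := by
        gcongr
    _ = (μ univ) ^ (n + 1) * ∫⁻ x, f x ^ (n + 2) ∂μ := by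
        rw [mul_pow, ← ENNReal.rpow_natCast, ← ENNReal.rpow_natCast, ← ENNReal.rpow_mul,
          ← ENNReal.rpow_mul, mul_comm]
        congr 1
        · rw [← ENNReal.rpow_natCast]
          congr 1
          rw [hq]
          push_cast
          field_simp
        · have e2 : 1 / p * ((n + 2 : ℕ) : ℝ) = 1 := by
            rw [hp]
            push_cast
            field_simp
          rw [e2, ENNReal.rpow_one]
          apply lintegral_congr
          intro x
          rw [← ENNReal.rpow_natCast]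
          congr 1
          rw [hp]
          push_cast
          ring

theorem Ga_pow_le {a b S T : ℝ} (ha : 0 < a) (hb : 0 < b) {g : ℂ → ℝ × (Fin k → ℝ) → ℝ≥0∞}
    (hg : Measurable (Function.uncurry g)) (v : Fin k → ℝ) (r : ℝ) (y : ℂ) :
    Ga a b S T g v r y ^ (k + 3) ≤ (Metric.closedBall T S).indicator (fun _ => 1) r *
      ((bxv k a b)⁻¹ * ∫⁻ p, Wt a b v r p * g y p ^ (k + 3)) := by
  have hA0 : bxv k a b ≠ 0 := by
    unfold bxv
    have h1 : ENNReal.ofReal (2 * a) ≠ 0 := by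
      rw [Ne, ENNReal.ofReal_eq_zero]; push Not; linarith
    have h2 : ENNReal.ofReal (2 * b) ^ k ≠ 0 := by
      apply pow_ne_zero
      rw [Ne, ENNReal.ofReal_eq_zero]; push Not; linarith
    exact mul_ne_zero h1 h2
  have hAt : bxv k a b ≠ ∞ := by
    unfold bxv
    exact ENNReal.mul_ne_top ENNReal.ofReal_ne_top (ENNReal.pow_ne_top ENNReal.ofReal_ne_top)
  have hgy : Measurable (g y) := hg.comp measurable_prodMk_left
  have hset : ∀ h : ℝ × (Fin k → ℝ) → ℝ≥0∞,
      ∫⁻ p, Wt a b v r p * h p = ∫⁻ p in Bx a b v r, h p := by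
    intro h
    rw [← lintegral_indicator (Bx_meas a b v r)]
    apply lintegral_congr
    intro p
    unfold Wt
    by_cases hp : p ∈ Bx a b v r
    · rw [indicator_of_mem hp, indicator_of_mem hp, one_mul]
    · rw [indicator_of_notMem hp, indicator_of_notMem hp, zero_mul]
  unfold Ga
  by_cases hq : r ∈ Metric.closedBall T S
  · rw [indicator_of_mem hq, indicator_of_mem hq, one_mul, hset, hset, mul_pow]
    have h1 := jensen (volume.restrict (Bx a b v r)) (k + 1) (f := g y) hgy.aemeasurable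
    rw [Measure.restrict_apply_univ, Bx_vol] at h1
    have e1 : k + 1 + 2 = k + 3 := by ring
    have e2 : k + 1 + 1 = k + 2 := by ring
    rw [e1, e2] at h1
    calc (bxv k a b)⁻¹ ^ (k + 3) * (∫⁻ p in Bx a b v r, g y p) ^ (k + 3)
        ≤ (bxv k a b)⁻¹ ^ (k + 3) * (bxv k a b ^ (k + 2) *
            ∫⁻ p in Bx a b v r, g y p ^ (k + 3)) := by gcongr
      _ = (bxv k a b)⁻¹ * ((bxv k a b)⁻¹ * bxv k a b) ^ (k + 2) *
            ∫⁻ p in Bx a b v r, g y p ^ (k + 3) := by
          rw [mul_pow]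
          ring
      _ = _ := by
          rw [ENNReal.inv_mul_cancel hA0 hAt, one_pow, mul_one]
  · rw [indicator_of_notMem hq, zero_pow (by omega)]
    exact zero_le

/-- One-dimensional volume bound in the direction variables. -/
theorem vol_line {R b : ℝ} (hb : 0 < b) (x r : ℝ) :
    volume {t : ℝ | |t| ≤ R ∧ |x - r * t| ≤ b} ≤
      ENNReal.ofReal (2 * (1 + R) * b / (|r| + b)) := by
  set S : Set ℝ := {t : ℝ | |t| ≤ R ∧ |x - r * t| ≤ b} with hS
  have h1 : volume S ≤ ENNReal.ofReal (2 * R) := by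
    calc volume S ≤ volume (Icc (-R) R) := by
          apply measure_mono
          intro t ht
          exact abs_le.1 ht.1
      _ = _ := by
          rw [Real.volume_Icc]
          congr 1
          ring
  have hpos : 0 < |r| + b := by positivity
  by_cases hr : r = 0
  · refine h1.trans (ENNReal.ofReal_le_ofReal ?_)
    rw [hr, abs_zero, zero_add, mul_div_assoc, div_self hb.ne']
    linarith
  have hr' : 0 < |r| := abs_pos.2 hr
  have h2 : volume S ≤ ENNReal.ofReal (2 * (b / |r|)) := by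
    calc volume S ≤ volume (Metric.closedBall (x / r) (b / |r|)) := by
          apply measure_mono
          intro t ht
          rw [Metric.mem_closedBall, Real.dist_eq, le_div_iff₀ hr', ← abs_mul]
          have : (t - x / r) * r = -(x - r * t) := by
            field_simp
            ring
          rw [this, abs_neg]
          exact ht.2
      _ = _ := Real.volume_closedBall _ _
  rcases le_total (R * |r|) b with h | h
  · refine h1.trans (ENNReal.ofReal_le_ofReal ?_)
    rw [le_div_iff₀ hpos]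
    nlinarith
  · refine h2.trans (ENNReal.ofReal_le_ofReal ?_)
    rw [le_div_iff₀ hpos, mul_div_assoc', div_mul_eq_mul_div, div_le_iff₀ hr']
    nlinarith

/-- The level sets of `r ↦ s + r^2`. -/
theorem level {a b : ℝ} (ha : 0 < a) (hb : 0 < b) (hab : b ^ 2 ≤ a) (s : ℝ) :
    ∫⁻ r in {r : ℝ | |s + r ^ 2| ≤ a}, ENNReal.ofReal (|r| + b) ≤ ENNReal.ofReal (5 * a) := by
  by_cases hs : a - s < 0
  · have : {r : ℝ | |s + r ^ 2| ≤ a} = ∅ := by
      ext r
      simp only [mem_ofPred_eq, mem_empty_iff_false, iff_false, not_le]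
      have := sq_nonneg r
      exact lt_of_lt_of_le (by linarith) (le_abs_self _)
    rw [this]
    simp
  push Not at hs
  set β : ℝ := √(a - s) with hβ
  set α : ℝ := √(-a - s) with hα
  have hβ2 : β ^ 2 = a - s := Real.sq_sqrt hs
  have hβ0 : 0 ≤ β := Real.sqrt_nonneg _
  have hα0 : 0 ≤ α := Real.sqrt_nonneg _
  have hαβ : α ≤ β := Real.sqrt_le_sqrt (by linarith)
  have hd : β ^ 2 - α ^ 2 ≤ 2 * a := by
    by_cases h : 0 ≤ -a - s
    · have : α ^ 2 = -a - s := Real.sq_sqrt h
      linarith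
    · push Not at h
      nlinarith [sq_nonneg α]
  have hsub : {r : ℝ | |s + r ^ 2| ≤ a} ⊆ Icc (-β) (-α) ∪ Icc α β := by
    intro r hr
    simp only [mem_ofPred_eq, abs_le] at hr
    have h1 : |r| ≤ β := by
      rw [← Real.sqrt_sq_eq_abs]
      exact Real.sqrt_le_sqrt (by linarith [hr.2])
    have h2 : α ≤ |r| := by
      rw [← Real.sqrt_sq_eq_abs]
      exact Real.sqrt_le_sqrt (by linarith [hr.1])
    rcases le_total 0 r with h | h
    · rw [abs_of_nonneg h] at h1 h2
      exact Or.inr ⟨h2, h1⟩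
    · rw [abs_of_nonpos h] at h1 h2
      exact Or.inl ⟨by linarith, by linarith⟩
  have hI : ∀ c : ℝ, 0 ≤ c → ∫⁻ r in Icc α β, ENNReal.ofReal (r + c) =
      ENNReal.ofReal ((β ^ 2 - α ^ 2) / 2 + c * (β - α)) := by
    intro c hc
    have hi : IntegrableOn (fun r : ℝ => r + c) (Icc α β) :=
      (continuous_id.add continuous_const).continuousOn.integrableOn_compact isCompact_Icc
    rw [← ofReal_integral_eq_lintegral_ofReal hi]
    · congr 1
      rw [integral_Icc_eq_integral_Ioc, ← intervalIntegral.integral_of_le hαβ,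
        intervalIntegral.integral_add (by simp) (by simp)]
      simp only [integral_id, intervalIntegral.integral_const, smul_eq_mul]
      ring
    · filter_upwards [ae_restrict_mem measurableSet_Icc] with r hr
      have := hr.1
      simp only [Pi.zero_apply]
      linarith
  have e1 : ∫⁻ r in Icc α β, ENNReal.ofReal (|r| + b) =
      ENNReal.ofReal ((β ^ 2 - α ^ 2) / 2 + b * (β - α)) := by
    rw [← hI b hb.le]
    apply setLIntegral_congr_fun measurableSet_Icc
    intro r hr
    simp only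
    rw [abs_of_nonneg (hα0.trans hr.1)]
  have e2 : ∫⁻ r in Icc (-β) (-α), ENNReal.ofReal (|r| + b) =
      ∫⁻ r in Icc α β, ENNReal.ofReal (|r| + b) := by
    rw [← lintegral_indicator measurableSet_Icc, ← lintegral_indicator measurableSet_Icc,
      ← lintegral_neg_eq_self]
    apply lintegral_congr
    intro x
    by_cases hx : x ∈ Icc α β
    · have hx' : -x ∈ Icc (-β) (-α) := ⟨by linarith [hx.2], by linarith [hx.1]⟩
      rw [indicator_of_mem hx, indicator_of_mem hx', abs_neg]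
    · have hx' : -x ∉ Icc (-β) (-α) := by
        intro hc
        exact hx ⟨by linarith [hc.2], by linarith [hc.1]⟩
      rw [indicator_of_notMem hx, indicator_of_notMem hx']
  have hbd : b * (β - α) ≤ 3 / 2 * a := by
    have h1 : (β - α) ^ 2 ≤ 2 * a := by nlinarith
    have h2 : (b * (β - α)) ^ 2 ≤ (3 / 2 * a) ^ 2 := by
      have : (b * (β - α)) ^ 2 = b ^ 2 * (β - α) ^ 2 := by ring
      rw [this]
      have h3 : b ^ 2 * (β - α) ^ 2 ≤ a * (2 * a) := by
        apply mul_le_mul hab h1 (sq_nonneg _) ha.le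
      nlinarith
    exact abs_le_of_sq_le_sq' h2 (by positivity) |>.2
  have hnn : 0 ≤ (β ^ 2 - α ^ 2) / 2 + b * (β - α) := by
    have h1 : 0 ≤ b * (β - α) := mul_nonneg hb.le (by linarith)
    have h2 : α ^ 2 ≤ β ^ 2 := by nlinarith
    linarith
  calc ∫⁻ r in {r : ℝ | |s + r ^ 2| ≤ a}, ENNReal.ofReal (|r| + b)
      ≤ ∫⁻ r in Icc (-β) (-α) ∪ Icc α β, ENNReal.ofReal (|r| + b) := lintegral_mono_set hsub
    _ ≤ _ := lintegral_union_le _ _ _
    _ = ENNReal.ofReal (2 * ((β ^ 2 - α ^ 2) / 2 + b * (β - α))) := by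
        rw [e2, e1, ← ENNReal.ofReal_add hnn hnn]
        congr 1
        ring
    _ ≤ _ := by
        apply ENNReal.ofReal_le_ofReal
        linarith

/-- The bound of the kernel. -/
theorem kernel_le {a b R : ℝ} (ha : 0 < a) (hb : 0 < b) (hab : b ^ 2 ≤ a) (hR : 0 ≤ R)
    (p : ℝ × (Fin k → ℝ)) :
    ∫⁻ v in {v : Fin k → ℝ | ∀ i, |v i| ≤ R}, ∫⁻ r, Wt a b v r p *
        ENNReal.ofReal (|r| + b) ^ (k + 1) ≤
      ENNReal.ofReal (3 * (1 + R) ^ k) * bxv k a b := by
  have hVm : MeasurableSet {v : Fin k → ℝ | ∀ i, |v i| ≤ R} := by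
    have : {v : Fin k → ℝ | ∀ i, |v i| ≤ R} = Set.pi univ (fun _ => Icc (-R) R) := by
      ext v
      simp only [mem_ofPred_eq, mem_pi, mem_univ, forall_true_left, mem_Icc, abs_le]
    rw [this]
    exact MeasurableSet.univ_pi fun i => measurableSet_Icc
  have hWm : Measurable (fun q : (Fin k → ℝ) × ℝ => Wt a b q.1 q.2 p *
      ENNReal.ofReal (|q.2| + b) ^ (k + 1)) := by
    apply Measurable.mul
    · exact (Wt_meas a b).comp (g := fun q : ((Fin k → ℝ) × ℝ) × (ℝ × (Fin k → ℝ)) =>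
          Wt a b q.1.1 q.1.2 q.2)
          (f := fun q : (Fin k → ℝ) × ℝ => (q, p)) (by fun_prop)
    · fun_prop
  rw [lintegral_lintegral_swap (μ := volume.restrict {v : Fin k → ℝ | ∀ i, |v i| ≤ R})
    hWm.aemeasurable]
  have hin : ∀ r : ℝ, ∫⁻ v in {v : Fin k → ℝ | ∀ i, |v i| ≤ R}, Wt a b v r p *
      ENNReal.ofReal (|r| + b) ^ (k + 1) ≤
      {r : ℝ | |p.1 + r ^ 2| ≤ a}.indicator
        (fun r => ENNReal.ofReal ((2 * (1 + R) * b) ^ k) * ENNReal.ofReal (|r| + b)) r := by
    intro r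
    by_cases hr : |p.1 + r ^ 2| ≤ a
    · rw [indicator_of_mem (show r ∈ {r : ℝ | |p.1 + r ^ 2| ≤ a} from hr)]
      rw [lintegral_mul_const' _ _ (ENNReal.pow_ne_top ENNReal.ofReal_ne_top)]
      have h1 : ∫⁻ v in {v : Fin k → ℝ | ∀ i, |v i| ≤ R}, Wt a b v r p ≤
          ENNReal.ofReal (2 * (1 + R) * b / (|r| + b)) ^ k := by
        calc ∫⁻ v in {v : Fin k → ℝ | ∀ i, |v i| ≤ R}, Wt a b v r p
            ≤ ∫⁻ v, (Set.pi univ fun i => {t : ℝ | |t| ≤ R ∧ |p.2 i - r * t| ≤ b}).indicator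
                (fun _ => (1 : ℝ≥0∞)) v := by
              rw [← lintegral_indicator hVm]
              apply lintegral_mono
              intro v
              by_cases hv : v ∈ {v : Fin k → ℝ | ∀ i, |v i| ≤ R}
              · rw [indicator_of_mem hv]
                unfold Wt
                by_cases hp : p ∈ Bx a b v r
                · rw [indicator_of_mem hp, indicator_of_mem]
                  intro i _
                  exact ⟨hv i, hp.2 i⟩
                · rw [indicator_of_notMem hp]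
                  exact zero_le
              · rw [indicator_of_notMem hv]
                exact zero_le
          _ ≤ volume (Set.pi univ fun i => {t : ℝ | |t| ≤ R ∧ |p.2 i - r * t| ≤ b}) := by
              rw [lintegral_indicator_const₀, one_mul]
              apply MeasurableSet.nullMeasurableSet
              apply MeasurableSet.univ_pi
              intro i
              have m1 : MeasurableSet {t : ℝ | |t| ≤ R} :=
                measurableSet_le (by fun_prop) (by fun_prop)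
              have m2 : MeasurableSet {t : ℝ | |p.2 i - r * t| ≤ b} :=
                measurableSet_le (by fun_prop) (by fun_prop)
              exact m1.inter m2
          _ = ∏ i, volume {t : ℝ | |t| ≤ R ∧ |p.2 i - r * t| ≤ b} := volume_pi_pi _
          _ ≤ ∏ _i : Fin k, ENNReal.ofReal (2 * (1 + R) * b / (|r| + b)) := by
              apply Finset.prod_le_prod'
              intro i _
              exact vol_line hb _ _
          _ = _ := by
              simp only [Finset.prod_const, Finset.card_univ, Fintype.card_fin]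
      have hpos : 0 < |r| + b := by positivity
      calc (∫⁻ v in {v : Fin k → ℝ | ∀ i, |v i| ≤ R}, Wt a b v r p) *
            ENNReal.ofReal (|r| + b) ^ (k + 1)
          ≤ ENNReal.ofReal (2 * (1 + R) * b / (|r| + b)) ^ k *
            ENNReal.ofReal (|r| + b) ^ (k + 1) := by gcongr
        _ = (ENNReal.ofReal (2 * (1 + R) * b / (|r| + b)) * ENNReal.ofReal (|r| + b)) ^ k *
            ENNReal.ofReal (|r| + b) := by ring
        _ = _ := by
            rw [← ENNReal.ofReal_mul (by positivity), div_mul_cancel₀ _ hpos.ne',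
              ENNReal.ofReal_pow (by positivity)]
    · have : ∀ v : Fin k → ℝ, Wt a b v r p = 0 := by
        intro v
        unfold Wt
        rw [indicator_of_notMem]
        intro hc
        exact hr hc.1
      simp [this]
  have hm : MeasurableSet {r : ℝ | |p.1 + r ^ 2| ≤ a} := measurableSet_le (by fun_prop) (by fun_prop)
  calc ∫⁻ r, ∫⁻ v in {v : Fin k → ℝ | ∀ i, |v i| ≤ R}, Wt a b v r p *
        ENNReal.ofReal (|r| + b) ^ (k + 1)
      ≤ ∫⁻ r, {r : ℝ | |p.1 + r ^ 2| ≤ a}.indicator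
        (fun r => ENNReal.ofReal ((2 * (1 + R) * b) ^ k) * ENNReal.ofReal (|r| + b)) r :=
        lintegral_mono hin
    _ = ENNReal.ofReal ((2 * (1 + R) * b) ^ k) *
        ∫⁻ r in {r : ℝ | |p.1 + r ^ 2| ≤ a}, ENNReal.ofReal (|r| + b) := by
        rw [lintegral_indicator hm, lintegral_const_mul' _ _ ENNReal.ofReal_ne_top]
    _ ≤ ENNReal.ofReal ((2 * (1 + R) * b) ^ k) * ENNReal.ofReal (5 * a) := by
        gcongr
        exact level ha hb hab p.1
    _ ≤ _ := by
        rw [bxv, ← ENNReal.ofReal_pow (by positivity), ← ENNReal.ofReal_mul (by positivity),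
          ← ENNReal.ofReal_mul (by positivity), ← ENNReal.ofReal_mul (by positivity)]
        apply ENNReal.ofReal_le_ofReal
        have e1 : (2 * (1 + R) * b) ^ k = (1 + R) ^ k * (2 * b) ^ k := by
          rw [← mul_pow]; congr 1; ring
        rw [e1]
        have h1 : 0 ≤ (1 + R) ^ k * (2 * b) ^ k * a := by positivity
        nlinarith

/-- Integration of the averages over the directions. -/
theorem Ga_int {a b R : ℝ} (ha : 0 < a) (hb : 0 < b) (hab : b ^ 2 ≤ a) (hR : 0 ≤ R)
    {g : ℂ → ℝ × (Fin k → ℝ) → ℝ≥0∞} (hg : Measurable (Function.uncurry g)) :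
    ∫⁻ v in {v : Fin k → ℝ | ∀ i, |v i| ≤ R}, ∫⁻ r, ∫⁻ y,
        ((bxv k a b)⁻¹ * ∫⁻ p, Wt a b v r p * g y p ^ (k + 3)) *
          ENNReal.ofReal (|r| + b) ^ (k + 1) ≤
      ENNReal.ofReal (3 * (1 + R) ^ k) * ∫⁻ y, ∫⁻ p, g y p ^ (k + 3) := by
  have hA0 : bxv k a b ≠ 0 := by
    unfold bxv
    have h1 : ENNReal.ofReal (2 * a) ≠ 0 := by
      rw [Ne, ENNReal.ofReal_eq_zero]; push Not; linarith
    have h2 : ENNReal.ofReal (2 * b) ^ k ≠ 0 := by
      apply pow_ne_zero
      rw [Ne, ENNReal.ofReal_eq_zero]; push Not; linarith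
    exact mul_ne_zero h1 h2
  have hAt : bxv k a b ≠ ∞ := by
    unfold bxv
    exact ENNReal.mul_ne_top ENNReal.ofReal_ne_top (ENNReal.pow_ne_top ENNReal.ofReal_ne_top)
  have hAit : (bxv k a b)⁻¹ ≠ ∞ := ENNReal.inv_ne_top.2 hA0
  set V : Set (Fin k → ℝ) := {v : Fin k → ℝ | ∀ i, |v i| ≤ R} with hV
  set h : ℂ × (ℝ × (Fin k → ℝ)) → ℝ≥0∞ := fun q => g q.1 q.2 ^ (k + 3) with hh
  have hhm : Measurable h := hg.pow_const _
  set F : (Fin k → ℝ) → ℝ → (ℂ × (ℝ × (Fin k → ℝ))) → ℝ≥0∞ :=
    fun v r q => (Wt a b v r q.2 * ENNReal.ofReal (|r| + b) ^ (k + 1)) * h q with hF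
  have hF1 : Measurable (fun z : ((Fin k → ℝ) × ℝ) × (ℂ × (ℝ × (Fin k → ℝ))) =>
      F z.1.1 z.1.2 z.2) := by
    apply Measurable.mul
    · apply Measurable.mul
      · exact (Wt_meas a b).comp (g := fun q : ((Fin k → ℝ) × ℝ) × (ℝ × (Fin k → ℝ)) =>
          Wt a b q.1.1 q.1.2 q.2)
          (f := fun z : ((Fin k → ℝ) × ℝ) × (ℂ × (ℝ × (Fin k → ℝ))) => (z.1, z.2.2))
          (by fun_prop)
      · fun_prop
    · exact hhm.comp measurable_snd
  calc ∫⁻ v in V, ∫⁻ r, ∫⁻ y, ((bxv k a b)⁻¹ * ∫⁻ p, Wt a b v r p * g y p ^ (k + 3)) *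
          ENNReal.ofReal (|r| + b) ^ (k + 1)
      = ∫⁻ v in V, ∫⁻ r, ∫⁻ q, (bxv k a b)⁻¹ * F v r q := by
        apply lintegral_congr
        intro v
        apply lintegral_congr
        intro r
        have hFvr : Measurable (fun q => (bxv k a b)⁻¹ * F v r q) := by
          apply Measurable.const_mul
          exact hF1.comp (g := fun z : ((Fin k → ℝ) × ℝ) × (ℂ × (ℝ × (Fin k → ℝ))) =>
            F z.1.1 z.1.2 z.2) (f := fun q => ((v, r), q)) (by fun_prop)
        rw [Measure.volume_eq_prod ℂ, lintegral_prod _ hFvr.aemeasurable]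
        apply lintegral_congr
        intro y
        rw [lintegral_const_mul' _ _ hAit, mul_assoc]
        congr 1
        rw [← lintegral_mul_const' _ _ (ENNReal.pow_ne_top ENNReal.ofReal_ne_top)]
        apply lintegral_congr
        intro p
        simp only [hF, hh]
        ring
    _ = ∫⁻ v in V, ∫⁻ q, ∫⁻ r, (bxv k a b)⁻¹ * F v r q := by
        apply lintegral_congr
        intro v
        rw [lintegral_lintegral_swap]
        apply Measurable.aemeasurable
        apply Measurable.const_mul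
        exact hF1.comp (g := fun z : ((Fin k → ℝ) × ℝ) × (ℂ × (ℝ × (Fin k → ℝ))) =>
          F z.1.1 z.1.2 z.2) (f := fun w : ℝ × (ℂ × (ℝ × (Fin k → ℝ))) => ((v, w.1), w.2))
          (by fun_prop)
    _ = ∫⁻ q, ∫⁻ v in V, ∫⁻ r, (bxv k a b)⁻¹ * F v r q := by
        rw [lintegral_lintegral_swap (μ := volume.restrict V)]
        apply Measurable.aemeasurable
        have h1 : Measurable (fun z : ((Fin k → ℝ) × (ℂ × (ℝ × (Fin k → ℝ)))) × ℝ =>
            (bxv k a b)⁻¹ * F z.1.1 z.2 z.1.2) := by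
          apply Measurable.const_mul
          exact hF1.comp (g := fun z : ((Fin k → ℝ) × ℝ) × (ℂ × (ℝ × (Fin k → ℝ))) =>
            F z.1.1 z.1.2 z.2)
            (f := fun z : ((Fin k → ℝ) × (ℂ × (ℝ × (Fin k → ℝ)))) × ℝ => ((z.1.1, z.2), z.1.2))
            (by fun_prop)
        exact h1.lintegral_prod_right'
    _ ≤ ∫⁻ q, ENNReal.ofReal (3 * (1 + R) ^ k) * h q := by
        apply lintegral_mono
        intro q
        simp only
        have hWq : Measurable (fun z : (Fin k → ℝ) × ℝ => Wt a b z.1 z.2 q.2 *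
            ENNReal.ofReal (|z.2| + b) ^ (k + 1)) := by
          apply Measurable.mul
          · exact (Wt_meas a b).comp (g := fun q : ((Fin k → ℝ) × ℝ) × (ℝ × (Fin k → ℝ)) =>
              Wt a b q.1.1 q.1.2 q.2)
              (f := fun z : (Fin k → ℝ) × ℝ => (z, q.2)) (by fun_prop)
          · fun_prop
        have e1 : ∀ v, ∫⁻ r, (bxv k a b)⁻¹ * F v r q =
            ((bxv k a b)⁻¹ * h q) * ∫⁻ r, Wt a b v r q.2 *
              ENNReal.ofReal (|r| + b) ^ (k + 1) := by
          intro v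
          have hWv : Measurable (fun r : ℝ => Wt a b v r q.2 *
              ENNReal.ofReal (|r| + b) ^ (k + 1)) :=
            hWq.comp (g := fun z : (Fin k → ℝ) × ℝ => Wt a b z.1 z.2 q.2 *
              ENNReal.ofReal (|z.2| + b) ^ (k + 1)) (f := fun r : ℝ => (v, r)) (by fun_prop)
          refine Eq.trans ?_ (lintegral_const_mul ((bxv k a b)⁻¹ * h q) hWv)
          apply lintegral_congr
          intro r
          simp only [hF]
          ring
        have hK := kernel_le (k := k) ha hb hab hR q.2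
        have hKm : Measurable (fun v : Fin k → ℝ => ∫⁻ r, Wt a b v r q.2 *
              ENNReal.ofReal (|r| + b) ^ (k + 1)) := hWq.lintegral_prod_right'
        have e2 : ∫⁻ v in V, ∫⁻ r, (bxv k a b)⁻¹ * F v r q =
            ((bxv k a b)⁻¹ * h q) * ∫⁻ v in V, ∫⁻ r, Wt a b v r q.2 *
              ENNReal.ofReal (|r| + b) ^ (k + 1) := by
          refine Eq.trans ?_ (lintegral_const_mul ((bxv k a b)⁻¹ * h q) hKm)
          apply lintegral_congr
          intro v
          exact e1 v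
        rw [e2]
        clear e1 e2 hKm hWq
        generalize h q = X
        refine (mul_le_mul_right hK _).trans (le_of_eq ?_)
        calc (bxv k a b)⁻¹ * X * (ENNReal.ofReal (3 * (1 + R) ^ k) * bxv k a b)
            = ((bxv k a b)⁻¹ * bxv k a b) * (ENNReal.ofReal (3 * (1 + R) ^ k) * X) := by ring
          _ = _ := by rw [ENNReal.inv_mul_cancel hA0 hAt, one_mul]
    _ = _ := by
        rw [lintegral_const_mul _ hhm, Measure.volume_eq_prod ℂ, lintegral_prod _ hhm.aemeasurable]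

end Pool.Agent.N249.LR
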