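import Pool.Agent.H153R4.Pl

set_option autoImplicit false

/-!
Averages over light rays: the `L^2` identity on the circle.
-/

open MeasureTheory Set ENNReal Real Complex FourierTransform

namespace Pool.Agent.N249.LR

/-- The unit vector of angle `φ`. -/
noncomputable def w (φ : ℝ) : ℂ := Complex.exp (φ * I)

theorem norm_w (φ : ℝ) : ‖w φ‖ = 1 := Complex.norm_exp_ofReal_mul_I φ

theorem w_re (φ : ℝ) : (w φ).re = Real.cos φ := Complex.exp_ofReal_mul_I_re φ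
theorem w_im (φ : ℝ) : (w φ).im = Real.sin φ := Complex.exp_ofReal_mul_I_im φ

/-- `⟪ξ, w⟫`. -/
noncomputable def cx (ξ : ℂ) (φ : ℝ) : ℝ := ξ.re * Real.cos φ + ξ.im * Real.sin φ

/-- `⟪ξ, i w⟫`. -/
noncomputable def cy (ξ : ℂ) (φ : ℝ) : ℝ := ξ.im * Real.cos φ - ξ.re * Real.sin φ

theorem cx_cy (ξ : ℂ) (φ : ℝ) : cx ξ φ ^ 2 + cy ξ φ ^ 2 = ξ.re ^ 2 + ξ.im ^ 2 := by
  unfold cx cy
  have := Real.sin_sq_add_cos_sq φ
  have h : (ξ.re * Real.cos φ + ξ.im * Real.sin φ) ^ 2 +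
      (ξ.im * Real.cos φ - ξ.re * Real.sin φ) ^ 2 =
      (ξ.re ^ 2 + ξ.im ^ 2) * (Real.sin φ ^ 2 + Real.cos φ ^ 2) := by ring
  rw [h, this, mul_one]

theorem hasDerivAt_cx (ξ : ℂ) (φ : ℝ) : HasDerivAt (cx ξ) (cy ξ φ) φ := by
  have h := ((Real.hasDerivAt_cos φ).const_mul ξ.re).add ((Real.hasDerivAt_sin φ).const_mul ξ.im)
  refine h.congr_deriv ?_
  unfold cy
  ring

/-- Two angles with the same `⟪ξ, w⟫` and the same `⟪ξ, i w⟫` coincide. -/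
theorem angle_eq {ξ : ℂ} (hξ : ξ ≠ 0) {φ ψ : ℝ} (hφ : φ ∈ Ioc (-π) π) (hψ : ψ ∈ Ioc (-π) π)
    (h1 : cx ξ φ = cx ξ ψ) (h2 : cy ξ φ = cy ξ ψ) : φ = ψ := by
  have hn : 0 < ξ.re ^ 2 + ξ.im ^ 2 := by
    have := Complex.normSq_pos.2 hξ
    rw [Complex.normSq_apply] at this
    nlinarith
  have hc : Real.cos φ = Real.cos ψ := by
    have e1 : (ξ.re ^ 2 + ξ.im ^ 2) * Real.cos φ = ξ.re * cx ξ φ + ξ.im * cy ξ φ := by
      unfold cx cy; ring
    have e2 : (ξ.re ^ 2 + ξ.im ^ 2) * Real.cos ψ = ξ.re * cx ξ ψ + ξ.im * cy ξ ψ := by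
      unfold cx cy; ring
    have : (ξ.re ^ 2 + ξ.im ^ 2) * Real.cos φ = (ξ.re ^ 2 + ξ.im ^ 2) * Real.cos ψ := by
      rw [e1, e2, h1, h2]
    exact mul_left_cancel₀ hn.ne' this
  have hs : Real.sin φ = Real.sin ψ := by
    have e1 : (ξ.re ^ 2 + ξ.im ^ 2) * Real.sin φ = ξ.im * cx ξ φ - ξ.re * cy ξ φ := by
      unfold cx cy; ring
    have e2 : (ξ.re ^ 2 + ξ.im ^ 2) * Real.sin ψ = ξ.im * cx ξ ψ - ξ.re * cy ξ ψ := by
      unfold cx cy; ring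
    have : (ξ.re ^ 2 + ξ.im ^ 2) * Real.sin φ = (ξ.re ^ 2 + ξ.im ^ 2) * Real.sin ψ := by
      rw [e1, e2, h1, h2]
    exact mul_left_cancel₀ hn.ne' this
  have hw : w φ = w ψ := by
    apply Complex.ext
    · rw [w_re, w_re, hc]
    · rw [w_im, w_im, hs]
  unfold w at hw
  have a1 := Complex.arg_exp_mul_I φ
  have a2 := Complex.arg_exp_mul_I ψ
  rw [hw, a2] at a1
  have b1 : toIocMod Real.two_pi_pos (-π) φ = φ := by
    rw [toIocMod_eq_self]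
    constructor
    · exact hφ.1
    · linarith [hφ.2]
  have b2 : toIocMod Real.two_pi_pos (-π) ψ = ψ := by
    rw [toIocMod_eq_self]
    constructor
    · exact hψ.1
    · linarith [hψ.2]
  rw [b1, b2] at a1
  exact a1.symm

/-- The change of variables `t = ⟪ξ, w⟫` on the circle. -/
theorem circle_le {ξ : ℂ} (hξ : ξ ≠ 0) {B : ℝ → ℝ≥0∞} (hB : Measurable B) :
    ∫⁻ φ in Ioc (-π) π, ENNReal.ofReal |cy ξ φ| * B (cx ξ φ) ≤ 2 * ∫⁻ t, B t := by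
  have hcy : Measurable (cy ξ) := by unfold cy; fun_prop
  have hcx : Measurable (cx ξ) := by unfold cx; fun_prop
  set Sp : Set ℝ := Ioc (-π) π ∩ {φ | 0 < cy ξ φ} with hSp
  set Sm : Set ℝ := Ioc (-π) π ∩ {φ | cy ξ φ < 0} with hSm
  have hSpm : MeasurableSet Sp := measurableSet_Ioc.inter (measurableSet_lt measurable_const hcy)
  have hSmm : MeasurableSet Sm := measurableSet_Ioc.inter (measurableSet_lt hcy measurable_const)
  have hpiece : ∀ S : Set ℝ, MeasurableSet S → InjOn (cx ξ) S →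
      ∫⁻ φ in S, ENNReal.ofReal |cy ξ φ| * B (cx ξ φ) ≤ ∫⁻ t, B t := by
    intro S hS hinj
    have h := lintegral_image_eq_lintegral_abs_deriv_mul hS
      (fun φ _ => (hasDerivAt_cx ξ φ).hasDerivWithinAt) hinj B
    rw [← h]
    exact setLIntegral_le_lintegral _ _
  have hinjp : InjOn (cx ξ) Sp := by
    rintro φ ⟨hφ, hφp⟩ ψ ⟨hψ, hψp⟩ h
    have e1 := cx_cy ξ φ
    have e2 := cx_cy ξ ψ
    rw [h] at e1
    have h3 : cy ξ φ ^ 2 = cy ξ ψ ^ 2 := by linarith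
    have h4 : cy ξ φ = cy ξ ψ := by
      have h5 : 0 < cy ξ φ := hφp
      have h6 : 0 < cy ξ ψ := hψp
      nlinarith
    exact angle_eq hξ hφ hψ h h4
  have hinjm : InjOn (cx ξ) Sm := by
    rintro φ ⟨hφ, hφp⟩ ψ ⟨hψ, hψp⟩ h
    have e1 := cx_cy ξ φ
    have e2 := cx_cy ξ ψ
    rw [h] at e1
    have h3 : cy ξ φ ^ 2 = cy ξ ψ ^ 2 := by linarith
    have h4 : cy ξ φ = cy ξ ψ := by
      have h5 : cy ξ φ < 0 := hφp
      have h6 : cy ξ ψ < 0 := hψp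
      nlinarith
    exact angle_eq hξ hφ hψ h h4
  calc ∫⁻ φ in Ioc (-π) π, ENNReal.ofReal |cy ξ φ| * B (cx ξ φ)
      ≤ ∫⁻ φ in Sp ∪ Sm, ENNReal.ofReal |cy ξ φ| * B (cx ξ φ) := by
        rw [← lintegral_indicator measurableSet_Ioc, ← lintegral_indicator (hSpm.union hSmm)]
        apply lintegral_mono
        intro φ
        by_cases hφ : φ ∈ Ioc (-π) π
        · rw [indicator_of_mem hφ]
          rcases lt_trichotomy (cy ξ φ) 0 with h | h | h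
          · have hm : φ ∈ Sp ∪ Sm := Or.inr ⟨hφ, h⟩
            rw [indicator_of_mem hm]
          · simp [h]
          · have hm : φ ∈ Sp ∪ Sm := Or.inl ⟨hφ, h⟩
            rw [indicator_of_mem hm]
        · rw [indicator_of_notMem hφ]
          exact zero_le
    _ ≤ (∫⁻ φ in Sp, ENNReal.ofReal |cy ξ φ| * B (cx ξ φ)) +
          ∫⁻ φ in Sm, ENNReal.ofReal |cy ξ φ| * B (cx ξ φ) := lintegral_union_le _ _ _
    _ ≤ (∫⁻ t, B t) + ∫⁻ t, B t := add_le_add (hpiece Sp hSpm hinjp) (hpiece Sm hSmm hinjm)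
    _ = _ := by ring

end Pool.Agent.N249.LR
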