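import Pool.Agent.N249.LR.Gau

set_option autoImplicit false

/-!
Averages over light rays: the maximal estimate.
-/

open MeasureTheory Set ENNReal Real Complex FourierTransform

namespace Pool.Agent.N249.LR

variable {G : ℝ → ℂ → ℂ} {K R N : ℝ}

theorem Nice.sup_est (h : Nice G K R N) {δ : ℝ} (hδ : 0 < δ) (hδ1 : δ ≤ 1) :
    ∫⁻ φ in Ioc (-π) π, ∫⁻ m, ⨆ u : ℚ,
        ‖∫ u', ((gam δ (u - u') : ℝ) : ℂ) * FF G φ m u'‖ₑ ^ 2 ≤
      LL δ * (ENNReal.ofReal (4 * π * R + 2) * ∫⁻ r, ∫⁻ y, ‖G r y‖ₑ ^ 2) := by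
  have hL : LL δ ≠ ∞ := ((LL_le hδ hδ1).trans_lt ENNReal.ofReal_lt_top).ne
  have h1 : ∀ φ : ℝ, ∫⁻ m, ⨆ u : ℚ,
      ‖∫ u', ((gam δ (u - u') : ℝ) : ℂ) * FF G φ m u'‖ₑ ^ 2 ≤
        LL δ * ∫⁻ ξ : ℂ, (1 + ENNReal.ofReal |cy ξ φ|) * ‖BB G ξ (cx ξ φ)‖ₑ ^ 2 := by
    intro φ
    rw [← h.slice φ, ← lintegral_const_mul' _ _ hL]
    apply lintegral_mono
    intro m
    apply iSup_le
    intro u
    have hFm : Measurable (FF G φ m) :=
      h.FF_meas.comp (g := fun q : ℝ × (ℝ × ℝ) => FF G q.1 q.2.1 q.2.2)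
        (f := fun u => (φ, (m, u))) (by fun_prop)
    exact gam_sup hδ (h.FF_int φ m).1 hFm u
  calc _ ≤ ∫⁻ φ in Ioc (-π) π, LL δ *
        ∫⁻ ξ : ℂ, (1 + ENNReal.ofReal |cy ξ φ|) * ‖BB G ξ (cx ξ φ)‖ₑ ^ 2 :=
        lintegral_mono fun φ => h1 φ
    _ = LL δ * ∫⁻ φ in Ioc (-π) π,
        ∫⁻ ξ : ℂ, (1 + ENNReal.ofReal |cy ξ φ|) * ‖BB G ξ (cx ξ φ)‖ₑ ^ 2 :=
        lintegral_const_mul' _ _ hL
    _ ≤ _ := by
        gcongr
        exact h.main_freq

/-- Gaussian averages of ray transforms of nonnegative functions. -/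
noncomputable def SS (Γ : ℝ → ℂ → ℝ≥0∞) (δ φ m u : ℝ) : ℝ≥0∞ :=
  ∫⁻ u', ENNReal.ofReal (gam δ (u - u')) * ∫⁻ r, Γ r (rot φ (m + r, u'))

theorem SS_nice {g : ℝ → ℂ → ℝ} (h : Nice (fun r y => ((g r y : ℝ) : ℂ)) K R N)
    (h0 : ∀ r y, 0 ≤ g r y) {δ : ℝ} (hδ : 0 < δ) (φ m u : ℝ) :
    SS (fun r y => ENNReal.ofReal (g r y)) δ φ m u =
      ‖∫ u', ((gam δ (u - u') : ℝ) : ℂ) * FF (fun r y => ((g r y : ℝ) : ℂ)) φ m u'‖ₑ := by
  set G : ℝ → ℂ → ℂ := fun r y => ((g r y : ℝ) : ℂ) with hG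
  set X : ℝ → ℝ := fun u' => ∫ r, g r (rot φ (m + r, u')) with hX
  have hgm : Measurable (Function.uncurry g) := by
    have := Complex.continuous_re.measurable.comp h.meas
    exact this
  have hX0 : ∀ u', 0 ≤ X u' := fun u' => integral_nonneg fun r => h0 _ _
  have hFX : ∀ u', FF G φ m u' = ((X u' : ℝ) : ℂ) := by
    intro u'
    rw [FF, hX]
    exact integral_ofReal
  have hin : ∀ u', ∫⁻ r, ENNReal.ofReal (g r (rot φ (m + r, u'))) = ENNReal.ofReal (X u') := by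
    intro u'
    have hm1 : Measurable (fun r => G r (rot φ (m + r, u'))) := by
      have a1 : Measurable (fun r : ℝ => rot φ (m + r, u')) :=
        rot_meas.comp (g := fun q : ℝ × (ℝ × ℝ) => rot q.1 q.2)
          (f := fun r : ℝ => (φ, (m + r, u'))) (by fun_prop)
      exact h.meas.comp (measurable_id.prodMk a1)
    have hi := (bdd_integrable (μ := volume) (K := K) hm1 (fun r => h.bd _ _) (S := Icc (-R) R) (by simp)
      measurableSet_Icc (by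
        intro r hr
        rw [mem_Icc, ← abs_le] at hr
        exact h.supp_r _ _ (not_le.1 hr))).1
    have hi' : Integrable (fun r => g r (rot φ (m + r, u'))) := hi.re
    rw [hX, ofReal_integral_eq_lintegral_ofReal hi' (Filter.Eventually.of_forall fun r => h0 _ _)]
  have hXi : Integrable X := by
    have := (h.FF_int φ m).1.re
    refine this.congr ?_
    filter_upwards with u'
    rw [hFX]
    simp
  have hgX : Integrable (fun u' => gam δ (u - u') * X u') := by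
    refine hXi.bdd_mul (c := δ⁻¹) ?_ ?_
    · exact ((gam_meas δ).comp (by fun_prop)).aestronglyMeasurable
    · filter_upwards with u'
      rw [Real.norm_of_nonneg (gam_pos hδ _).le]
      exact gam_le hδ _
  have e1 : ∫ u', ((gam δ (u - u') : ℝ) : ℂ) * FF G φ m u' =
      ((∫ u', gam δ (u - u') * X u' : ℝ) : ℂ) := by
    have e0 : ((∫ u', gam δ (u - u') * X u' : ℝ) : ℂ) =
        ∫ u', ((gam δ (u - u') * X u' : ℝ) : ℂ) := integral_ofReal.symm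
    rw [e0]
    apply integral_congr_ae
    filter_upwards with u'
    rw [hFX]
    push_cast
    rfl
  rw [e1, ← ofReal_norm, Complex.norm_real, Real.norm_of_nonneg (integral_nonneg fun u' =>
    mul_nonneg (gam_pos hδ _).le (hX0 u')), ofReal_integral_eq_lintegral_ofReal hgX
    (Filter.Eventually.of_forall fun u' => mul_nonneg (gam_pos hδ _).le (hX0 u')), SS]
  apply lintegral_congr
  intro u'
  rw [hin, ENNReal.ofReal_mul (gam_pos hδ _).le]

theorem SS_inner_meas {Γ : ℝ → ℂ → ℝ≥0∞} (hΓ : Measurable (Function.uncurry Γ)) :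
    Measurable (fun q : ℝ × (ℝ × ℝ) => ∫⁻ r, Γ r (rot q.1 (q.2.1 + r, q.2.2))) := by
  have a1 : Measurable (fun p : (ℝ × (ℝ × ℝ)) × ℝ => rot p.1.1 (p.1.2.1 + p.2, p.1.2.2)) :=
    rot_meas.comp (g := fun q : ℝ × (ℝ × ℝ) => rot q.1 q.2)
      (f := fun p : (ℝ × (ℝ × ℝ)) × ℝ => (p.1.1, (p.1.2.1 + p.2, p.1.2.2))) (by fun_prop)
  have a2 : Measurable (fun p : (ℝ × (ℝ × ℝ)) × ℝ =>
      Γ p.2 (rot p.1.1 (p.1.2.1 + p.2, p.1.2.2))) := hΓ.comp (measurable_snd.prodMk a1)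
  exact a2.lintegral_prod_right' (ν := (volume : Measure ℝ))

theorem SS_meas {Γ : ℝ → ℂ → ℝ≥0∞} (hΓ : Measurable (Function.uncurry Γ)) (δ u : ℝ) :
    Measurable (fun q : ℝ × ℝ => SS Γ δ q.1 q.2 u) := by
  have a1 : Measurable (fun p : (ℝ × ℝ) × ℝ => ENNReal.ofReal (gam δ (u - p.2)) *
      ∫⁻ r, Γ r (rot p.1.1 (p.1.2 + r, p.2))) := by
    apply Measurable.mul
    · exact ((gam_meas δ).comp (by fun_prop)).ennreal_ofReal
    · exact (SS_inner_meas hΓ).comp (g := fun q : ℝ × (ℝ × ℝ) =>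
        ∫⁻ r, Γ r (rot q.1 (q.2.1 + r, q.2.2)))
        (f := fun p : (ℝ × ℝ) × ℝ => (p.1.1, (p.1.2, p.2))) (by fun_prop)
  exact a1.lintegral_prod_right' (ν := (volume : Measure ℝ))

theorem SS_mono {Γ Γ' : ℝ → ℂ → ℝ≥0∞} (h : ∀ r y, Γ r y ≤ Γ' r y) (δ φ m u : ℝ) :
    SS Γ δ φ m u ≤ SS Γ' δ φ m u := by
  unfold SS
  apply lintegral_mono
  intro u'
  apply mul_le_mul_right
  apply lintegral_mono
  intro r
  exact h _ _

/-- Truncation. -/
noncomputable def trc (Γ : ℝ → ℂ → ℝ≥0∞) (N : ℕ) (r : ℝ) (y : ℂ) : ℝ≥0∞ :=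
  {y : ℂ | ‖y‖ ≤ N}.indicator (fun y => min (Γ r y) N) y

theorem trc_meas {Γ : ℝ → ℂ → ℝ≥0∞} (hΓ : Measurable (Function.uncurry Γ)) (N : ℕ) :
    Measurable (Function.uncurry (trc Γ N)) := by
  have e : Function.uncurry (trc Γ N) =
      {q : ℝ × ℂ | ‖q.2‖ ≤ N}.indicator (fun q => min (Function.uncurry Γ q) N) := by
    funext q
    rfl
  rw [e]
  apply Measurable.indicator (hΓ.min measurable_const)
  exact measurableSet_le (by fun_prop) (by fun_prop)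

theorem trc_mono (Γ : ℝ → ℂ → ℝ≥0∞) (r : ℝ) (y : ℂ) : Monotone (fun N : ℕ => trc Γ N r y) := by
  intro M N hMN
  have hMN' : (M : ℝ) ≤ N := by exact_mod_cast hMN
  simp only [trc]
  by_cases hy : ‖y‖ ≤ M
  · rw [indicator_of_mem (show y ∈ {y : ℂ | ‖y‖ ≤ M} from hy),
      indicator_of_mem (show y ∈ {y : ℂ | ‖y‖ ≤ N} from hy.trans hMN')]
    exact min_le_min le_rfl (by exact_mod_cast hMN)
  · rw [indicator_of_notMem (show y ∉ {y : ℂ | ‖y‖ ≤ M} from hy)]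
    exact zero_le

theorem trc_le (Γ : ℝ → ℂ → ℝ≥0∞) (N : ℕ) (r : ℝ) (y : ℂ) : trc Γ N r y ≤ Γ r y := by
  unfold trc
  by_cases hy : ‖y‖ ≤ N
  · rw [indicator_of_mem (show y ∈ {y : ℂ | ‖y‖ ≤ N} from hy)]
    exact min_le_left _ _
  · rw [indicator_of_notMem (show y ∉ {y : ℂ | ‖y‖ ≤ N} from hy)]
    exact zero_le

theorem trc_le_nat (Γ : ℝ → ℂ → ℝ≥0∞) (N : ℕ) (r : ℝ) (y : ℂ) : trc Γ N r y ≤ N := by
  unfold trc
  by_cases hy : ‖y‖ ≤ N
  · rw [indicator_of_mem (show y ∈ {y : ℂ | ‖y‖ ≤ N} from hy)]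
    exact min_le_right _ _
  · rw [indicator_of_notMem (show y ∉ {y : ℂ | ‖y‖ ≤ N} from hy)]
    exact zero_le

theorem trc_iSup (Γ : ℝ → ℂ → ℝ≥0∞) (r : ℝ) (y : ℂ) : Γ r y = ⨆ N : ℕ, trc Γ N r y := by
  apply le_antisymm
  · have e0 : Γ r y = ⨆ N : ℕ, min (Γ r y) (N : ℝ≥0∞) := by
      have := inf_iSup_eq (Γ r y) (fun N : ℕ => (N : ℝ≥0∞))
      rw [ENNReal.iSup_natCast] at this
      simpa using this
    rw [e0]
    apply iSup_le
    intro M
    obtain ⟨n, hn, hy⟩ : ∃ n : ℕ, M ≤ n ∧ ‖y‖ ≤ n := by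
      refine ⟨max M ⌈‖y‖⌉₊, le_max_left _ _, (Nat.le_ceil _).trans ?_⟩
      exact_mod_cast le_max_right _ _
    refine le_trans ?_ (le_iSup (fun N : ℕ => trc Γ N r y) n)
    simp only [trc]
    rw [indicator_of_mem (show y ∈ {y : ℂ | ‖y‖ ≤ n} from hy)]
    exact min_le_min le_rfl (by exact_mod_cast hn)
  · exact iSup_le fun N => trc_le Γ N r y

theorem SS_iSup {Γ : ℝ → ℂ → ℝ≥0∞} (hΓ : Measurable (Function.uncurry Γ)) (δ φ m u : ℝ) :
    SS Γ δ φ m u = ⨆ N : ℕ, SS (trc Γ N) δ φ m u := by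
  have e1 : ∀ u', ∫⁻ r, Γ r (rot φ (m + r, u')) =
      ⨆ N : ℕ, ∫⁻ r, trc Γ N r (rot φ (m + r, u')) := by
    intro u'
    have a1 : Measurable (fun r : ℝ => rot φ (m + r, u')) :=
      rot_meas.comp (g := fun q : ℝ × (ℝ × ℝ) => rot q.1 q.2)
        (f := fun r : ℝ => (φ, (m + r, u'))) (by fun_prop)
    rw [← lintegral_iSup]
    · apply lintegral_congr
      intro r
      exact trc_iSup Γ _ _
    · intro N
      exact (trc_meas hΓ N).comp (measurable_id.prodMk a1)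
    · intro M N hMN r
      exact trc_mono Γ _ _ hMN
  unfold SS
  rw [← lintegral_iSup]
  · apply lintegral_congr
    intro u'
    rw [e1, ENNReal.mul_iSup]
  · intro N
    apply Measurable.mul
    · exact ((gam_meas δ).comp (by fun_prop)).ennreal_ofReal
    · exact (SS_inner_meas (trc_meas hΓ N)).comp (g := fun q : ℝ × (ℝ × ℝ) =>
        ∫⁻ r, trc Γ N r (rot q.1 (q.2.1 + r, q.2.2)))
        (f := fun u' : ℝ => (φ, (m, u'))) (by fun_prop)
  · intro M N hMN u'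
    apply mul_le_mul_right
    apply lintegral_mono
    intro r
    exact trc_mono Γ _ _ hMN

/-- The maximal estimate for light rays. -/
theorem core {Γ : ℝ → ℂ → ℝ≥0∞} (hΓ : Measurable (Function.uncurry Γ)) {R : ℝ} (hR : 0 ≤ R)
    (hr : ∀ r y, R < |r| → Γ r y = 0) {δ : ℝ} (hδ : 0 < δ) (hδ1 : δ ≤ 1) :
    ∫⁻ φ in Ioc (-π) π, ∫⁻ m, ⨆ u : ℚ, SS Γ δ φ m u ^ 2 ≤
      LL δ * (ENNReal.ofReal (4 * π * R + 2) * ∫⁻ r, ∫⁻ y, Γ r y ^ 2) := by
  have hfin : ∀ N r y, trc Γ N r y ≠ ∞ := by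
    intro N r y
    exact ((trc_le_nat Γ N r y).trans_lt (ENNReal.natCast_lt_top N)).ne
  have hN : ∀ N : ℕ, ∫⁻ φ in Ioc (-π) π, ∫⁻ m, ⨆ u : ℚ, SS (trc Γ N) δ φ m u ^ 2 ≤
      LL δ * (ENNReal.ofReal (4 * π * R + 2) * ∫⁻ r, ∫⁻ y, Γ r y ^ 2) := by
    intro N
    have hnice : Nice (fun r y => (((trc Γ N r y).toReal : ℝ) : ℂ)) N R N := by
      refine ⟨?_, ?_, ?_, ?_, by positivity, hR, by positivity⟩
      · exact Complex.measurable_ofReal.comp (trc_meas hΓ N).ennreal_toReal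
      · intro r y
        rw [Complex.norm_real, Real.norm_of_nonneg ENNReal.toReal_nonneg]
        have := ENNReal.toReal_mono (ENNReal.natCast_ne_top N) (trc_le_nat Γ N r y)
        simpa using this
      · intro r y h
        have : trc Γ N r y = 0 := le_antisymm ((trc_le Γ N r y).trans (hr r y h).le) zero_le
        simp [this]
      · intro r y h
        have : trc Γ N r y = 0 := by
          unfold trc
          rw [indicator_of_notMem]
          exact not_le.2 h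
        simp [this]
    have h1 := hnice.sup_est hδ hδ1
    have e1 : ∀ φ m u, ‖∫ u', ((gam δ (u - u') : ℝ) : ℂ) *
        FF (fun r y => (((trc Γ N r y).toReal : ℝ) : ℂ)) φ m u'‖ₑ = SS (trc Γ N) δ φ m u := by
      intro φ m u
      rw [← SS_nice hnice (fun r y => ENNReal.toReal_nonneg) hδ]
      congr 1
      funext r y
      exact ENNReal.ofReal_toReal (hfin N r y)
    simp only [e1] at h1
    refine h1.trans ?_
    gcongr with r y
    have : ‖(((trc Γ N r y).toReal : ℝ) : ℂ)‖ₑ = trc Γ N r y := by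
      rw [← ofReal_norm, Complex.norm_real, Real.norm_of_nonneg ENNReal.toReal_nonneg,
        ENNReal.ofReal_toReal (hfin N r y)]
    rw [this]
    exact trc_le Γ N r y
  have hSm : ∀ N, Measurable (fun q : ℝ × ℝ => ⨆ u : ℚ, SS (trc Γ N) δ q.1 q.2 u ^ 2) := by
    intro N
    exact Measurable.iSup fun u => (SS_meas (trc_meas hΓ N) δ u).pow_const _
  have hmonoN : ∀ φ m, Monotone (fun N => ⨆ u : ℚ, SS (trc Γ N) δ φ m u ^ 2) := by
    intro φ m M N hMN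
    apply iSup_mono
    intro u
    gcongr
    apply SS_mono
    intro r y
    exact trc_mono Γ r y hMN
  have e2 : ∀ φ m, ⨆ u : ℚ, SS Γ δ φ m u ^ 2 = ⨆ N, ⨆ u : ℚ, SS (trc Γ N) δ φ m u ^ 2 := by
    intro φ m
    rw [iSup_comm]
    apply iSup_congr
    intro u
    rw [SS_iSup hΓ, ENNReal.iSup_pow]
  have e3 : ∀ φ, ∫⁻ m, ⨆ u : ℚ, SS Γ δ φ m u ^ 2 =
      ⨆ N, ∫⁻ m, ⨆ u : ℚ, SS (trc Γ N) δ φ m u ^ 2 := by
    intro φ
    simp only [e2]
    rw [lintegral_iSup]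
    · intro N
      exact (hSm N).comp (g := fun q : ℝ × ℝ => ⨆ u : ℚ, SS (trc Γ N) δ q.1 q.2 u ^ 2)
        (f := fun m : ℝ => (φ, m)) (by fun_prop)
    · intro M N hMN m
      exact hmonoN φ m hMN
  have e4 : ∫⁻ φ in Ioc (-π) π, ∫⁻ m, ⨆ u : ℚ, SS Γ δ φ m u ^ 2 =
      ⨆ N, ∫⁻ φ in Ioc (-π) π, ∫⁻ m, ⨆ u : ℚ, SS (trc Γ N) δ φ m u ^ 2 := by
    simp only [e3]
    rw [lintegral_iSup]
    · intro N
      exact (hSm N).lintegral_prod_right' (ν := (volume : Measure ℝ))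
    · intro M N hMN φ
      apply lintegral_mono
      intro m
      exact hmonoN φ m hMN
  rw [e4]
  exact iSup_le hN

/-- The maximal estimate for light rays, away from the vertex. -/
theorem core_shift {Γ : ℝ → ℂ → ℝ≥0∞} (hΓ : Measurable (Function.uncurry Γ)) {R : ℝ}
    (hR : 0 ≤ R) (T : ℝ) (hr : ∀ r y, R < |r - T| → Γ r y = 0) {δ : ℝ} (hδ : 0 < δ)
    (hδ1 : δ ≤ 1) :
    ∫⁻ φ in Ioc (-π) π, ∫⁻ m, ⨆ u : ℚ, SS Γ δ φ m u ^ 2 ≤
      LL δ * (ENNReal.ofReal (4 * π * R + 2) * ∫⁻ r, ∫⁻ y, Γ r y ^ 2) := by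
  set Γ' : ℝ → ℂ → ℝ≥0∞ := fun r y => Γ (r + T) y with hΓ'
  have hΓ'm : Measurable (Function.uncurry Γ') :=
    hΓ.comp (g := Function.uncurry Γ) (f := fun q : ℝ × ℂ => (q.1 + T, q.2)) (by fun_prop)
  have h1 := core hΓ'm hR (fun r y h => hr _ _ (by simpa using h)) hδ hδ1
  have e1 : ∀ φ m u, SS Γ' δ φ m u = SS Γ δ φ (m - T) u := by
    intro φ m u
    unfold SS
    apply lintegral_congr
    intro u'
    congr 1
    have := lintegral_add_right_eq_self (μ := (volume : Measure ℝ))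
      (fun r => Γ r (rot φ (m - T + r, u'))) T
    rw [← this]
    apply lintegral_congr
    intro r
    simp only [hΓ']
    congr 3
    ring
  have e2 : ∫⁻ r, ∫⁻ y, Γ' r y ^ 2 = ∫⁻ r, ∫⁻ y, Γ r y ^ 2 :=
    lintegral_add_right_eq_self (μ := (volume : Measure ℝ)) (fun r => ∫⁻ y, Γ r y ^ 2) T
  rw [e2] at h1
  refine le_trans (le_of_eq ?_) h1
  apply lintegral_congr
  intro φ
  simp only [e1]
  exact (lintegral_sub_right_eq_self (μ := (volume : Measure ℝ))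
    (fun m => ⨆ u : ℚ, SS Γ δ φ m u ^ 2) T).symm

end Pool.Agent.N249.LR
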