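import Pool.Agent.N249.LR.Fin
import Pool.Agent.Y245.Transfer

set_option autoImplicit false

/-!
Tubes tangent to a paraboloid: the Hausdorff dimension of Kakeya sets of tangent lines.
-/

open MeasureTheory Set ENNReal Real

namespace Pool.Agent.N249.LR

variable {k : ℕ}

/-- The pointwise bound, normalised by the power of `δ`. -/
theorem avg_le0 {R δ : ℝ} (hR : 0 ≤ R) (hδ : 0 < δ) (hδ1 : δ ≤ 1) {e c P : Eu k} (he : ‖e‖ = 1)
    (h : Adm R δ e c P) {F : Eu k → ℝ≥0∞} (hF : Measurable F) :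
    ((ENNReal.ofReal δ ^ (k + 2))⁻¹ * ∫⁻ x in tub δ e c, F x) ^ (k + 3) ≤
      ENNReal.ofReal ((2 * (4 * R + 6) ^ 2 * (2 * (4 * R + 2)) ^ k * Real.exp (25 * π)) ^
        (k + 3)) * Hs (Psi R δ F) e := by
  set a : ℝ := (4 * R + 6) ^ 2 * δ with ha
  set b : ℝ := (4 * R + 2) * δ with hb
  have ha0 : 0 < a := by rw [ha]; positivity
  have hb0 : 0 < b := by rw [hb]; positivity
  have haR : (16 * R + 18) * δ ≤ a := by
    rw [ha]
    apply mul_le_mul_of_nonneg_right _ hδ.le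
    nlinarith
  have hy : yy e ≠ 0 := by
    intro hy0
    have h0 : e 0 = 0 := congrArg Complex.re hy0
    have h1 : e 1 = 0 := congrArg Complex.im hy0
    have h2 : e 2 = 0 := by rw [h.e2, h0, h1]; ring
    have h3 : ∀ i : Fin (k + 3), 2 < i → e i = 0 := by
      intro i hi
      have := h.es i hi
      rw [h0, h1] at this
      simp only [ne_eq, OfNat.ofNat_ne_zero, not_false_eq_true, zero_pow, add_zero,
        Real.sqrt_zero, mul_zero] at this
      exact abs_nonpos_iff.1 this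
    have : e = 0 := by
      ext i
      refine Fin.cases ?_ (fun i => ?_) i
      · exact h0
      · refine Fin.cases ?_ (fun i => ?_) i
        · exact h1
        · refine Fin.cases ?_ (fun i => ?_) i
          · exact h2
          · apply h3
            rw [Fin.lt_def]
            change 2 < (i : ℕ) + 1 + 1 + 1
            omega
    rw [this, norm_zero] at he
    exact zero_ne_one he
  set lam : ℝ := ‖yy e‖ with hlam
  have hl0 : 0 < lam := norm_pos_iff.2 hy
  set φ : ℝ := Complex.arg (yy e) with hφ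
  have hcos : lam * Real.cos φ = e 0 := Complex.norm_mul_cos_arg (yy e)
  have hsin : lam * Real.sin φ = e 1 := Complex.norm_mul_sin_arg (yy e)
  have hl2 : lam ^ 2 = e 0 ^ 2 + e 1 ^ 2 := by
    have := Real.sin_sq_add_cos_sq φ
    rw [← hcos, ← hsin]
    have e3 : (lam * Real.cos φ) ^ 2 + (lam * Real.sin φ) ^ 2 =
        lam ^ 2 * (Real.sin φ ^ 2 + Real.cos φ ^ 2) := by ring
    rw [e3, this, mul_one]
  have hsq : √(e 0 ^ 2 + e 1 ^ 2) = lam := by
    rw [← hl2, Real.sqrt_sq hl0.le]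
  have hl1 : lam ≤ 1 := by
    have a1 : lam ^ 2 ≤ ‖e‖ ^ 2 := by
      rw [EuclideanSpace.norm_sq_eq, hl2, Fin.sum_univ_succ, Fin.sum_univ_succ]
      simp only [Real.norm_eq_abs, sq_abs]
      have a2 : 0 ≤ ∑ i : Fin (k + 1), (e.ofLp i.succ.succ) ^ 2 :=
        Finset.sum_nonneg fun i _ => sq_nonneg _
      have a4 : e 1 = e (Fin.succ 0) := rfl
      rw [a4]
      linarith
    rw [he, one_pow] at a1
    exact abs_le_of_sq_le_sq' (by linarith) zero_le_one |>.2
  set v : Fin k → ℝ := lam⁻¹ • rest e with hv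
  set m : ℝ := (2 * lam)⁻¹ * e 2 with hm
  set u0 : ℝ := P 1 * Real.cos φ - P 0 * Real.sin φ with hu0
  set t0 : ℝ := inner ℝ (c - P) e with ht0
  have hTan : Tan R δ φ lam m u0 t0 v e c P := by
    refine ⟨hR, hl0, hl1, hcos.symm, hsin.symm, h.e2, ?_, ?_, h.P2, ?_, h.PR, h.cP, ?_, rfl, rfl⟩
    · intro i
      rw [hv, Pi.smul_apply, smul_eq_mul, mul_inv_cancel_left₀ hl0.ne']
      rfl
    · intro i
      rw [hv, Pi.smul_apply, smul_eq_mul, abs_mul, abs_inv, abs_of_pos hl0, inv_mul_le_iff₀ hl0]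
      have h1 := h.es i.succ.succ.succ (by
        rw [Fin.lt_def]
        change 2 < (i : ℕ) + 1 + 1 + 1
        omega)
      rw [hsq] at h1
      rw [mul_comm]
      exact h1
    · intro i
      apply h.Ps
      rw [Fin.lt_def]
      change 2 < (i : ℕ) + 1 + 1 + 1
      omega
    · rw [hm, h.e2, ← hcos, ← hsin]
      field_simp
  obtain ⟨u, hu⟩ : ∃ u : ℚ, |(u : ℝ) - u0| ≤ δ := by
    obtain ⟨u, h1, h2⟩ := exists_rat_btwn (show u0 < u0 + δ by linarith)
    refine ⟨u, ?_⟩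
    rw [abs_le]
    constructor <;> linarith
  set T : ℤ := round (t0 * lam) with hT
  have hTr : |t0 * lam - T| ≤ 1 / 2 := abs_sub_round _
  have hmain := hTan.int hδ hδ1 ha0 hb0 haR le_rfl hTr hu hF
  set Sx : ℝ≥0∞ := SS (Ga a b 5 T (gg F) v) δ φ m u with hSx
  have hc' : 0 < δ ^ (k + 2) := by positivity
  set C0 : ℝ := 2 * (4 * R + 6) ^ 2 * (2 * (4 * R + 2)) ^ k * Real.exp (25 * π) with hC0
  have hC0' : 0 ≤ C0 := by rw [hC0]; positivity
  have havg : (ENNReal.ofReal δ ^ (k + 2))⁻¹ * ∫⁻ x in tub δ e c, F x ≤ ENNReal.ofReal C0 * Sx := by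
    rw [← ENNReal.ofReal_pow hδ.le]
    calc (ENNReal.ofReal (δ ^ (k + 2)))⁻¹ * ∫⁻ x in tub δ e c, F x
        ≤ (ENNReal.ofReal (δ ^ (k + 2)))⁻¹ *
            (bxv k a b * (ENNReal.ofReal (δ * Real.exp (25 * π)) * Sx)) :=
          mul_le_mul' le_rfl hmain
      _ = ENNReal.ofReal C0 * Sx := by
          rw [← mul_assoc, ← mul_assoc]
          congr 1
          rw [bxv, ← ENNReal.ofReal_pow (by positivity), ← ENNReal.ofReal_inv_of_pos hc',
            ← ENNReal.ofReal_mul (by positivity), ← ENNReal.ofReal_mul (by positivity),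
            ← ENNReal.ofReal_mul (by positivity)]
          congr 1
          rw [hC0, ha, hb]
          have e4 : (2 * ((4 * R + 2) * δ)) ^ k = (2 * (4 * R + 2)) ^ k * δ ^ k := by
            rw [← mul_pow]; congr 1; ring
          rw [e4, pow_add δ k 2]
          field_simp
  have hPsi : Sx ^ (k + 3) ≤ Hs (Psi R δ F) e := by
    unfold Hs
    rw [indicator_of_mem (show e ∈ {x : Eu k | yy x ≠ 0} from hy)]
    unfold Psi
    rw [indicator_of_mem (show (‖yy e‖⁻¹ • rest e, (Complex.arg (yy e), (2 * ‖yy e‖)⁻¹ * e 2)).1 ∈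
      {v : Fin k → ℝ | ∀ i, |v i| ≤ R} from hTan.vR)]
    refine le_trans ?_ (ENNReal.le_tsum T)
    exact le_iSup (fun u : ℚ => SS (Ga a b 5 T (gg F) v) δ φ m u ^ (k + 3)) u
  calc ((ENNReal.ofReal δ ^ (k + 2))⁻¹ * ∫⁻ x in tub δ e c, F x) ^ (k + 3)
      ≤ (ENNReal.ofReal C0 * Sx) ^ (k + 3) := by gcongr
    _ = ENNReal.ofReal (C0 ^ (k + 3)) * Sx ^ (k + 3) := by
        rw [mul_pow, ENNReal.ofReal_pow hC0']
    _ ≤ _ := by gcongr

theorem poly_le_exp (q : ℕ) {ε : ℝ} (hε : 0 < ε) : ∃ A : ℝ, 0 < A ∧ ∀ i : ℕ,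
    ((i:ℝ) + 1) ^ q ≤ A * ((2:ℝ) ^ (i + 1)) ^ ε := by
  have hl2 : 0 < Real.log 2 := Real.log_pos (by norm_num)
  set t : ℝ := ε * Real.log 2 / (q + 1) with ht
  have ht0 : 0 < t := by positivity
  refine ⟨(1 / t) ^ q, by positivity, fun i => ?_⟩
  set x : ℝ := (i : ℝ) + 1 with hx
  have hx0 : 0 < x := by positivity
  have hDx : (2:ℝ) ^ (i + 1) = Real.exp (x * Real.log 2) := by
    rw [← Real.rpow_natCast, Real.rpow_def_of_pos (by norm_num)]
    congr 1
    push_cast
    rw [hx]; ring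
  have h2 : x ≤ (1 / t) * Real.exp (t * x) := by
    rw [one_div_mul_eq_div, le_div_iff₀ ht0]
    have := Real.add_one_le_exp (t * x)
    linarith
  calc x ^ q ≤ ((1 / t) * Real.exp (t * x)) ^ q := by gcongr
    _ = (1 / t) ^ q * Real.exp (t * x * q) := by
      rw [mul_pow, ← Real.exp_nat_mul]
      congr 2
      ring
    _ ≤ (1 / t) ^ q * ((2:ℝ) ^ (i + 1)) ^ ε := by
      gcongr
      rw [hDx, ← Real.exp_mul]
      apply Real.exp_le_exp.2
      have h3 : t * q ≤ ε * Real.log 2 := by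
        rw [ht, div_mul_eq_mul_div, div_le_iff₀ (by positivity)]
        have : 0 ≤ ε * Real.log 2 := by positivity
        nlinarith
      nlinarith

/-- The point `P` of the paraboloid and the direction `e` form a tangent pair. -/
structure Pair (R : ℝ) (P e : Eu k) : Prop where
  P2 : P 2 = P 0 ^ 2 + P 1 ^ 2
  PR : P 0 ^ 2 + P 1 ^ 2 ≤ R ^ 2
  Ps : ∀ i : Fin (k + 3), 2 < i → P i = 0
  e2 : e 2 = 2 * (P 0 * e 0 + P 1 * e 1)
  es : ∀ i : Fin (k + 3), 2 < i → |e i| ≤ R * √(e 0 ^ 2 + e 1 ^ 2)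

theorem maxHyp {R : ℝ} (hR : 0 ≤ R) {S : Set (Metric.sphere (0 : Eu k) 1)}
    {a : Metric.sphere (0 : Eu k) 1 → Eu k} (ha : ∀ e ∈ S, Pair R (a e) (e : Eu k)) :
    Pool.Agent.Y245.Tr.MaxHyp (k + 2) (k + 3) 0 S a := by
  intro ε hε
  obtain ⟨A0, hA0, hpoly⟩ := poly_le_exp (k + 2) hε
  set C0 : ℝ := (2 * (4 * R + 6) ^ 2 * (2 * (4 * R + 2)) ^ k * Real.exp (25 * π)) ^ (k + 3) with hC0
  set C1 : ℝ := 2 * ((k : ℝ) + 3) * (7 ^ (k + 1) * (3 * ((4 * π * 5 + 2) * (11 *
        (3 * (1 + R) ^ k))))) with hC1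
  have hC0' : 0 < C0 := by rw [hC0]; positivity
  have hC1' : 0 < C1 := by rw [hC1]; positivity
  refine ⟨C0 * C1 * 2 ^ (k + 2) * A0, by positivity, ?_⟩
  intro j F hF
  set δ : ℝ := (1 / 2) ^ (j + 1) with hδ
  have hδ0 : 0 < δ := by positivity
  have hδ1 : δ ≤ 1 := pow_le_one₀ (by norm_num) (by norm_num)
  set f : Eu k → ℝ≥0∞ := F.indicator (fun _ => 1) with hf
  have hfm : Measurable f := measurable_const.indicator hF
  refine ⟨fun e => ENNReal.ofReal C0 * Hs (Psi R δ f) e, ?_, ?_, ?_⟩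
  · exact ((Hs_meas (Psi_meas R δ hfm)).comp measurable_subtype_coe).const_mul _
  · intro e he t
    have hP := ha e he
    have he1 : ‖(e : Eu k)‖ = 1 := by simp
    have hee : (inner ℝ (e : Eu k) (e : Eu k) : ℝ) = 1 := by
      rw [real_inner_self_eq_norm_sq, he1]; norm_num
    have hAdm : Adm R δ (e : Eu k) (a e + t • (e : Eu k)) (a e) := by
      refine ⟨hP.P2, hP.PR, hP.Ps, hP.e2, hP.es, ?_⟩
      have : a e + t • (e : Eu k) - a e = t • (e : Eu k) := by abel
      rw [this, inner_smul_left, hee]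
      simp [hδ0.le]
    have h1 := avg_le0 hR hδ0 hδ1 he1 hAdm hfm
    refine le_trans (le_of_eq ?_) h1
    unfold Pool.Agent.Y245.Tr.av
    congr 2
    rw [hf, lintegral_indicator_const hF, one_mul, Measure.restrict_apply hF]
    rfl
  · rw [lintegral_const_mul' _ _ ENNReal.ofReal_ne_top]
    have h1 := Psi_int (k := k) hR hδ0 hδ1 hfm
    have h2 : ∫⁻ x, f x ^ (k + 3) = volume F := by
      have : ∀ x, f x ^ (k + 3) = F.indicator (fun _ => (1 : ℝ≥0∞)) x := by
        intro x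
        rw [hf]
        by_cases hx : x ∈ F
        · rw [indicator_of_mem hx, one_pow]
        · rw [indicator_of_notMem hx, zero_pow (by omega)]
      simp only [this]
      rw [lintegral_indicator_const hF, one_mul]
    rw [h2, ← hC1] at h1
    have hlog : 1 + Real.log (1 / δ) ≤ 2 * ((j : ℝ) + 1) := by
      have e1 : 1 / δ = 2 ^ (j + 1) := by
        rw [hδ, one_div, one_div, inv_pow, inv_inv]
      rw [e1, Real.log_pow]
      have h3 := Real.log_two_lt_d9
      have h4 : (0 : ℝ) ≤ j := Nat.cast_nonneg j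
      push_cast
      nlinarith
    have hlog0 : 0 ≤ 1 + Real.log (1 / δ) := by
      have : 0 ≤ Real.log (1 / δ) := by
        apply Real.log_nonneg
        rw [le_div_iff₀ hδ0]
        linarith
      linarith
    calc ENNReal.ofReal C0 * ∫⁻ e : Metric.sphere (0 : Eu k) 1, Hs (Psi R δ f) e
          ∂(volume : Measure (Eu k)).toSphere
        ≤ ENNReal.ofReal C0 * (ENNReal.ofReal (C1 * (1 + Real.log (1 / δ)) ^ (k + 2)) *
            volume F) := by gcongr
      _ = ENNReal.ofReal (C0 * (C1 * (1 + Real.log (1 / δ)) ^ (k + 2))) * volume F := by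
          rw [← mul_assoc, ← ENNReal.ofReal_mul hC0'.le]
      _ ≤ _ := by
          refine mul_le_mul' (ENNReal.ofReal_le_ofReal ?_) le_rfl
          rw [zero_add]
          calc C0 * (C1 * (1 + Real.log (1 / δ)) ^ (k + 2))
              ≤ C0 * (C1 * (2 * ((j : ℝ) + 1)) ^ (k + 2)) := by gcongr
            _ = C0 * C1 * 2 ^ (k + 2) * ((j : ℝ) + 1) ^ (k + 2) := by
                rw [mul_pow]; ring
            _ ≤ C0 * C1 * 2 ^ (k + 2) * (A0 * ((2 : ℝ) ^ (j + 1)) ^ ε) := by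
                gcongr
                exact hpoly j
            _ = _ := by ring

/-- The dimension of a Kakeya set of tangent lines. -/
theorem dim_std {R : ℝ} (hR : 0 ≤ R) {S : Set (Metric.sphere (0 : Eu k) 1)}
    (hS : (volume : Measure (Eu k)).toSphere S ≠ 0) {K : Set (Eu k)}
    (hK : ∀ e ∈ S, ∃ P : Eu k, Pair R P (e : Eu k) ∧
      volume {t : ℝ | P + t • (e : Eu k) ∈ K} ≠ 0) :
    ((k + 3 : ℕ) : ℝ≥0∞) ≤ dimH K := by
  classical
  have hz : ∀ e : Metric.sphere (0 : Eu k) 1, ∃ P : Eu k, e ∈ S → Pair R P (e : Eu k) ∧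
      volume {t : ℝ | P + t • (e : Eu k) ∈ K} ≠ 0 := by
    intro e
    by_cases he : e ∈ S
    · obtain ⟨z, hz⟩ := hK e he
      exact ⟨z, fun _ => hz⟩
    · exact ⟨0, fun h => absurd h he⟩
  choose a ha using hz
  have h1 := maxHyp hR (S := S) (a := a) (fun e he => (ha e he).1)
  have h2 := Pool.Agent.Y245.Tr.dim_ge hS h1 (K := K) (fun e he => (ha e he).2)
  refine le_trans (le_of_eq ?_) h2
  rw [sub_zero, ← ENNReal.ofReal_natCast]
  congr 1
  push_cast
  ring

end Pool.Agent.N249.LR
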