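import Pool.Agent.N249.LR.Sph

set_option autoImplicit false

/-!
Tubes tangent to a paraboloid: the maximal estimate.
-/

open MeasureTheory Set ENNReal Real

namespace Pool.Agent.N249.LR

variable {k : ℕ}

/-- Admissible tubes: centre `c`, direction `e`, tangent point `P`. -/
structure Adm (R δ : ℝ) (e c P : Eu k) : Prop where
  P2 : P 2 = P 0 ^ 2 + P 1 ^ 2
  PR : P 0 ^ 2 + P 1 ^ 2 ≤ R ^ 2
  Ps : ∀ i : Fin (k + 3), 2 < i → P i = 0
  e2 : e 2 = 2 * (P 0 * e 0 + P 1 * e 1)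
  es : ∀ i : Fin (k + 3), 2 < i → |e i| ≤ R * √(e 0 ^ 2 + e 1 ^ 2)
  cP : ‖(c - P) - (inner ℝ (c - P) e : ℝ) • e‖ ≤ δ

/-- The majorant. -/
noncomputable def Psi (R δ : ℝ) (F : Eu k → ℝ≥0∞) (q : (Fin k → ℝ) × (ℝ × ℝ)) : ℝ≥0∞ :=
  {v : Fin k → ℝ | ∀ i, |v i| ≤ R}.indicator (fun v => ∑' T : ℤ, ⨆ u : ℚ,
    SS (Ga ((4 * R + 6) ^ 2 * δ) ((4 * R + 2) * δ) 5 T (gg F) v) δ q.2.1 q.2.2 u ^ (k + 3)) q.1

theorem Vset_meas (R : ℝ) : MeasurableSet {v : Fin k → ℝ | ∀ i, |v i| ≤ R} := by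
  have : {v : Fin k → ℝ | ∀ i, |v i| ≤ R} = Set.pi univ (fun _ => Icc (-R) R) := by
    ext v
    simp only [mem_ofPred_eq, mem_pi, mem_univ, forall_true_left, mem_Icc, abs_le]
  rw [this]
  exact MeasurableSet.univ_pi fun i => measurableSet_Icc

theorem Psi_meas (R δ : ℝ) {F : Eu k → ℝ≥0∞} (hF : Measurable F) : Measurable (Psi R δ F) := by
  have e : Psi R δ F = ((fun q : (Fin k → ℝ) × (ℝ × ℝ) => q.1) ⁻¹'
      {v : Fin k → ℝ | ∀ i, |v i| ≤ R}).indicator (fun q => ∑' T : ℤ, ⨆ u : ℚ,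
      SS (Ga ((4 * R + 6) ^ 2 * δ) ((4 * R + 2) * δ) 5 T (gg F) q.1) δ q.2.1 q.2.2 u ^ (k + 3)) := by
    funext q
    rfl
  rw [e]
  apply Measurable.indicator
  · apply Measurable.tsum
    intro T
    exact Measurable.iSup fun u => (SSG_meas (gg_meas hF) (u : ℝ)).pow_const _
  · exact (Vset_meas R).preimage measurable_fst

/-- The pointwise bound. -/
theorem avg_le {R δ c0 : ℝ} (hR : 0 ≤ R) (hδ : 0 < δ) (hδ1 : δ ≤ 1) {e c P : Eu k} (he : ‖e‖ = 1)
    (h : Adm R δ e c P) {F : Eu k → ℝ≥0∞} (hF : Measurable F) (hc0 : 0 < c0)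
    (hvol : ENNReal.ofReal (c0 * δ ^ (k + 2)) ≤ volume (tub δ e c)) :
    ((volume (tub δ e c))⁻¹ * ∫⁻ x in tub δ e c, F x) ^ (k + 3) ≤
      ENNReal.ofReal ((2 * (4 * R + 6) ^ 2 * (2 * (4 * R + 2)) ^ k * Real.exp (25 * π) / c0) ^
        (k + 3)) * Hs (Psi R δ F) e := by
  set a : ℝ := (4 * R + 6) ^ 2 * δ with ha
  set b : ℝ := (4 * R + 2) * δ with hb
  have ha0 : 0 < a := by rw [ha]; positivity
  have hb0 : 0 < b := by rw [hb]; positivity
  have haR : (16 * R + 18) * δ ≤ a := by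
    rw [ha]
    apply mul_le_mul_of_nonneg_right _ hδ.le
    nlinarith
  have hy : yy e ≠ 0 := by
    intro hy0
    have h0 : e 0 = 0 := congrArg Complex.re hy0
    have h1 : e 1 = 0 := congrArg Complex.im hy0
    have h2 : e 2 = 0 := by rw [h.e2, h0, h1]; ring
    have h3 : ∀ i : Fin (k + 3), 2 < i → e i = 0 := by
      intro i hi
      have := h.es i hi
      rw [h0, h1] at this
      simp only [ne_eq, OfNat.ofNat_ne_zero, not_false_eq_true, zero_pow, add_zero,
        Real.sqrt_zero, mul_zero] at this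
      exact abs_nonpos_iff.1 this
    have : e = 0 := by
      ext i
      refine Fin.cases ?_ (fun i => ?_) i
      · exact h0
      · refine Fin.cases ?_ (fun i => ?_) i
        · exact h1
        · refine Fin.cases ?_ (fun i => ?_) i
          · exact h2
          · apply h3
            rw [Fin.lt_def]
            change 2 < (i : ℕ) + 1 + 1 + 1
            omega
    rw [this, norm_zero] at he
    exact zero_ne_one he
  set lam : ℝ := ‖yy e‖ with hlam
  have hl0 : 0 < lam := norm_pos_iff.2 hy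
  set φ : ℝ := Complex.arg (yy e) with hφ
  have hcos : lam * Real.cos φ = e 0 := Complex.norm_mul_cos_arg (yy e)
  have hsin : lam * Real.sin φ = e 1 := Complex.norm_mul_sin_arg (yy e)
  have hl2 : lam ^ 2 = e 0 ^ 2 + e 1 ^ 2 := by
    have := Real.sin_sq_add_cos_sq φ
    rw [← hcos, ← hsin]
    have e3 : (lam * Real.cos φ) ^ 2 + (lam * Real.sin φ) ^ 2 =
        lam ^ 2 * (Real.sin φ ^ 2 + Real.cos φ ^ 2) := by ring
    rw [e3, this, mul_one]
  have hsq : √(e 0 ^ 2 + e 1 ^ 2) = lam := by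
    rw [← hl2, Real.sqrt_sq hl0.le]
  have hl1 : lam ≤ 1 := by
    have a1 : lam ^ 2 ≤ ‖e‖ ^ 2 := by
      rw [EuclideanSpace.norm_sq_eq, hl2, Fin.sum_univ_succ, Fin.sum_univ_succ]
      simp only [Real.norm_eq_abs, sq_abs]
      have a2 : 0 ≤ ∑ i : Fin (k + 1), (e.ofLp i.succ.succ) ^ 2 :=
        Finset.sum_nonneg fun i _ => sq_nonneg _
      have a4 : e 1 = e (Fin.succ 0) := rfl
      rw [a4]
      linarith
    rw [he, one_pow] at a1
    exact abs_le_of_sq_le_sq' (by linarith) zero_le_one |>.2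
  set v : Fin k → ℝ := lam⁻¹ • rest e with hv
  set m : ℝ := (2 * lam)⁻¹ * e 2 with hm
  set u0 : ℝ := P 1 * Real.cos φ - P 0 * Real.sin φ with hu0
  set t0 : ℝ := inner ℝ (c - P) e with ht0
  have hTan : Tan R δ φ lam m u0 t0 v e c P := by
    refine ⟨hR, hl0, hl1, hcos.symm, hsin.symm, h.e2, ?_, ?_, h.P2, ?_, h.PR, h.cP, ?_, rfl, rfl⟩
    · intro i
      rw [hv, Pi.smul_apply, smul_eq_mul, mul_inv_cancel_left₀ hl0.ne']
      rfl
    · intro i
      rw [hv, Pi.smul_apply, smul_eq_mul, abs_mul, abs_inv, abs_of_pos hl0, inv_mul_le_iff₀ hl0]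
      have h1 := h.es i.succ.succ.succ (by
        rw [Fin.lt_def]
        change 2 < (i : ℕ) + 1 + 1 + 1
        omega)
      rw [hsq] at h1
      rw [mul_comm]
      exact h1
    · intro i
      apply h.Ps
      rw [Fin.lt_def]
      change 2 < (i : ℕ) + 1 + 1 + 1
      omega
    · rw [hm, h.e2, ← hcos, ← hsin]
      field_simp
  obtain ⟨u, hu⟩ : ∃ u : ℚ, |(u : ℝ) - u0| ≤ δ := by
    obtain ⟨u, h1, h2⟩ := exists_rat_btwn (show u0 < u0 + δ by linarith)
    refine ⟨u, ?_⟩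
    rw [abs_le]
    constructor <;> linarith
  set T : ℤ := round (t0 * lam) with hT
  have hTr : |t0 * lam - T| ≤ 1 / 2 := abs_sub_round _
  have hmain := hTan.int hδ hδ1 ha0 hb0 haR le_rfl hTr hu hF
  set Sx : ℝ≥0∞ := SS (Ga a b 5 T (gg F) v) δ φ m u with hSx
  have hc' : 0 < c0 * δ ^ (k + 2) := by positivity
  set C0 : ℝ := 2 * (4 * R + 6) ^ 2 * (2 * (4 * R + 2)) ^ k * Real.exp (25 * π) / c0 with hC0
  have hC0' : 0 ≤ C0 := by rw [hC0]; positivity
  have havg : (volume (tub δ e c))⁻¹ * ∫⁻ x in tub δ e c, F x ≤ ENNReal.ofReal C0 * Sx := by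
    calc (volume (tub δ e c))⁻¹ * ∫⁻ x in tub δ e c, F x
        ≤ (ENNReal.ofReal (c0 * δ ^ (k + 2)))⁻¹ *
            (bxv k a b * (ENNReal.ofReal (δ * Real.exp (25 * π)) * Sx)) :=
          mul_le_mul' (ENNReal.inv_le_inv.2 hvol) hmain
      _ = ENNReal.ofReal C0 * Sx := by
          rw [← mul_assoc, ← mul_assoc]
          congr 1
          rw [bxv, ← ENNReal.ofReal_pow (by positivity), ← ENNReal.ofReal_inv_of_pos hc',
            ← ENNReal.ofReal_mul (by positivity), ← ENNReal.ofReal_mul (by positivity),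
            ← ENNReal.ofReal_mul (by positivity)]
          congr 1
          rw [hC0, ha, hb]
          have e4 : (2 * ((4 * R + 2) * δ)) ^ k = (2 * (4 * R + 2)) ^ k * δ ^ k := by
            rw [← mul_pow]; congr 1; ring
          rw [e4, pow_add δ k 2]
          field_simp
  have hPsi : Sx ^ (k + 3) ≤ Hs (Psi R δ F) e := by
    unfold Hs
    rw [indicator_of_mem (show e ∈ {x : Eu k | yy x ≠ 0} from hy)]
    unfold Psi
    rw [indicator_of_mem (show (‖yy e‖⁻¹ • rest e, (Complex.arg (yy e), (2 * ‖yy e‖)⁻¹ * e 2)).1 ∈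
      {v : Fin k → ℝ | ∀ i, |v i| ≤ R} from hTan.vR)]
    refine le_trans ?_ (ENNReal.le_tsum T)
    exact le_iSup (fun u : ℚ => SS (Ga a b 5 T (gg F) v) δ φ m u ^ (k + 3)) u
  calc ((volume (tub δ e c))⁻¹ * ∫⁻ x in tub δ e c, F x) ^ (k + 3)
      ≤ (ENNReal.ofReal C0 * Sx) ^ (k + 3) := by gcongr
    _ = ENNReal.ofReal (C0 ^ (k + 3)) * Sx ^ (k + 3) := by
        rw [mul_pow, ENNReal.ofReal_pow hC0']
    _ ≤ _ := by gcongr

/-- The integral of the majorant. -/
theorem Psi_int {R δ : ℝ} (hR : 0 ≤ R) (hδ : 0 < δ) (hδ1 : δ ≤ 1) {F : Eu k → ℝ≥0∞}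
    (hF : Measurable F) :
    ∫⁻ e : Metric.sphere (0 : Eu k) 1, Hs (Psi R δ F) e ∂(volume : Measure (Eu k)).toSphere ≤
      ENNReal.ofReal (2 * ((k : ℝ) + 3) * (7 ^ (k + 1) * (3 * ((4 * π * 5 + 2) * (11 *
        (3 * (1 + R) ^ k))))) * (1 + Real.log (1 / δ)) ^ (k + 2)) * ∫⁻ x, F x ^ (k + 3) := by
  set a : ℝ := (4 * R + 6) ^ 2 * δ with ha
  set b : ℝ := (4 * R + 2) * δ with hb
  have ha0 : 0 < a := by rw [ha]; positivity
  have hb0 : 0 < b := by rw [hb]; positivity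
  have hab : b ^ 2 ≤ a := by
    rw [ha, hb, mul_pow]
    have h1 : δ ^ 2 ≤ δ := by nlinarith
    have h2 : (4 * R + 2) ^ 2 ≤ (4 * R + 6) ^ 2 := by
      apply pow_le_pow_left₀ (by positivity)
      linarith
    exact mul_le_mul h2 h1 (by positivity) (by positivity)
  have hL0 : 0 ≤ Real.log (1 / δ) := by
    apply Real.log_nonneg
    rw [le_div_iff₀ hδ]
    linarith
  set V : Set (Fin k → ℝ) := {v : Fin k → ℝ | ∀ i, |v i| ≤ R} with hV
  have hVm : MeasurableSet V := Vset_meas R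
  have hPm := Psi_meas R δ hF
  set Θ : ℤ → (Fin k → ℝ) × (ℝ × ℝ) → ℝ≥0∞ := fun T q => ⨆ u : ℚ,
    SS (Ga a b 5 T (gg F) q.1) δ q.2.1 q.2.2 u ^ (k + 3) with hΘ
  have hΘm : ∀ T, Measurable (Θ T) := fun T =>
    Measurable.iSup fun u => (SSG_meas (gg_meas hF) (u : ℝ)).pow_const _
  have hswap : ∫⁻ φ in Ioc (-π) π, ∫⁻ m, ∫⁻ v, Psi R δ F (v, (φ, m)) =
      ∑' T : ℤ, ∫⁻ v in V, ∫⁻ φ in Ioc (-π) π, ∫⁻ m, Θ T (v, (φ, m)) := by
    have h1 : ∀ φ, ∫⁻ m, ∫⁻ v, Psi R δ F (v, (φ, m)) = ∫⁻ v, ∫⁻ m, Psi R δ F (v, (φ, m)) := by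
      intro φ
      apply lintegral_lintegral_swap
      exact (hPm.comp (g := Psi R δ F) (f := fun q : ℝ × (Fin k → ℝ) => (q.2, (φ, q.1)))
        (by fun_prop)).aemeasurable
    simp only [h1]
    rw [lintegral_lintegral_swap (μ := volume.restrict (Ioc (-π) π))]
    · rw [← lintegral_tsum]
      · rw [← lintegral_indicator hVm]
        apply lintegral_congr
        intro v
        by_cases hv : v ∈ V
        · rw [indicator_of_mem hv]
          have h2 : ∀ φ m, Psi R δ F (v, (φ, m)) = ∑' T : ℤ, Θ T (v, (φ, m)) := by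
            intro φ m
            unfold Psi
            rw [indicator_of_mem (show (v, (φ, m)).1 ∈ {v : Fin k → ℝ | ∀ i, |v i| ≤ R} from hv)]
          simp only [h2]
          rw [← lintegral_tsum]
          · apply lintegral_congr
            intro φ
            rw [lintegral_tsum]
            intro T
            exact ((hΘm T).comp (g := Θ T) (f := fun m : ℝ => (v, (φ, m)))
              (by fun_prop)).aemeasurable
          · intro T
            have h3 : Measurable (fun q : ℝ × ℝ => Θ T (v, q)) := (hΘm T).comp (by fun_prop)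
            exact h3.lintegral_prod_right'.aemeasurable
        · rw [indicator_of_notMem hv]
          have h2 : ∀ φ m, Psi R δ F (v, (φ, m)) = 0 := by
            intro φ m
            unfold Psi
            rw [indicator_of_notMem (show (v, (φ, m)).1 ∉ {v : Fin k → ℝ | ∀ i, |v i| ≤ R} from hv)]
          simp [h2]
      · intro T
        have h3 : Measurable (fun q : ((Fin k → ℝ) × ℝ) × ℝ => Θ T (q.1.1, (q.1.2, q.2))) :=
          (hΘm T).comp (by fun_prop)
        have h4 : Measurable (fun q : (Fin k → ℝ) × ℝ => ∫⁻ m, Θ T (q.1, (q.2, m))) :=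
          h3.lintegral_prod_right'
        exact h4.lintegral_prod_right'.aemeasurable
    · have h3 : Measurable (fun q : (ℝ × (Fin k → ℝ)) × ℝ =>
          Psi R δ F (q.1.2, (q.1.1, q.2))) := hPm.comp (by fun_prop)
      exact h3.lintegral_prod_right'.aemeasurable
  have hasm := assembled (k := k) (R := R) (S := 5) ha0 hb0 hab hR (by norm_num)
    (gg_meas hF) hδ hδ1
  have hgint : ∫⁻ y, ∫⁻ p, gg F y p ^ (k + 3) = ∫⁻ x, F x ^ (k + 3) :=
    gg_int (F := fun x => F x ^ (k + 3)) (hF.pow_const _)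
  rw [hgint] at hasm
  have hlogb : 2 + 2 * Real.log ((b + 3 * 5) / b) ≤ 7 * (1 + Real.log (1 / δ)) := by
    have h1 : (b + 3 * 5) / b ≤ (17 / 2) * (1 / δ) := by
      rw [div_le_iff₀ hb0, hb]
      have h2 : 17 / 2 * (1 / δ) * ((4 * R + 2) * δ) = 17 / 2 * (4 * R + 2) := by
        field_simp
      rw [h2]
      have h3 : (4 * R + 2) * δ ≤ 4 * R + 2 := by
        have : 0 ≤ 4 * R + 2 := by positivity
        nlinarith
      linarith
    have h2 : Real.log ((b + 3 * 5) / b) ≤ Real.log ((17 / 2) * (1 / δ)) :=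
      Real.log_le_log (by positivity) h1
    rw [Real.log_mul (by norm_num) (by positivity)] at h2
    have h3 : Real.log (17 / 2) ≤ 5 / 2 := by
      rw [Real.log_le_iff_le_exp (by norm_num)]
      have h4 := Real.add_one_le_exp (1 : ℝ)
      have h5 : Real.exp (5 / 2) = Real.exp 1 * Real.exp 1 * Real.exp (1 / 2) := by
        rw [← Real.exp_add, ← Real.exp_add]
        norm_num
      have h6 := Real.exp_one_gt_d9
      have h7 := Real.add_one_le_exp (1 / 2 : ℝ)
      rw [h5]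
      have h8 : 2.7 * 2.7 ≤ Real.exp 1 * Real.exp 1 := by nlinarith
      have h9 : (1.5 : ℝ) ≤ Real.exp (1 / 2) := by linarith
      nlinarith
    linarith
  have hLL : LL δ ≤ ENNReal.ofReal (3 * (1 + Real.log (1 / δ))) :=
    (LL_le hδ hδ1).trans (ENNReal.ofReal_le_ofReal (by linarith))
  have hΛ : ENNReal.ofReal (2 + 2 * Real.log ((b + 3 * 5) / b)) ^ (k + 1) ≤
      ENNReal.ofReal ((7 * (1 + Real.log (1 / δ))) ^ (k + 1)) := by
    rw [ENNReal.ofReal_pow (by positivity)]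
    gcongr
  calc ∫⁻ e : Metric.sphere (0 : Eu k) 1, Hs (Psi R δ F) e ∂(volume : Measure (Eu k)).toSphere
      ≤ (2 * ((k : ℝ≥0∞) + 3)) * ∫⁻ φ in Ioc (-π) π, ∫⁻ m, ∫⁻ v, Psi R δ F (v, (φ, m)) :=
        sphere_le hPm
    _ ≤ (2 * ((k : ℝ≥0∞) + 3)) * (ENNReal.ofReal ((7 * (1 + Real.log (1 / δ))) ^ (k + 1)) *
        (ENNReal.ofReal (3 * (1 + Real.log (1 / δ))) * (ENNReal.ofReal (4 * π * 5 + 2) *
          (ENNReal.ofReal (2 * 5 + 1) * (ENNReal.ofReal (3 * (1 + R) ^ k) *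
            ∫⁻ x, F x ^ (k + 3)))))) := by
        rw [hswap]
        gcongr
        refine hasm.trans ?_
        gcongr
    _ = _ := by
        have e5 : (2 * ((k : ℝ≥0∞) + 3)) = ENNReal.ofReal (2 * ((k : ℝ) + 3)) := by
          rw [ENNReal.ofReal_mul (by norm_num), ENNReal.ofReal_add (by positivity) (by norm_num)]
          simp
        rw [e5]
        simp only [← mul_assoc]
        congr 1
        rw [← ENNReal.ofReal_mul (by positivity), ← ENNReal.ofReal_mul (by positivity),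
          ← ENNReal.ofReal_mul (by positivity), ← ENNReal.ofReal_mul (by positivity),
          ← ENNReal.ofReal_mul (by positivity)]
        congr 1
        rw [mul_pow]
        ring

end Pool.Agent.N249.LR
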