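import Pool.Agent.N249.LR.Circ

set_option autoImplicit false

/-!
Averages over light rays: the Fourier transforms.
-/

open MeasureTheory Set ENNReal Real Complex FourierTransform

namespace Pool.Agent.N249.LR

/-- Bounded measurable functions of `(r, y)` with bounded support. -/
structure Nice (G : ℝ → ℂ → ℂ) (K R N : ℝ) : Prop where
  meas : Measurable (Function.uncurry G)
  bd : ∀ r y, ‖G r y‖ ≤ K
  supp_r : ∀ r y, R < |r| → G r y = 0
  supp_y : ∀ r y, N < ‖y‖ → G r y = 0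
  K0 : 0 ≤ K
  R0 : 0 ≤ R
  N0 : 0 ≤ N

variable {G : ℝ → ℂ → ℂ} {K R N : ℝ}

theorem bdd_integrable {V : Type*} [MeasurableSpace V] {μ : Measure V} {f : V → ℂ}
    (hf : Measurable f) (hK : ∀ x, ‖f x‖ ≤ K) {S : Set V} (hS : μ S ≠ ∞) (hSm : MeasurableSet S)
    (h0 : ∀ x, x ∉ S → f x = 0) : Integrable f μ ∧ MemLp f 2 μ := by
  have e : f = S.indicator f := by
    funext x
    by_cases hx : x ∈ S
    · rw [indicator_of_mem hx]
    · rw [indicator_of_notMem hx, h0 x hx]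
  have hfin : IsFiniteMeasure (μ.restrict S) := ⟨by
    rw [Measure.restrict_apply_univ]; exact lt_top_iff_ne_top.2 hS⟩
  constructor
  · rw [e, integrable_indicator_iff hSm]
    exact Integrable.of_bound (μ := μ.restrict S) hf.aestronglyMeasurable K (by
      filter_upwards with x using hK x)
  · rw [e, memLp_indicator_iff_restrict hSm]
    exact MemLp.of_bound (μ := μ.restrict S) hf.aestronglyMeasurable K (by
      filter_upwards with x using hK x)

theorem echar_cont : Continuous (fun x : ℝ => ((𝐞 x : Circle) : ℂ)) := by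
  simp only [Real.fourierChar_apply]
  fun_prop

theorem Nice.int_y (h : Nice G K R N) (r : ℝ) : Integrable (G r) ∧ MemLp (G r) 2 := by
  have hm : Measurable (G r) := h.meas.comp measurable_prodMk_left
  refine bdd_integrable hm (h.bd r) (S := Metric.closedBall (0 : ℂ) N)
    measure_closedBall_lt_top.ne measurableSet_closedBall ?_
  intro y hy
  apply h.supp_y
  simpa using hy

/-- The Fourier transform in `y`. -/
noncomputable def hat (G : ℝ → ℂ → ℂ) (r : ℝ) (ξ : ℂ) : ℂ := 𝓕 (G r) ξ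

theorem hat_eq (r : ℝ) (ξ : ℂ) : hat G r ξ = ∫ y, 𝐞 (-(inner ℝ y ξ)) • G r y := rfl

theorem hat_def (r : ℝ) (ξ : ℂ) : hat G r ξ = 𝓕 (G r) ξ := rfl

attribute [irreducible] hat

theorem Nice.hat_meas (h : Nice G K R N) : Measurable (Function.uncurry (hat G)) := by
  have h1 : StronglyMeasurable (fun p : (ℝ × ℂ) × ℂ => 𝐞 (-(inner ℝ p.2 p.1.2)) • G p.1.1 p.2) := by
    apply Measurable.stronglyMeasurable
    have a1 : Measurable (fun p : (ℝ × ℂ) × ℂ => ((𝐞 (-(inner ℝ p.2 p.1.2)) : Circle) : ℂ)) := by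
      apply echar_cont.measurable.comp
      apply Measurable.neg
      exact (continuous_inner.comp (continuous_snd.prodMk
        (continuous_snd.comp continuous_fst))).measurable
    have a2 : Measurable (fun p : (ℝ × ℂ) × ℂ => G p.1.1 p.2) := by
      exact h.meas.comp ((measurable_fst.comp measurable_fst).prodMk measurable_snd)
    have a3 : (fun p : (ℝ × ℂ) × ℂ => 𝐞 (-(inner ℝ p.2 p.1.2)) • G p.1.1 p.2) =
        fun p => ((𝐞 (-(inner ℝ p.2 p.1.2)) : Circle) : ℂ) * G p.1.1 p.2 := by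
      funext p
      rfl
    rw [a3]
    exact a1.mul a2
  have h2 := (h1.integral_prod_right' (ν := (volume : Measure ℂ))).measurable
  have e : Function.uncurry (hat G) = fun p : ℝ × ℂ => ∫ y, 𝐞 (-(inner ℝ y p.2)) • G p.1 y := by
    funext p
    exact hat_eq p.1 p.2
  rw [e]
  exact h2

theorem Nice.hat_bd (h : Nice G K R N) (r : ℝ) (ξ : ℂ) :
    ‖hat G r ξ‖ ≤ K * volume.real (Metric.closedBall (0 : ℂ) N) := by
  have h0 : ‖hat G r ξ‖ ≤ ∫ y, ‖G r y‖ := by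
    rw [hat_eq]
    refine (norm_integral_le_integral_norm _).trans (le_of_eq ?_)
    apply integral_congr_ae
    filter_upwards with y
    exact Circle.norm_smul _ _
  refine h0.trans ?_
  have e : (fun y => ‖G r y‖) = (Metric.closedBall (0 : ℂ) N).indicator (fun y => ‖G r y‖) := by
    funext y
    by_cases hy : y ∈ Metric.closedBall (0 : ℂ) N
    · rw [indicator_of_mem hy]
    · rw [indicator_of_notMem hy, h.supp_y r y (by simpa using hy), norm_zero]
  rw [e, integral_indicator measurableSet_closedBall]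
  have h1 : ‖∫ y in Metric.closedBall (0 : ℂ) N, ‖G r y‖‖ ≤
      K * volume.real (Metric.closedBall (0 : ℂ) N) := by
    apply norm_setIntegral_le_of_norm_le_const measure_closedBall_lt_top
    intro y _
    rw [Real.norm_of_nonneg (norm_nonneg _)]
    exact h.bd r y
  exact (Real.le_norm_self _).trans h1

theorem Nice.hat_supp (h : Nice G K R N) {r : ℝ} (hr : R < |r|) (ξ : ℂ) : hat G r ξ = 0 := by
  rw [hat_eq]
  simp [h.supp_r r _ hr]

theorem Nice.hat_int (h : Nice G K R N) (ξ : ℂ) :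
    Integrable (fun r => hat G r ξ) ∧ MemLp (fun r => hat G r ξ) 2 := by
  have hm : Measurable (fun r => hat G r ξ) := h.hat_meas.comp measurable_prodMk_right
  refine bdd_integrable hm (fun r => h.hat_bd r ξ) (S := Icc (-R) R) (by simp) measurableSet_Icc ?_
  intro r hr
  apply h.hat_supp
  rw [mem_Icc, ← abs_le] at hr
  exact not_le.1 hr

/-- The oscillatory integral. -/
noncomputable def BB (G : ℝ → ℂ → ℂ) (ξ : ℂ) (t : ℝ) : ℂ := 𝓕 (fun r => hat G r ξ) (-t)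

theorem BB_eq (ξ : ℂ) (t : ℝ) : BB G ξ t = ∫ r, 𝐞 (r * t) • hat G r ξ := by
  unfold BB
  rw [Real.fourier_real_eq]
  congr 1
  funext r
  congr 2
  ring

theorem BB_def (ξ : ℂ) (t : ℝ) : BB G ξ t = 𝓕 (fun r => hat G r ξ) (-t) := rfl

attribute [irreducible] BB

theorem Nice.BB_meas (h : Nice G K R N) : Measurable (Function.uncurry (BB G)) := by
  have h1 : StronglyMeasurable (fun p : (ℂ × ℝ) × ℝ => 𝐞 (p.2 * p.1.2) • hat G p.2 p.1.1) := by
    apply Measurable.stronglyMeasurable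
    have a1 : Measurable (fun p : (ℂ × ℝ) × ℝ => ((𝐞 (p.2 * p.1.2) : Circle) : ℂ)) := by
      apply echar_cont.measurable.comp
      fun_prop
    have a2 : Measurable (fun p : (ℂ × ℝ) × ℝ => hat G p.2 p.1.1) := by
      exact h.hat_meas.comp (measurable_snd.prodMk (measurable_fst.comp measurable_fst))
    have a3 : (fun p : (ℂ × ℝ) × ℝ => 𝐞 (p.2 * p.1.2) • hat G p.2 p.1.1) =
        fun p => ((𝐞 (p.2 * p.1.2) : Circle) : ℂ) * hat G p.2 p.1.1 := by
      funext p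
      rfl
    rw [a3]
    exact a1.mul a2
  have h2 := h1.integral_prod_right' (ν := (volume : Measure ℝ))
  have e : Function.uncurry (BB G) = fun p : ℂ × ℝ => ∫ r, 𝐞 (r * p.2) • hat G r p.1 := by
    funext p
    exact BB_eq p.1 p.2
  rw [e]
  exact h2.measurable

/-- Plancherel in `r`. -/
theorem Nice.BB_planch (h : Nice G K R N) (ξ : ℂ) :
    ∫⁻ t, ‖BB G ξ t‖ₑ ^ 2 = ∫⁻ r, ‖hat G r ξ‖ₑ ^ 2 := by
  rw [← Pool.Agent.H153R4.plancherel _ (h.hat_int ξ).1 (h.hat_int ξ).2]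
  simp only [BB_def]
  exact (Measure.measurePreserving_neg (volume : Measure ℝ)).lintegral_comp_emb
    (Homeomorph.neg ℝ).measurableEmbedding (fun t => ‖𝓕 (fun r => hat G r ξ) t‖ₑ ^ 2)

/-- The trivial bound. -/
theorem Nice.BB_triv (h : Nice G K R N) (ξ : ℂ) (t : ℝ) :
    ‖BB G ξ t‖ₑ ^ 2 ≤ ENNReal.ofReal (2 * R) * ∫⁻ r, ‖hat G r ξ‖ₑ ^ 2 := by
  have hm : Measurable (fun r => ‖hat G r ξ‖ₑ) :=
    (h.hat_meas.comp measurable_prodMk_right).enorm
  have h1 : ‖BB G ξ t‖ₑ ≤ ∫⁻ r in Icc (-R) R, ‖hat G r ξ‖ₑ := by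
    rw [BB_eq]
    refine (enorm_integral_le_lintegral_enorm _).trans (le_of_eq ?_)
    rw [← lintegral_indicator measurableSet_Icc]
    apply lintegral_congr
    intro r
    have e : ‖𝐞 (r * t) • hat G r ξ‖ₑ = ‖hat G r ξ‖ₑ := by
      rw [← ofReal_norm, Circle.norm_smul, ofReal_norm]
    rw [e]
    by_cases hr : r ∈ Icc (-R) R
    · rw [indicator_of_mem hr]
    · rw [indicator_of_notMem hr]
      rw [mem_Icc, ← abs_le] at hr
      rw [h.hat_supp (not_le.1 hr)]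
      simp
  have h2 := ENNReal.lintegral_mul_le_Lp_mul_Lq (volume.restrict (Icc (-R) R))
    (Real.HolderConjugate.two_two) (f := fun _ => (1 : ℝ≥0∞)) (g := fun r => ‖hat G r ξ‖ₑ)
    aemeasurable_const hm.aemeasurable
  have e0 : (fun r => (1 : ℝ≥0∞)) * (fun r => ‖hat G r ξ‖ₑ) = fun r => ‖hat G r ξ‖ₑ := by
    funext r
    simp
  rw [e0] at h2
  have h3 : ‖BB G ξ t‖ₑ ^ 2 ≤ ((∫⁻ _ in Icc (-R) R, (1 : ℝ≥0∞) ^ (2 : ℝ)) ^ (1 / (2 : ℝ)) *
      (∫⁻ r in Icc (-R) R, ‖hat G r ξ‖ₑ ^ (2 : ℝ)) ^ (1 / (2 : ℝ))) ^ 2 := by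
    gcongr
    exact h1.trans h2
  refine h3.trans ?_
  have e4 : ∀ x : ℝ≥0∞, (x ^ (1 / (2 : ℝ))) ^ 2 = x := by
    intro x
    rw [← ENNReal.rpow_natCast, ← ENNReal.rpow_mul]
    norm_num
  have e5 : (∫⁻ _ in Icc (-R) R, (1 : ℝ≥0∞) ^ (2 : ℝ)) = ENNReal.ofReal (2 * R) := by
    simp only [ENNReal.one_rpow, lintegral_one, Measure.restrict_apply_univ, Real.volume_Icc]
    congr 1
    ring
  rw [mul_pow, e4, e4, e5]
  refine mul_le_mul_right ?_ _
  refine (setLIntegral_le_lintegral _ _).trans (le_of_eq ?_)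
  apply lintegral_congr
  intro r
  exact_mod_cast ENNReal.rpow_natCast _ 2

/-- The estimate on the circle, for one frequency. -/
theorem Nice.circle (h : Nice G K R N) {ξ : ℂ} (hξ : ξ ≠ 0) :
    ∫⁻ φ in Ioc (-π) π, (1 + ENNReal.ofReal |cy ξ φ|) * ‖BB G ξ (cx ξ φ)‖ₑ ^ 2 ≤
      ENNReal.ofReal (4 * π * R + 2) * ∫⁻ r, ‖hat G r ξ‖ₑ ^ 2 := by
  have hBm : Measurable (fun t => ‖BB G ξ t‖ₑ ^ 2) :=
    (h.BB_meas.comp measurable_prodMk_left).enorm.pow_const _
  have hcx : Measurable (cx ξ) := by unfold cx; fun_prop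
  set X : ℝ≥0∞ := ∫⁻ r, ‖hat G r ξ‖ₑ ^ 2 with hX
  calc ∫⁻ φ in Ioc (-π) π, (1 + ENNReal.ofReal |cy ξ φ|) * ‖BB G ξ (cx ξ φ)‖ₑ ^ 2
      = (∫⁻ φ in Ioc (-π) π, ‖BB G ξ (cx ξ φ)‖ₑ ^ 2) +
        ∫⁻ φ in Ioc (-π) π, ENNReal.ofReal |cy ξ φ| * ‖BB G ξ (cx ξ φ)‖ₑ ^ 2 := by
        rw [← lintegral_add_left (show Measurable fun φ => ‖BB G ξ (cx ξ φ)‖ₑ ^ 2 from hBm.comp hcx)]
        apply lintegral_congr
        intro φ
        ring
    _ ≤ (∫⁻ _ in Ioc (-π) π, ENNReal.ofReal (2 * R) * X) + 2 * ∫⁻ t, ‖BB G ξ t‖ₑ ^ 2 := by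
        gcongr with φ
        · exact h.BB_triv ξ _
        · exact circle_le hξ hBm
    _ = ENNReal.ofReal (2 * R) * X * ENNReal.ofReal (2 * π) + 2 * X := by
        rw [setLIntegral_const, Real.volume_Ioc, h.BB_planch]
        congr 3
        ring
    _ = (ENNReal.ofReal (2 * R) * ENNReal.ofReal (2 * π) + 2) * X := by ring
    _ = _ := by
        have hR := h.R0
        rw [← ENNReal.ofReal_mul (by positivity)]
        congr 1
        rw [ENNReal.ofReal_add (by positivity) (by norm_num)]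
        congr 1
        · congr 1; ring
        · simp

/-- The estimate on the circle, for all frequencies. -/
theorem Nice.main_freq (h : Nice G K R N) :
    ∫⁻ φ in Ioc (-π) π, ∫⁻ ξ : ℂ, (1 + ENNReal.ofReal |cy ξ φ|) * ‖BB G ξ (cx ξ φ)‖ₑ ^ 2 ≤
      ENNReal.ofReal (4 * π * R + 2) * ∫⁻ r, ∫⁻ y, ‖G r y‖ₑ ^ 2 := by
  have hcy : Measurable (fun p : ℝ × ℂ => cy p.2 p.1) := by unfold cy; fun_prop
  have hcx : Measurable (fun p : ℝ × ℂ => cx p.2 p.1) := by unfold cx; fun_prop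
  have hm : Measurable (fun p : ℝ × ℂ => (1 + ENNReal.ofReal |cy p.2 p.1|) *
      ‖BB G p.2 (cx p.2 p.1)‖ₑ ^ 2) := by
    have a1 : Measurable (fun p : ℝ × ℂ => (1 + ENNReal.ofReal |cy p.2 p.1|)) :=
      measurable_const.add (hcy.abs.ennreal_ofReal)
    exact a1.mul ((h.BB_meas.comp (measurable_snd.prodMk hcx)).enorm.pow_const _)
  calc ∫⁻ φ in Ioc (-π) π, ∫⁻ ξ : ℂ, (1 + ENNReal.ofReal |cy ξ φ|) * ‖BB G ξ (cx ξ φ)‖ₑ ^ 2
      = ∫⁻ ξ : ℂ, ∫⁻ φ in Ioc (-π) π, (1 + ENNReal.ofReal |cy ξ φ|) *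
          ‖BB G ξ (cx ξ φ)‖ₑ ^ 2 := by
        exact lintegral_lintegral_swap (μ := volume.restrict (Ioc (-π) π)) hm.aemeasurable
    _ ≤ ∫⁻ ξ : ℂ, ENNReal.ofReal (4 * π * R + 2) * ∫⁻ r, ‖hat G r ξ‖ₑ ^ 2 := by
        apply lintegral_mono_ae
        have h0 : ∀ᵐ ξ : ℂ, ξ ≠ 0 := by
          rw [ae_iff]
          simp
        filter_upwards [h0] with ξ hξ using h.circle hξ
    _ = ENNReal.ofReal (4 * π * R + 2) * ∫⁻ ξ : ℂ, ∫⁻ r, ‖hat G r ξ‖ₑ ^ 2 := by
        rw [lintegral_const_mul' _ _ ENNReal.ofReal_ne_top]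
    _ = ENNReal.ofReal (4 * π * R + 2) * ∫⁻ r, ∫⁻ ξ : ℂ, ‖hat G r ξ‖ₑ ^ 2 := by
        congr 1
        exact lintegral_lintegral_swap (f := fun (ξ : ℂ) (r : ℝ) => ‖hat G r ξ‖ₑ ^ 2)
          (((h.hat_meas.comp measurable_swap).enorm.pow_const _).aemeasurable)
    _ = _ := by
        congr 1
        apply lintegral_congr
        intro r
        simp only [hat_def]
        exact Pool.Agent.H153R4.plancherel _ (h.int_y r).1 (h.int_y r).2

end Pool.Agent.N249.LR
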