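import Pool.Agent.N249.LR.Ray

set_option autoImplicit false

/-!
Averages over light rays: Gaussian averages, and the logarithmic integrals.
-/

open MeasureTheory Set ENNReal Real Complex FourierTransform

namespace Pool.Agent.N249.LR

/-- The Gaussian of width `δ`. -/
noncomputable def gam (δ t : ℝ) : ℝ := δ⁻¹ * Real.exp (-(π / δ ^ 2) * t ^ 2)

theorem gam_pos {δ : ℝ} (hδ : 0 < δ) (t : ℝ) : 0 < gam δ t := by
  unfold gam
  positivity

theorem gam_neg (δ t : ℝ) : gam δ (-t) = gam δ t := by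
  unfold gam
  rw [neg_sq]

theorem gam_meas (δ : ℝ) : Measurable (gam δ) := by
  unfold gam
  fun_prop

theorem gam_integrable {δ : ℝ} (hδ : 0 < δ) : Integrable (gam δ) := by
  unfold gam
  exact (integrable_exp_neg_mul_sq (by positivity)).const_mul _

theorem gam_int {δ : ℝ} (hδ : 0 < δ) : ∫ t, gam δ t = 1 := by
  unfold gam
  rw [integral_const_mul, integral_gaussian]
  have : π / (π / δ ^ 2) = δ ^ 2 := by
    field_simp
  rw [this, Real.sqrt_sq hδ.le, inv_mul_cancel₀ hδ.ne']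

theorem gam_lint {δ : ℝ} (hδ : 0 < δ) : ∫⁻ t, ENNReal.ofReal (gam δ t) = 1 := by
  rw [← ofReal_integral_eq_lintegral_ofReal (gam_integrable hδ)
    (Filter.Eventually.of_forall fun t => (gam_pos hδ t).le), gam_int hδ, ENNReal.ofReal_one]

theorem gam_le {δ : ℝ} (hδ : 0 < δ) (t : ℝ) : gam δ t ≤ δ⁻¹ := by
  unfold gam
  have : Real.exp (-(π / δ ^ 2) * t ^ 2) ≤ 1 := by
    rw [Real.exp_le_one_iff]
    have : 0 ≤ π / δ ^ 2 * t ^ 2 := by positivity
    linarith
  have h0 : 0 < δ⁻¹ := by positivity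
  nlinarith

/-- The Fourier transform of `gam`. -/
noncomputable def EE (δ τ : ℝ) : ℝ := Real.exp (-(π * δ ^ 2) * τ ^ 2)

theorem EE_integrable {δ : ℝ} (hδ : 0 < δ) : Integrable (EE δ) := by
  unfold EE
  exact integrable_exp_neg_mul_sq (by positivity)

theorem gam_four {δ : ℝ} (hδ : 0 < δ) (t : ℝ) :
    ((gam δ t : ℝ) : ℂ) = ∫ τ : ℝ, ec (-(τ * t)) * ((EE δ τ : ℝ) : ℂ) := by
  have h := congrFun (fourier_gaussian_pi (b := ((δ ^ 2 : ℝ) : ℂ)) (by
    rw [Complex.ofReal_re]; positivity)) t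
  rw [Real.fourier_real_eq] at h
  have e1 : ∫ v : ℝ, 𝐞 (-(v * t)) • cexp (-π * ((δ ^ 2 : ℝ) : ℂ) * (v : ℂ) ^ 2) =
      ∫ τ : ℝ, ec (-(τ * t)) * ((EE δ τ : ℝ) : ℂ) := by
    apply integral_congr_ae
    filter_upwards with v
    rw [ec_smul, EE]
    congr 1
    push_cast
    congr 1
    ring
  rw [← e1, h, gam]
  have e2 : ((δ ^ 2 : ℝ) : ℂ) ^ (1 / 2 : ℂ) = (δ : ℂ) := by
    have : ((δ ^ 2 : ℝ) : ℂ) ^ ((1 / 2 : ℝ) : ℂ) = (((δ ^ 2 : ℝ) ^ (1 / 2 : ℝ) : ℝ) : ℂ) := by
      rw [Complex.ofReal_cpow (by positivity)]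
    have h2 : ((1 / 2 : ℝ) : ℂ) = (1 / 2 : ℂ) := by push_cast; rfl
    rw [h2] at this
    rw [this]
    congr 1
    rw [← Real.sqrt_eq_rpow, Real.sqrt_sq hδ.le]
  rw [e2]
  push_cast
  congr 1
  · rw [one_div]
  · congr 1
    ring

/-- Gaussian averages on the Fourier side. -/
theorem gam_conv {δ : ℝ} (hδ : 0 < δ) {g : ℝ → ℂ} (hg : Integrable g) (u : ℝ) :
    ∫ u', ((gam δ (u - u') : ℝ) : ℂ) * g u' =
      ∫ τ, ((EE δ τ : ℝ) : ℂ) * (ec (τ * u) * ∫ u', ec (-(u' * τ)) * g u') := by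
  have hE : Integrable (fun τ => ((EE δ τ : ℝ) : ℂ)) := (EE_integrable hδ).ofReal
  have e1 : ∫ u', ((gam δ (u - u') : ℝ) : ℂ) * g u' =
      ∫ u', ∫ τ, ec (-(τ * (u' - u))) * (g u' * ((EE δ τ : ℝ) : ℂ)) := by
    apply integral_congr_ae
    filter_upwards with u'
    have : gam δ (u - u') = gam δ (u' - u) := by
      rw [← gam_neg]; congr 1; ring
    rw [this, gam_four hδ, mul_comm, ← integral_const_mul]
    apply integral_congr_ae
    filter_upwards with τ
    ring
  have hint : Integrable (fun p : ℝ × ℝ => ec (-(p.2 * (p.1 - u))) *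
      (g p.1 * ((EE δ p.2 : ℝ) : ℂ))) (volume.prod volume) := by
    refine (hg.mul_prod hE).bdd_mul (c := 1) ?_ ?_
    · exact (ec_cont.comp (by fun_prop)).aestronglyMeasurable
    · filter_upwards with p
      rw [ec_norm]
  rw [e1, integral_integral_swap hint]
  apply integral_congr_ae
  filter_upwards with τ
  rw [← integral_const_mul, ← integral_const_mul]
  apply integral_congr_ae
  filter_upwards with u'
  have : ec (-(τ * (u' - u))) = ec (τ * u) * ec (-(u' * τ)) := by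
    rw [← ec_add]
    congr 1
    ring
  rw [this]
  ring

/-- The logarithmic constant. -/
noncomputable def LL (δ : ℝ) : ℝ≥0∞ :=
  ∫⁻ τ, (ENNReal.ofReal (EE δ τ)) ^ 2 / (1 + ENNReal.ofReal |τ|)

theorem EE_meas (δ : ℝ) : Measurable (EE δ) := by
  unfold EE
  fun_prop

/-- Cauchy-Schwarz on the Fourier side. -/
theorem gam_sup {δ : ℝ} (hδ : 0 < δ) {g : ℝ → ℂ} (hg : Integrable g) (hgm : Measurable g) (u : ℝ) :
    ‖∫ u', ((gam δ (u - u') : ℝ) : ℂ) * g u'‖ₑ ^ 2 ≤
      LL δ * ∫⁻ τ, (1 + ENNReal.ofReal |τ|) * ‖∫ u', ec (-(u' * τ)) * g u'‖ₑ ^ 2 := by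
  have hwm : Measurable (fun τ : ℝ => (1 + ENNReal.ofReal |τ|)) := by fun_prop
  have hTm : Measurable (fun τ : ℝ => ∫ u', ec (-(u' * τ)) * g u') := by
    have h1 : StronglyMeasurable (fun p : ℝ × ℝ => ec (-(p.2 * p.1)) * g p.2) := by
      apply Measurable.stronglyMeasurable
      apply Measurable.mul
      · apply ec_cont.measurable.comp
        fun_prop
      · exact hgm.comp measurable_snd
    exact (h1.integral_prod_right' (ν := (volume : Measure ℝ))).measurable
  set T : ℝ → ℂ := fun τ => ∫ u', ec (-(u' * τ)) * g u' with hT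
  set a : ℝ → ℝ≥0∞ := fun τ => (1 + ENNReal.ofReal |τ|) ^ (1 / 2 : ℝ) with ha
  have ha0 : ∀ τ, a τ ≠ 0 := by
    intro τ
    simp only [ha]
    rw [Ne, ENNReal.rpow_eq_zero_iff]
    rintro (⟨h1, _⟩ | ⟨h1, h2⟩)
    · simp at h1
    · norm_num at h2
  have hat : ∀ τ, a τ ≠ ∞ := by
    intro τ
    simp only [ha]
    exact ENNReal.rpow_ne_top_of_nonneg (by norm_num) (by simp)
  have ha2 : ∀ τ, a τ ^ 2 = 1 + ENNReal.ofReal |τ| := by
    intro τ
    simp only [ha]
    rw [← ENNReal.rpow_natCast, ← ENNReal.rpow_mul]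
    norm_num
  have ham : Measurable a := hwm.pow_const _
  have h1 : ‖∫ u', ((gam δ (u - u') : ℝ) : ℂ) * g u'‖ₑ ≤
      ∫⁻ τ, ((fun τ => ENNReal.ofReal (EE δ τ) / a τ) * (fun τ => a τ * ‖T τ‖ₑ)) τ := by
    rw [gam_conv hδ hg]
    refine (enorm_integral_le_lintegral_enorm _).trans (le_of_eq ?_)
    apply lintegral_congr
    intro τ
    rw [enorm_mul, enorm_mul]
    have e1 : ‖ec (τ * u)‖ₑ = 1 := by
      rw [← ofReal_norm, ec_norm, ENNReal.ofReal_one]
    have e2 : ‖((EE δ τ : ℝ) : ℂ)‖ₑ = ENNReal.ofReal (EE δ τ) := by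
      rw [← ofReal_norm, Complex.norm_real, Real.norm_of_nonneg]
      unfold EE
      positivity
    rw [e1, e2, one_mul]
    simp only [Pi.mul_apply]
    rw [← mul_assoc, ENNReal.div_mul_cancel (ha0 τ) (hat τ)]
  have h2 := ENNReal.lintegral_mul_le_Lp_mul_Lq (volume : Measure ℝ)
    (Real.HolderConjugate.two_two) (f := fun τ => ENNReal.ofReal (EE δ τ) / a τ)
    (g := fun τ => a τ * ‖T τ‖ₑ)
    ((EE_meas δ).ennreal_ofReal.div ham).aemeasurable (ham.mul hTm.enorm).aemeasurable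
  have e4 : ∀ x : ℝ≥0∞, (x ^ (1 / (2 : ℝ))) ^ 2 = x := by
    intro x
    rw [← ENNReal.rpow_natCast, ← ENNReal.rpow_mul]
    norm_num
  have h3 := pow_le_pow_left₀ (zero_le) (h1.trans h2) 2
  refine h3.trans (le_of_eq ?_)
  rw [mul_pow, e4, e4, LL]
  congr 1
  · apply lintegral_congr
    intro τ
    have : (ENNReal.ofReal (EE δ τ) / a τ) ^ (2 : ℝ) = (ENNReal.ofReal (EE δ τ) / a τ) ^ 2 := by
      exact_mod_cast ENNReal.rpow_natCast _ 2
    rw [this, div_eq_mul_inv, mul_pow, ← ENNReal.inv_pow, ha2, ← div_eq_mul_inv]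
  · apply lintegral_congr
    intro τ
    have : (a τ * ‖T τ‖ₑ) ^ (2 : ℝ) = (a τ * ‖T τ‖ₑ) ^ 2 := by
      exact_mod_cast ENNReal.rpow_natCast _ 2
    rw [this, mul_pow, ha2]

/-- A logarithmic integral. -/
theorem log_lint {a A : ℝ} (ha : 0 < a) (hA : 0 ≤ A) :
    ∫⁻ x in Icc (-A) A, ENNReal.ofReal (1 / (a + |x|)) ≤
      ENNReal.ofReal (2 * Real.log ((a + A) / a)) := by
  have hhalf : ∫⁻ x in Icc 0 A, ENNReal.ofReal (1 / (a + |x|)) =
      ENNReal.ofReal (Real.log ((a + A) / a)) := by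
    have hc : ContinuousOn (fun x : ℝ => 1 / (a + x)) (Icc 0 A) := by
      apply ContinuousOn.div continuousOn_const (by fun_prop)
      intro x hx
      have := hx.1
      positivity
    have hi : IntegrableOn (fun x : ℝ => 1 / (a + x)) (Icc 0 A) :=
      hc.integrableOn_compact isCompact_Icc
    have e1 : ∫⁻ x in Icc 0 A, ENNReal.ofReal (1 / (a + |x|)) =
        ∫⁻ x in Icc 0 A, ENNReal.ofReal (1 / (a + x)) := by
      apply setLIntegral_congr_fun measurableSet_Icc
      intro x hx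
      simp only
      rw [abs_of_nonneg hx.1]
    rw [e1, ← ofReal_integral_eq_lintegral_ofReal hi]
    · congr 1
      rw [integral_Icc_eq_integral_Ioc, ← intervalIntegral.integral_of_le hA]
      have h1 := intervalIntegral.integral_comp_add_left (a := 0) (b := A)
        (fun x : ℝ => 1 / x) a
      rw [h1, integral_one_div_of_pos (by linarith) (by linarith), add_zero]
    · filter_upwards [ae_restrict_mem measurableSet_Icc] with x hx
      have := hx.1
      simp only [Pi.zero_apply]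
      positivity
  have hneg : ∫⁻ x in Icc (-A) 0, ENNReal.ofReal (1 / (a + |x|)) =
      ∫⁻ x in Icc 0 A, ENNReal.ofReal (1 / (a + |x|)) := by
    rw [← lintegral_indicator measurableSet_Icc, ← lintegral_indicator measurableSet_Icc,
      ← lintegral_neg_eq_self]
    apply lintegral_congr
    intro x
    by_cases hx : x ∈ Icc 0 A
    · have hx' : -x ∈ Icc (-A) 0 := ⟨by linarith [hx.2], by linarith [hx.1]⟩
      rw [indicator_of_mem hx, indicator_of_mem hx', abs_neg]
    · have hx' : -x ∉ Icc (-A) 0 := by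
        intro hc
        exact hx ⟨by linarith [hc.2], by linarith [hc.1]⟩
      rw [indicator_of_notMem hx, indicator_of_notMem hx']
  have hlog : 0 ≤ Real.log ((a + A) / a) := by
    apply Real.log_nonneg
    rw [le_div_iff₀ ha]
    linarith
  calc ∫⁻ x in Icc (-A) A, ENNReal.ofReal (1 / (a + |x|))
      ≤ ∫⁻ x in Icc (-A) 0 ∪ Icc 0 A, ENNReal.ofReal (1 / (a + |x|)) := by
        apply lintegral_mono_set
        intro x hx
        rcases le_total x 0 with h | h
        · exact Or.inl ⟨hx.1, h⟩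
        · exact Or.inr ⟨h, hx.2⟩
    _ ≤ _ := lintegral_union_le _ _ _
    _ = ENNReal.ofReal (2 * Real.log ((a + A) / a)) := by
        rw [hneg, hhalf, ← ENNReal.ofReal_add hlog hlog]
        congr 1
        ring

/-- The bound of the logarithmic constant. -/
theorem LL_le {δ : ℝ} (hδ : 0 < δ) (hδ1 : δ ≤ 1) :
    LL δ ≤ ENNReal.ofReal (3 + 2 * Real.log (1 / δ)) := by
  have hE1 : ∀ τ, EE δ τ ≤ 1 := by
    intro τ
    unfold EE
    rw [Real.exp_le_one_iff]
    have : 0 ≤ π * δ ^ 2 * τ ^ 2 := by positivity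
    linarith
  have hE0 : ∀ τ, 0 ≤ EE δ τ := by
    intro τ
    unfold EE
    positivity
  have hden : ∀ τ : ℝ, 1 + ENNReal.ofReal |τ| = ENNReal.ofReal (1 + |τ|) := by
    intro τ
    rw [ENNReal.ofReal_add (by norm_num) (abs_nonneg _), ENNReal.ofReal_one]
  have hpt : ∀ τ : ℝ, (ENNReal.ofReal (EE δ τ)) ^ 2 / (1 + ENNReal.ofReal |τ|) ≤
      (Icc (-(1 / δ)) (1 / δ)).indicator (fun τ => ENNReal.ofReal (1 / (1 + |τ|))) τ +
        ENNReal.ofReal (δ * EE δ τ) := by
    intro τ
    have h1 : (ENNReal.ofReal (EE δ τ)) ^ 2 / (1 + ENNReal.ofReal |τ|) ≤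
        ENNReal.ofReal (EE δ τ / (1 + |τ|)) := by
      rw [hden, ENNReal.ofReal_div_of_pos (by positivity)]
      apply ENNReal.div_le_div_right
      rw [← ENNReal.ofReal_pow (hE0 τ)]
      apply ENNReal.ofReal_le_ofReal
      nlinarith [hE1 τ, hE0 τ]
    refine h1.trans ?_
    by_cases hτ : τ ∈ Icc (-(1 / δ)) (1 / δ)
    · rw [indicator_of_mem hτ]
      refine le_trans ?_ le_self_add
      apply ENNReal.ofReal_le_ofReal
      gcongr
      exact hE1 τ
    · rw [indicator_of_notMem hτ, zero_add]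
      apply ENNReal.ofReal_le_ofReal
      rw [mem_Icc, ← abs_le, not_le] at hτ
      rw [div_le_iff₀ (by positivity)]
      have h2 : 1 ≤ δ * (1 + |τ|) := by
        rw [div_lt_iff₀ hδ] at hτ
        nlinarith
      have := hE0 τ
      nlinarith
  have hA : (0 : ℝ) ≤ 1 / δ := by positivity
  have hI : ∫⁻ τ, ENNReal.ofReal (δ * EE δ τ) ≤ 1 := by
    have hi : Integrable (fun τ => δ * EE δ τ) := (EE_integrable hδ).const_mul _
    rw [← ofReal_integral_eq_lintegral_ofReal hi
      (Filter.Eventually.of_forall fun τ => mul_nonneg hδ.le (hE0 τ))]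
    rw [integral_const_mul]
    unfold EE
    rw [integral_gaussian]
    have e : π / (π * δ ^ 2) = (1 / δ) ^ 2 := by
      field_simp
    rw [e, Real.sqrt_sq hA, mul_one_div_cancel hδ.ne', ENNReal.ofReal_one]
  calc LL δ ≤ ∫⁻ τ, ((Icc (-(1 / δ)) (1 / δ)).indicator
        (fun τ => ENNReal.ofReal (1 / (1 + |τ|))) τ + ENNReal.ofReal (δ * EE δ τ)) :=
        lintegral_mono hpt
    _ = (∫⁻ τ in Icc (-(1 / δ)) (1 / δ), ENNReal.ofReal (1 / (1 + |τ|))) +
        ∫⁻ τ, ENNReal.ofReal (δ * EE δ τ) := by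
        rw [lintegral_add_left, lintegral_indicator measurableSet_Icc]
        exact Measurable.indicator (by fun_prop) measurableSet_Icc
    _ ≤ ENNReal.ofReal (2 * Real.log ((1 + 1 / δ) / 1)) + 1 := by
        gcongr
        exact log_lint one_pos hA
    _ ≤ _ := by
        rw [← ENNReal.ofReal_one, ← ENNReal.ofReal_add]
        · apply ENNReal.ofReal_le_ofReal
          have h1 : Real.log ((1 + 1 / δ) / 1) ≤ Real.log (2 * (1 / δ)) := by
            apply Real.log_le_log (by positivity)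
            have : 1 ≤ 1 / δ := by
              rw [le_div_iff₀ hδ]; linarith
            linarith
          rw [Real.log_mul (by norm_num) (by positivity)] at h1
          have h2 := Real.log_two_lt_d9
          linarith
        · have : 0 ≤ Real.log ((1 + 1 / δ) / 1) := by
            apply Real.log_nonneg
            simp only [div_one]
            linarith
          linarith
        · norm_num

end Pool.Agent.N249.LR
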