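import Pool.Agent.N249.LR.Asm

set_option autoImplicit false

/-!
Tubes tangent to a paraboloid: coordinates.
-/

open MeasureTheory Set ENNReal Real

namespace Pool.Agent.N249.LR

variable {k : ℕ}

/-- Euclidean space of dimension `k + 3`. -/
abbrev Eu (k : ℕ) : Type := EuclideanSpace ℝ (Fin (k + 3))

/-- The coordinates. -/
noncomputable def emb (q : ℂ × (ℝ × (Fin k → ℝ))) : Eu k :=
  WithLp.toLp 2 (Fin.cons q.1.re (Fin.cons q.1.im (Fin.cons q.2.1 q.2.2 : Fin (k + 1) → ℝ) :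
    Fin (k + 2) → ℝ) : Fin (k + 3) → ℝ)

theorem emb_0 (q : ℂ × (ℝ × (Fin k → ℝ))) : (emb q) 0 = q.1.re := rfl
theorem emb_1 (q : ℂ × (ℝ × (Fin k → ℝ))) : (emb q) 1 = q.1.im := rfl
theorem emb_2 (q : ℂ × (ℝ × (Fin k → ℝ))) : (emb q) 2 = q.2.1 := rfl
theorem emb_s (q : ℂ × (ℝ × (Fin k → ℝ))) (i : Fin k) : (emb q) i.succ.succ.succ = q.2.2 i := rfl

theorem cons_mp (n : ℕ) : MeasurePreserving
    (fun p : ℝ × (Fin n → ℝ) => (Fin.cons p.1 p.2 : Fin (n + 1) → ℝ)) volume volume := by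
  have h := (volume_preserving_piFinSuccAbove (fun _ : Fin (n + 1) => ℝ) 0).symm
  have e : (fun p : ℝ × (Fin n → ℝ) => (Fin.cons p.1 p.2 : Fin (n + 1) → ℝ)) =
      (MeasurableEquiv.piFinSuccAbove (fun _ : Fin (n + 1) => ℝ) 0).symm := by
    funext p
    rw [MeasurableEquiv.piFinSuccAbove_symm_apply, Fin.insertNthEquiv_zero]
    rfl
  rw [e]
  exact h

theorem emb_mp : MeasurePreserving (emb : ℂ × (ℝ × (Fin k → ℝ)) → Eu k) volume volume := by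
  have h1 : MeasurePreserving (Prod.map Complex.measurableEquivRealProd
      (id : ℝ × (Fin k → ℝ) → ℝ × (Fin k → ℝ))) volume volume :=
    Complex.volume_preserving_equiv_real_prod.prod (MeasurePreserving.id _)
  have h2 : MeasurePreserving (MeasurableEquiv.prodAssoc :
      (ℝ × ℝ) × (ℝ × (Fin k → ℝ)) ≃ᵐ ℝ × (ℝ × (ℝ × (Fin k → ℝ)))) volume volume :=
    volume_preserving_prodAssoc
  have h3 : MeasurePreserving (Prod.map (id : ℝ → ℝ) (Prod.map (id : ℝ → ℝ)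
      (fun p : ℝ × (Fin k → ℝ) => (Fin.cons p.1 p.2 : Fin (k + 1) → ℝ)))) volume volume :=
    (MeasurePreserving.id _).prod ((MeasurePreserving.id _).prod (cons_mp k))
  have h4 : MeasurePreserving (Prod.map (id : ℝ → ℝ)
      (fun p : ℝ × (Fin (k + 1) → ℝ) => (Fin.cons p.1 p.2 : Fin (k + 2) → ℝ))) volume volume :=
    (MeasurePreserving.id _).prod (cons_mp (k + 1))
  have h5 := cons_mp (k + 2)
  have h6 := PiLp.volume_preserving_toLp (Fin (k + 3))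
  have h := h6.comp (h5.comp (h4.comp (h3.comp (h2.comp h1))))
  exact h

/-- Coordinates of the points of a tube. -/
theorem tube_coord {e c P x : Eu k} {δ : ℝ}
    (hx1 : |inner ℝ (x - c) e| ≤ 1 / 2) (hx2 : ‖(x - c) - (inner ℝ (x - c) e : ℝ) • e‖ ≤ δ)
    (hP : ‖(c - P) - (inner ℝ (c - P) e : ℝ) • e‖ ≤ δ) :
    ∃ t : ℝ, |t - inner ℝ (c - P) e| ≤ 1 / 2 ∧ ∀ i, |x i - P i - t * e i| ≤ 2 * δ := by
  refine ⟨inner ℝ (x - c) e + inner ℝ (c - P) e, by simpa using hx1, ?_⟩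
  intro i
  set z : Eu k := ((x - c) - (inner ℝ (x - c) e : ℝ) • e) +
    ((c - P) - (inner ℝ (c - P) e : ℝ) • e) with hz
  have h1 : ‖z‖ ≤ 2 * δ := by
    rw [hz]
    refine (norm_add_le _ _).trans ?_
    linarith
  have h2 := (PiLp.norm_apply_le z i).trans h1
  rw [Real.norm_eq_abs] at h2
  have h3 : x i - P i - ((inner ℝ (x - c) e : ℝ) + inner ℝ (c - P) e) * e i = z i := by
    rw [hz]
    simp only [PiLp.add_apply, PiLp.sub_apply, PiLp.smul_apply, smul_eq_mul]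
    ring
  rw [h3]
  exact h2

/-- The position of the points of a tube relative to the paraboloid. -/
theorem contain_real {R δ C Sn lam t t0 : ℝ} {X0 X1 X2 P0 P1 P2 E0 E1 E2 : ℝ}
    (hδ : 0 < δ) (hδ1 : δ ≤ 1) (hcs : Sn ^ 2 + C ^ 2 = 1)
    (hR : 0 ≤ R) (hl0 : 0 < lam) (hl1 : lam ≤ 1) (he0 : E0 = lam * C)
    (he1 : E1 = lam * Sn) (he2 : E2 = 2 * (P0 * E0 + P1 * E1))
    (hP2 : P2 = P0 ^ 2 + P1 ^ 2)
    (hPR : P0 ^ 2 + P1 ^ 2 ≤ R ^ 2) (b0 : |X0 - P0 - t * E0| ≤ 2 * δ)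
    (b1 : |X1 - P1 - t * E1| ≤ 2 * δ) (b2 : |X2 - P2 - t * E2| ≤ 2 * δ)
    (ht : |t - t0| ≤ 1 / 2) {m ρ u' u0 : ℝ} (hm : m = P0 * C + P1 * Sn)
    (hρ : ρ = X0 * C + X1 * Sn - m)
    (hu' : u' = X1 * C - X0 * Sn)
    (hu0 : u0 = P1 * C - P0 * Sn) :
    |u' - u0| ≤ 4 * δ ∧ |X2 - (X0 ^ 2 + X1 ^ 2) + ρ ^ 2| ≤ (16 * R + 18) * δ ∧
      |ρ - t * lam| ≤ 4 * δ ∧ |ρ - t0 * lam| ≤ 9 / 2 := by
  have hC1 : |C| ≤ 1 := by
    apply abs_le_of_sq_le_sq _ zero_le_one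
    nlinarith [sq_nonneg Sn]
  have hS1 : |Sn| ≤ 1 := by
    apply abs_le_of_sq_le_sq _ zero_le_one
    nlinarith [sq_nonneg C]
  obtain ⟨w0, hw0⟩ : ∃ w0, w0 = X0 - P0 - t * E0 := ⟨_, rfl⟩
  obtain ⟨w1, hw1⟩ : ∃ w1, w1 = X1 - P1 - t * E1 := ⟨_, rfl⟩
  obtain ⟨w2, hw2⟩ : ∃ w2, w2 = X2 - P2 - t * E2 := ⟨_, rfl⟩
  rw [← hw0] at b0
  rw [← hw1] at b1
  rw [← hw2] at b2
  have mulb : ∀ a c : ℝ, |a| ≤ 2 * δ → |c| ≤ 1 → |a * c| ≤ 2 * δ := by
    intro a c h1 h2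
    rw [abs_mul]
    nlinarith [abs_nonneg a, abs_nonneg c]
  have m1 := abs_le.1 (mulb w0 C b0 hC1)
  have m2 := abs_le.1 (mulb w1 Sn b1 hS1)
  have m3 := abs_le.1 (mulb w1 C b1 hC1)
  have m4 := abs_le.1 (mulb w0 Sn b0 hS1)
  obtain ⟨β, hβ⟩ : ∃ β, β = w0 * C + w1 * Sn := ⟨_, rfl⟩
  obtain ⟨β', hβ'⟩ : ∃ β', β' = w1 * C - w0 * Sn := ⟨_, rfl⟩
  have bβ : |β| ≤ 4 * δ := by
    rw [hβ, abs_le]
    exact ⟨by linarith [m1.1, m2.1], by linarith [m1.2, m2.2]⟩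
  have bβ' : |β'| ≤ 4 * δ := by
    rw [hβ', abs_le]
    exact ⟨by linarith [m3.1, m4.2], by linarith [m3.2, m4.1]⟩
  have hx0 : X0 = P0 + t * (lam * C) + w0 := by rw [hw0, he0]; ring
  have hx1 : X1 = P1 + t * (lam * Sn) + w1 := by rw [hw1, he1]; ring
  have hx2 : X2 = P2 + t * E2 + w2 := by rw [hw2]; ring
  have hρ' : ρ = t * lam + β := by
    have : ρ = t * lam * (Sn ^ 2 + C ^ 2) + β := by
      rw [hρ, hm, hx0, hx1, hβ]; ring
    rw [this, hcs, mul_one]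
  have hu'' : u' = u0 + β' := by
    rw [hu', hu0, hx0, hx1, hβ']; ring
  have hmu : m ^ 2 + u0 ^ 2 = P0 ^ 2 + P1 ^ 2 := by
    have : m ^ 2 + u0 ^ 2 = (Sn ^ 2 + C ^ 2) * (P0 ^ 2 + P1 ^ 2) := by
      rw [hm, hu0]; ring
    rw [this, hcs, one_mul]
  have hmR : |m| ≤ R := by
    apply abs_le_of_sq_le_sq _ hR
    linarith [sq_nonneg u0]
  have huR : |u0| ≤ R := by
    apply abs_le_of_sq_le_sq _ hR
    linarith [sq_nonneg m]
  have hxx : X0 ^ 2 + X1 ^ 2 = (m + ρ) ^ 2 + u' ^ 2 := by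
    have : (m + ρ) ^ 2 + u' ^ 2 = (Sn ^ 2 + C ^ 2) * (X0 ^ 2 + X1 ^ 2) := by
      rw [hρ, hu']; ring
    rw [this, hcs, one_mul]
  have he2' : E2 = 2 * m * lam := by
    rw [he2, he0, he1, hm]; ring
  refine ⟨?_, ?_, ?_, ?_⟩
  · rw [hu'']
    simpa using bβ'
  · have key : X2 - (X0 ^ 2 + X1 ^ 2) + ρ ^ 2 = -(β' * (2 * u0 + β')) - 2 * m * β + w2 := by
      rw [hxx, hx2, hP2, ← hmu, he2', hu'']
      have : t * lam = ρ - β := by rw [hρ']; ring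
      have e3 : t * (2 * m * lam) = 2 * m * (ρ - β) := by rw [← this]; ring
      rw [e3]
      ring
    rw [key]
    have h1 : |β' * (2 * u0 + β')| ≤ 4 * δ * (2 * R + 4) := by
      rw [abs_mul]
      apply mul_le_mul bβ' _ (abs_nonneg _) (by positivity)
      have : |2 * u0 + β'| ≤ 2 * |u0| + |β'| := by
        refine (abs_add_le _ _).trans ?_
        rw [abs_mul, abs_two]
      linarith
    have h2 : |2 * m * β| ≤ 2 * R * (4 * δ) := by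
      rw [abs_mul, abs_mul, abs_two]
      apply mul_le_mul _ bβ (abs_nonneg _) (by positivity)
      linarith
    have h1' := abs_le.1 h1
    have h2' := abs_le.1 h2
    have b2' := abs_le.1 b2
    rw [abs_le]
    constructor
    · linarith [h1'.2, h2'.2, b2'.1]
    · linarith [h1'.1, h2'.1, b2'.2]
  · rw [hρ']
    simpa using bβ
  · rw [hρ']
    have e1 : t * lam + β - t0 * lam = (t - t0) * lam + β := by ring
    rw [e1]
    refine (abs_add_le _ _).trans ?_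
    have h2 : |(t - t0) * lam| ≤ 1 / 2 * 1 := by
      rw [abs_mul, abs_of_pos hl0]
      exact mul_le_mul ht hl1 hl0.le (by norm_num)
    linarith

/-- The remaining coordinates. -/
theorem contain_rest {R δ lam t ρ vi xi : ℝ} (hρ : |ρ - t * lam| ≤ 4 * δ) (hv : |vi| ≤ R)
    (hx : |xi - 0 - t * (lam * vi)| ≤ 2 * δ) (hδ : 0 < δ) (hR : 0 ≤ R) :
    |xi - ρ * vi| ≤ (4 * R + 2) * δ := by
  have e1 : xi - ρ * vi = (xi - 0 - t * (lam * vi)) - (ρ - t * lam) * vi := by ring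
  rw [e1]
  refine (abs_sub _ _).trans ?_
  have h2 : |(ρ - t * lam) * vi| ≤ 4 * δ * R := by
    rw [abs_mul]
    exact mul_le_mul hρ hv (abs_nonneg _) (by positivity)
  linarith

end Pool.Agent.N249.LR
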