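import Pool.Agent.N249.LR.Core

set_option autoImplicit false

/-!
Averages over light rays: the change of the exponent.
-/

open MeasureTheory Set ENNReal Real Complex

namespace Pool.Agent.N249.LR

/-- Hölder's inequality with a weight. -/
theorem holder_weight {α : Type*} [MeasurableSpace α] (μ : Measure α) (k : ℕ)
    {G κ : α → ℝ≥0∞} (hG : AEMeasurable G μ) (hκ : AEMeasurable κ μ)
    (h0 : ∀ x, κ x ≠ 0) (ht : ∀ x, κ x ≠ ∞) :
    (∫⁻ x, G x ∂μ) ^ (k + 3) ≤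
      (∫⁻ x, G x ^ (((k : ℝ) + 3) / 2) * κ x ^ (((k : ℝ) + 1) / 2) ∂μ) ^ 2 *
        (∫⁻ x, (κ x)⁻¹ ∂μ) ^ (k + 1) := by
  set p : ℝ := ((k : ℝ) + 3) / 2 with hp
  set q : ℝ := ((k : ℝ) + 3) / ((k : ℝ) + 1) with hq
  have hk : (0 : ℝ) ≤ k := Nat.cast_nonneg k
  have hpq : p.HolderConjugate q := by
    rw [Real.holderConjugate_iff]
    constructor
    · rw [hp]; linarith
    · rw [hp, hq]
      field_simp
      ring
  have h1 := ENNReal.lintegral_mul_le_Lp_mul_Lq μ hpq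
    (f := fun x => G x * κ x ^ (1 / q)) (g := fun x => (κ x ^ (1 / q))⁻¹)
    (hG.mul (hκ.pow_const _)) (hκ.pow_const _).inv
  have hq0 : 0 < q := by rw [hq]; positivity
  have hp0 : 0 < p := by rw [hp]; positivity
  have e0 : ∀ x, ((fun x => G x * κ x ^ (1 / q)) * (fun x => (κ x ^ (1 / q))⁻¹)) x = G x := by
    intro x
    simp only [Pi.mul_apply]
    rw [mul_assoc, ENNReal.mul_inv_cancel, mul_one]
    · rw [Ne, ENNReal.rpow_eq_zero_iff]
      rintro (⟨h, _⟩ | ⟨h, _⟩)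
      · exact h0 x h
      · exact ht x h
    · exact ENNReal.rpow_ne_top_of_nonneg (by positivity) (ht x)
  have e1 : ∀ x, (G x * κ x ^ (1 / q)) ^ p =
      G x ^ (((k : ℝ) + 3) / 2) * κ x ^ (((k : ℝ) + 1) / 2) := by
    intro x
    rw [ENNReal.mul_rpow_of_nonneg _ _ hp0.le, ← ENNReal.rpow_mul]
    congr 2
    rw [hp, hq]
    field_simp
  have e2 : ∀ x, ((κ x ^ (1 / q))⁻¹) ^ q = (κ x)⁻¹ := by
    intro x
    rw [ENNReal.inv_rpow, ← ENNReal.rpow_mul, one_div, inv_mul_cancel₀ hq0.ne',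
      ENNReal.rpow_one]
  simp only [e0, e1, e2] at h1
  set X : ℝ≥0∞ := ∫⁻ x, G x ^ (((k : ℝ) + 3) / 2) * κ x ^ (((k : ℝ) + 1) / 2) ∂μ
  set Y : ℝ≥0∞ := ∫⁻ x, (κ x)⁻¹ ∂μ
  calc (∫⁻ x, G x ∂μ) ^ (k + 3) ≤ (X ^ (1 / p) * Y ^ (1 / q)) ^ (k + 3) := by gcongr
    _ = X ^ 2 * Y ^ (k + 1) := by
        rw [mul_pow, ← ENNReal.rpow_natCast, ← ENNReal.rpow_natCast, ← ENNReal.rpow_mul,
          ← ENNReal.rpow_mul, ← ENNReal.rpow_natCast, ← ENNReal.rpow_natCast]
        congr 2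
        · rw [hp]
          push_cast
          field_simp
        · rw [hq]
          push_cast
          field_simp

/-- The change of the exponent. -/
theorem SS_holder {Γ : ℝ → ℂ → ℝ≥0∞} (hΓ : Measurable (Function.uncurry Γ)) {I : Set ℝ}
    (hI : MeasurableSet I) (hr : ∀ r y, r ∉ I → Γ r y = 0) {κ : ℝ → ℝ≥0∞} (hκ : Measurable κ)
    (h0 : ∀ x, κ x ≠ 0) (ht : ∀ x, κ x ≠ ∞) (k : ℕ) {δ : ℝ} (hδ : 0 < δ) (φ m u : ℝ) :
    SS Γ δ φ m u ^ (k + 3) ≤
      (∫⁻ r in I, (κ r)⁻¹) ^ (k + 1) *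
        SS (fun r y => Γ r y ^ (((k : ℝ) + 3) / 2) * κ r ^ (((k : ℝ) + 1) / 2)) δ φ m u ^ 2 := by
  have hk : (0 : ℝ) ≤ k := Nat.cast_nonneg k
  set Y : ℝ≥0∞ := ∫⁻ r in I, (κ r)⁻¹ with hY
  set Γ' : ℝ → ℂ → ℝ≥0∞ :=
    fun r y => Γ r y ^ (((k : ℝ) + 3) / 2) * κ r ^ (((k : ℝ) + 1) / 2) with hΓ'
  have hΓ'm : Measurable (Function.uncurry Γ') := by
    exact (hΓ.pow_const _).mul ((hκ.comp measurable_fst).pow_const _)
  set A : ℝ → ℝ≥0∞ := fun u' => ∫⁻ r, Γ r (rot φ (m + r, u')) with hA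
  set B : ℝ → ℝ≥0∞ := fun u' => ∫⁻ r, Γ' r (rot φ (m + r, u')) with hB
  have hAm : Measurable A := (SS_inner_meas hΓ).comp (g := fun q : ℝ × (ℝ × ℝ) =>
        ∫⁻ r, Γ r (rot q.1 (q.2.1 + r, q.2.2)))
        (f := fun u' : ℝ => (φ, (m, u'))) (by fun_prop)
  have hBm : Measurable B := (SS_inner_meas hΓ'm).comp (g := fun q : ℝ × (ℝ × ℝ) =>
        ∫⁻ r, Γ' r (rot q.1 (q.2.1 + r, q.2.2)))
        (f := fun u' : ℝ => (φ, (m, u'))) (by fun_prop)
  have h1 : ∀ u', A u' ^ (k + 3) ≤ B u' ^ 2 * Y ^ (k + 1) := by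
    intro u'
    have a1 : Measurable (fun r : ℝ => rot φ (m + r, u')) :=
      rot_meas.comp (g := fun q : ℝ × (ℝ × ℝ) => rot q.1 q.2)
        (f := fun r : ℝ => (φ, (m + r, u'))) (by fun_prop)
    have a2 : Measurable (fun r => Γ r (rot φ (m + r, u'))) := hΓ.comp (measurable_id.prodMk a1)
    have e1 : A u' = ∫⁻ r in I, Γ r (rot φ (m + r, u')) := by
      rw [hA, ← lintegral_indicator hI]
      apply lintegral_congr
      intro r
      by_cases hr' : r ∈ I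
      · rw [indicator_of_mem hr']
      · rw [indicator_of_notMem hr']
        exact hr _ _ hr'
    rw [e1]
    refine (holder_weight (volume.restrict I) k a2.aemeasurable hκ.aemeasurable
      h0 ht).trans ?_
    gcongr
    exact setLIntegral_le_lintegral _ _
  set p : ℝ := ((k : ℝ) + 3) / 2 with hp
  set q : ℝ := ((k : ℝ) + 3) / ((k : ℝ) + 1) with hq
  have hpq : p.HolderConjugate q := by
    rw [Real.holderConjugate_iff]
    constructor
    · rw [hp]; linarith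
    · rw [hp, hq]
      field_simp
      ring
  have hp0 : 0 < p := by rw [hp]; positivity
  have h2 : ∀ u', A u' ≤ B u' ^ (1 / p) * Y ^ (1 / q) := by
    intro u'
    have h := h1 u'
    have h3 : (A u' ^ (k + 3)) ^ (1 / ((k : ℝ) + 3)) ≤
        (B u' ^ 2 * Y ^ (k + 1)) ^ (1 / ((k : ℝ) + 3)) := by
      gcongr
    have e1 : (A u' ^ (k + 3)) ^ (1 / ((k : ℝ) + 3)) = A u' := by
      rw [← ENNReal.rpow_natCast, ← ENNReal.rpow_mul]
      push_cast
      rw [mul_one_div_cancel (by positivity), ENNReal.rpow_one]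
    have e2 : (B u' ^ 2 * Y ^ (k + 1)) ^ (1 / ((k : ℝ) + 3)) = B u' ^ (1 / p) * Y ^ (1 / q) := by
      rw [ENNReal.mul_rpow_of_nonneg _ _ (by positivity), ← ENNReal.rpow_natCast,
        ← ENNReal.rpow_natCast, ← ENNReal.rpow_mul, ← ENNReal.rpow_mul]
      congr 2
      · rw [hp]; push_cast; field_simp
      · rw [hq]; push_cast; field_simp
    rw [e1, e2] at h3
    exact h3
  have hgm : Measurable (fun u' => ENNReal.ofReal (gam δ (u - u'))) :=
    ((gam_meas δ).comp (by fun_prop)).ennreal_ofReal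
  have hg1 : ∫⁻ u', ENNReal.ofReal (gam δ (u - u')) = 1 := by
    have e : ∀ u', gam δ (u - u') = gam δ (u' + (-u)) := by
      intro u'
      rw [← gam_neg]; congr 1; ring
    simp only [e]
    rw [lintegral_add_right_eq_self (fun x => ENNReal.ofReal (gam δ x)) (-u), gam_lint hδ]
  have h3 : SS Γ δ φ m u ≤ Y ^ (1 / q) * SS Γ' δ φ m u ^ (1 / p) := by
    set ν : Measure ℝ := volume.withDensity (fun u' => ENNReal.ofReal (gam δ (u - u'))) with hν
    have h4 := ENNReal.lintegral_mul_le_Lp_mul_Lq ν hpq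
      (f := fun u' => B u' ^ (1 / p)) (g := fun _ => (1 : ℝ≥0∞))
      (hBm.pow_const _).aemeasurable aemeasurable_const
    have e5 : ∀ u', (B u' ^ (1 / p)) ^ p = B u' := by
      intro u'
      rw [← ENNReal.rpow_mul, one_div, inv_mul_cancel₀ hp0.ne', ENNReal.rpow_one]
    have e6 : ∫⁻ _, (1 : ℝ≥0∞) ^ q ∂ν = 1 := by
      simp only [ENNReal.one_rpow, lintegral_one]
      rw [hν, withDensity_apply _ MeasurableSet.univ, Measure.restrict_univ, hg1]
    have e7 : ∀ u', ((fun u' => B u' ^ (1 / p)) * (fun _ : ℝ => (1 : ℝ≥0∞)) : ℝ → ℝ≥0∞) u' =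
        B u' ^ (1 / p) := by
      intro u'
      simp
    rw [e6] at h4
    simp only [e5, e7, ENNReal.one_rpow, mul_one] at h4
    have e8 : ∀ h : ℝ → ℝ≥0∞, Measurable h → ∫⁻ u', h u' ∂ν =
        ∫⁻ u', ENNReal.ofReal (gam δ (u - u')) * h u' := by
      intro h hh
      rw [hν, lintegral_withDensity_eq_lintegral_mul _ hgm hh]
      rfl
    rw [e8 _ (hBm.pow_const _), e8 _ hBm] at h4
    calc SS Γ δ φ m u = ∫⁻ u', ENNReal.ofReal (gam δ (u - u')) * A u' := rfl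
      _ ≤ ∫⁻ u', Y ^ (1 / q) * (ENNReal.ofReal (gam δ (u - u')) * B u' ^ (1 / p)) := by
          apply lintegral_mono
          intro u'
          calc ENNReal.ofReal (gam δ (u - u')) * A u' ≤
              ENNReal.ofReal (gam δ (u - u')) * (B u' ^ (1 / p) * Y ^ (1 / q)) := by
                gcongr
                exact h2 u'
            _ = _ := by ring
      _ = Y ^ (1 / q) * ∫⁻ u', ENNReal.ofReal (gam δ (u - u')) * B u' ^ (1 / p) := by
          rw [lintegral_const_mul]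
          exact hgm.mul (hBm.pow_const _)
      _ ≤ Y ^ (1 / q) * SS Γ' δ φ m u ^ (1 / p) := by
          gcongr
          exact h4
  calc SS Γ δ φ m u ^ (k + 3) ≤ (Y ^ (1 / q) * SS Γ' δ φ m u ^ (1 / p)) ^ (k + 3) := by gcongr
    _ = Y ^ (k + 1) * SS Γ' δ φ m u ^ 2 := by
        rw [mul_pow, ← ENNReal.rpow_natCast, ← ENNReal.rpow_natCast, ← ENNReal.rpow_mul,
          ← ENNReal.rpow_mul, ← ENNReal.rpow_natCast, ← ENNReal.rpow_natCast]
        congr 2
        · rw [hq]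
          push_cast
          field_simp
        · rw [hp]
          push_cast
          field_simp

end Pool.Agent.N249.LR
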