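import Pool.Agent.N249.LR.Four

set_option autoImplicit false

/-!
Averages over light rays: the Fourier transform of the ray transform on a null plane.
-/

open MeasureTheory Set ENNReal Real Complex FourierTransform

namespace Pool.Agent.N249.LR

variable {G : ℝ → ℂ → ℂ} {K R N : ℝ}

/-- The coordinates `(m, u)` of the plane in the frame `(w, i w)`. -/
noncomputable def rot (φ : ℝ) (p : ℝ × ℝ) : ℂ := w φ * (p.1 + p.2 * I)

theorem rot_re (φ : ℝ) (p : ℝ × ℝ) : (rot φ p).re = Real.cos φ * p.1 - Real.sin φ * p.2 := by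
  simp [rot, w_re, w_im]

theorem rot_im (φ : ℝ) (p : ℝ × ℝ) : (rot φ p).im = Real.cos φ * p.2 + Real.sin φ * p.1 := by
  simp [rot, w_re, w_im]

theorem rot_meas : Measurable (fun q : ℝ × (ℝ × ℝ) => rot q.1 q.2) := by
  unfold rot w
  fun_prop

theorem rot_norm (φ : ℝ) (p : ℝ × ℝ) : ‖rot φ p‖ ^ 2 = p.1 ^ 2 + p.2 ^ 2 := by
  rw [← Complex.normSq_eq_norm_sq, Complex.normSq_apply, rot_re, rot_im]
  have := Real.sin_sq_add_cos_sq φ
  have e : (Real.cos φ * p.1 - Real.sin φ * p.2) * (Real.cos φ * p.1 - Real.sin φ * p.2) +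
      (Real.cos φ * p.2 + Real.sin φ * p.1) * (Real.cos φ * p.2 + Real.sin φ * p.1) =
      (Real.sin φ ^ 2 + Real.cos φ ^ 2) * (p.1 ^ 2 + p.2 ^ 2) := by ring
  rw [e, this, one_mul]

theorem rot_mp (φ : ℝ) : MeasurePreserving (rot φ) (volume : Measure (ℝ × ℝ))
    (volume : Measure ℂ) := by
  have h1 := (Complex.volume_preserving_equiv_real_prod).symm
  have h2 := (rotation (Circle.exp φ)).measurePreserving
  have e : rot φ = (rotation (Circle.exp φ)) ∘ Complex.measurableEquivRealProd.symm := by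
    funext p
    apply Complex.ext
    · simp [rot, w, rotation_apply, Complex.measurableEquivRealProd_symm_apply]
    · simp [rot, w, rotation_apply, Complex.measurableEquivRealProd_symm_apply]
  rw [e]
  exact h2.comp h1

theorem rot_inner (φ : ℝ) (p q : ℝ × ℝ) :
    (inner ℝ (rot φ p) (rot φ q) : ℝ) = p.1 * q.1 + p.2 * q.2 := by
  rw [Complex.inner, Complex.mul_re, Complex.conj_re, Complex.conj_im]
  rw [rot_re, rot_im, rot_re, rot_im]
  have := Real.sin_sq_add_cos_sq φ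
  have e : (Real.cos φ * q.1 - Real.sin φ * q.2) * (Real.cos φ * p.1 - Real.sin φ * p.2) -
      (Real.cos φ * q.2 + Real.sin φ * q.1) * -(Real.cos φ * p.2 + Real.sin φ * p.1) =
      (Real.sin φ ^ 2 + Real.cos φ ^ 2) * (p.1 * q.1 + p.2 * q.2) := by ring
  rw [e, this, one_mul]

theorem cx_rot (φ : ℝ) (p : ℝ × ℝ) : cx (rot φ p) φ = p.1 := by
  unfold cx
  rw [rot_re, rot_im]
  have := Real.sin_sq_add_cos_sq φ
  have e : (Real.cos φ * p.1 - Real.sin φ * p.2) * Real.cos φ +
      (Real.cos φ * p.2 + Real.sin φ * p.1) * Real.sin φ =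
      (Real.sin φ ^ 2 + Real.cos φ ^ 2) * p.1 := by ring
  rw [e, this, one_mul]

theorem cy_rot (φ : ℝ) (p : ℝ × ℝ) : cy (rot φ p) φ = p.2 := by
  unfold cy
  rw [rot_re, rot_im]
  have := Real.sin_sq_add_cos_sq φ
  have e : (Real.cos φ * p.2 + Real.sin φ * p.1) * Real.cos φ -
      (Real.cos φ * p.1 - Real.sin φ * p.2) * Real.sin φ =
      (Real.sin φ ^ 2 + Real.cos φ ^ 2) * p.2 := by ring
  rw [e, this, one_mul]

attribute [irreducible] rot

/-- The additive character, as a complex number. -/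
noncomputable def ec (x : ℝ) : ℂ := ((𝐞 x : Circle) : ℂ)

theorem ec_smul (x : ℝ) (z : ℂ) : 𝐞 x • z = ec x * z := rfl

theorem ec_cont : Continuous ec := echar_cont

theorem ec_norm (x : ℝ) : ‖ec x‖ = 1 := Circle.norm_coe _

theorem ec_add (x y : ℝ) : ec (x + y) = ec x * ec y := by
  unfold ec
  rw [AddChar.map_add_eq_mul]
  rfl

attribute [irreducible] ec

/-- The ray transform on the null plane `(φ, m)`. -/
noncomputable def FF (G : ℝ → ℂ → ℂ) (φ m u : ℝ) : ℂ := ∫ r, G r (rot φ (m + r, u))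

/-- The integrand is integrable. -/
theorem Nice.J_int (h : Nice G K R N) (φ σ τ : ℝ) :
    Integrable (fun q : (ℝ × ℝ) × ℝ => ec (-(q.1.1 * σ + q.1.2 * τ)) *
      G q.2 (rot φ (q.1.1 + q.2, q.1.2))) := by
  have hm : Measurable (fun q : (ℝ × ℝ) × ℝ => ec (-(q.1.1 * σ + q.1.2 * τ)) *
      G q.2 (rot φ (q.1.1 + q.2, q.1.2))) := by
    apply Measurable.mul
    · apply ec_cont.measurable.comp
      fun_prop
    · have a1 : Measurable (fun q : (ℝ × ℝ) × ℝ => rot φ (q.1.1 + q.2, q.1.2)) :=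
        rot_meas.comp (g := fun q : ℝ × (ℝ × ℝ) => rot q.1 q.2)
          (f := fun q : (ℝ × ℝ) × ℝ => (φ, (q.1.1 + q.2, q.1.2))) (by fun_prop)
      exact h.meas.comp (measurable_snd.prodMk a1)
  refine (bdd_integrable (K := K) hm ?_
    (S := ((Icc (-(N + R)) (N + R)) ×ˢ (Icc (-N) N)) ×ˢ (Icc (-R) R)) ?_ ?_ ?_).1
  · intro q
    rw [norm_mul, ec_norm, one_mul]
    exact h.bd _ _
  · rw [Measure.volume_eq_prod, Measure.prod_prod, Measure.volume_eq_prod, Measure.prod_prod]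
    simp only [Real.volume_Icc]
    exact ENNReal.mul_ne_top (ENNReal.mul_ne_top ENNReal.ofReal_ne_top ENNReal.ofReal_ne_top)
      ENNReal.ofReal_ne_top
  · exact (measurableSet_Icc.prod measurableSet_Icc).prod measurableSet_Icc
  · intro q hq
    by_cases hr : |q.2| ≤ R
    · have : G q.2 (rot φ (q.1.1 + q.2, q.1.2)) = 0 := by
        apply h.supp_y
        by_contra hc
        push Not at hc
        apply hq
        have h1 := rot_norm φ (q.1.1 + q.2, q.1.2)
        simp only at h1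
        have h0 := norm_nonneg (rot φ (q.1.1 + q.2, q.1.2))
        have hR := h.R0
        have hN := h.N0
        have h2 : (q.1.1 + q.2) ^ 2 ≤ N ^ 2 := by nlinarith [sq_nonneg q.1.2]
        have h3 : q.1.2 ^ 2 ≤ N ^ 2 := by nlinarith [sq_nonneg (q.1.1 + q.2)]
        have h4 := abs_le.1 (abs_le_of_sq_le_sq h2 hN)
        have h5 := abs_le.1 (abs_le_of_sq_le_sq h3 hN)
        have h6 := abs_le.1 hr
        refine ⟨⟨⟨?_, ?_⟩, ⟨?_, ?_⟩⟩, ⟨?_, ?_⟩⟩
        · linarith [h4.1, h6.2]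
        · linarith [h4.2, h6.1]
        · exact h5.1
        · exact h5.2
        · exact h6.1
        · exact h6.2
      rw [this, mul_zero]
    · rw [h.supp_r _ _ (not_le.1 hr), mul_zero]

/-- The Fourier transform in `u` on the null plane. -/
noncomputable def Fh (G : ℝ → ℂ → ℂ) (φ m τ : ℝ) : ℂ := ∫ u, ec (-(u * τ)) * FF G φ m u

theorem Nice.FF_meas (h : Nice G K R N) : Measurable (fun q : ℝ × (ℝ × ℝ) => FF G q.1 q.2.1 q.2.2) := by
  have h1 : StronglyMeasurable (fun p : (ℝ × (ℝ × ℝ)) × ℝ =>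
      G p.2 (rot p.1.1 (p.1.2.1 + p.2, p.1.2.2))) := by
    apply Measurable.stronglyMeasurable
    have a1 : Measurable (fun p : (ℝ × (ℝ × ℝ)) × ℝ => rot p.1.1 (p.1.2.1 + p.2, p.1.2.2)) :=
      rot_meas.comp (g := fun q : ℝ × (ℝ × ℝ) => rot q.1 q.2)
        (f := fun p : (ℝ × (ℝ × ℝ)) × ℝ => (p.1.1, (p.1.2.1 + p.2, p.1.2.2))) (by fun_prop)
    exact h.meas.comp (measurable_snd.prodMk a1)
  exact (h1.integral_prod_right' (ν := (volume : Measure ℝ))).measurable

theorem Nice.FF_bd (h : Nice G K R N) (φ m u : ℝ) : ‖FF G φ m u‖ ≤ K * (2 * R) := by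
  unfold FF
  have hR := h.R0
  have e : (fun r => G r (rot φ (m + r, u))) =
      (Icc (-R) R).indicator (fun r => G r (rot φ (m + r, u))) := by
    funext r
    by_cases hr : r ∈ Icc (-R) R
    · rw [indicator_of_mem hr]
    · rw [indicator_of_notMem hr]
      rw [mem_Icc, ← abs_le] at hr
      exact h.supp_r _ _ (not_le.1 hr)
  rw [e, integral_indicator measurableSet_Icc]
  refine (norm_setIntegral_le_of_norm_le_const (C := K) (by simp) ?_).trans ?_
  · intro r _
    exact h.bd _ _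
  · rw [measureReal_def, Real.volume_Icc, ENNReal.toReal_ofReal (by linarith)]
    apply le_of_eq
    ring

theorem Nice.FF_supp (h : Nice G K R N) (φ : ℝ) {m u : ℝ} (hmu : ¬ (|m| ≤ N + R ∧ |u| ≤ N)) :
    FF G φ m u = 0 := by
  unfold FF
  have hR := h.R0
  have e : ∀ r, G r (rot φ (m + r, u)) = 0 := by
    intro r
    by_cases hr : |r| ≤ R
    · apply h.supp_y
      by_contra hc
      push Not at hc
      apply hmu
      have h1 := rot_norm φ (m + r, u)
      simp only at h1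
      have h0 := norm_nonneg (rot φ (m + r, u))
      have hN := h.N0
      have h2 : (m + r) ^ 2 ≤ N ^ 2 := by nlinarith [sq_nonneg u]
      have h3 : u ^ 2 ≤ N ^ 2 := by nlinarith [sq_nonneg (m + r)]
      have h4 := abs_le.1 (abs_le_of_sq_le_sq h2 hN)
      have h5 := abs_le_of_sq_le_sq h3 hN
      have h6 := abs_le.1 hr
      refine ⟨?_, h5⟩
      rw [abs_le]
      exact ⟨by linarith [h4.1, h6.2], by linarith [h4.2, h6.1]⟩
    · exact h.supp_r _ _ (not_le.1 hr)
  simp [e]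

theorem Nice.FF_int (h : Nice G K R N) (φ m : ℝ) : Integrable (FF G φ m) ∧ MemLp (FF G φ m) 2 := by
  have hm : Measurable (FF G φ m) :=
    h.FF_meas.comp (g := fun q : ℝ × (ℝ × ℝ) => FF G q.1 q.2.1 q.2.2)
      (f := fun u => (φ, (m, u))) (by fun_prop)
  refine bdd_integrable hm (fun u => h.FF_bd φ m u) (S := Icc (-N) N) (by simp)
    measurableSet_Icc ?_
  intro u hu
  apply h.FF_supp
  rintro ⟨_, h2⟩
  exact hu (abs_le.1 h2)

theorem Nice.Fh_meas (h : Nice G K R N) : Measurable (fun q : ℝ × (ℝ × ℝ) => Fh G q.1 q.2.1 q.2.2) := by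
  have h1 : StronglyMeasurable (fun p : (ℝ × (ℝ × ℝ)) × ℝ =>
      ec (-(p.2 * p.1.2.2)) * FF G p.1.1 p.1.2.1 p.2) := by
    apply Measurable.stronglyMeasurable
    apply Measurable.mul
    · apply ec_cont.measurable.comp
      fun_prop
    · exact h.FF_meas.comp (g := fun q : ℝ × (ℝ × ℝ) => FF G q.1 q.2.1 q.2.2)
        (f := fun p : (ℝ × (ℝ × ℝ)) × ℝ => (p.1.1, (p.1.2.1, p.2))) (by fun_prop)
  exact (h1.integral_prod_right' (ν := (volume : Measure ℝ))).measurable

theorem Nice.Fh_bd (h : Nice G K R N) (φ m τ : ℝ) : ‖Fh G φ m τ‖ ≤ K * (2 * R) * (2 * N) := by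
  unfold Fh
  have hN := h.N0
  have e : (fun u => ec (-(u * τ)) * FF G φ m u) =
      (Icc (-N) N).indicator (fun u => ec (-(u * τ)) * FF G φ m u) := by
    funext u
    by_cases hu : u ∈ Icc (-N) N
    · rw [indicator_of_mem hu]
    · rw [indicator_of_notMem hu]
      rw [mem_Icc, ← abs_le] at hu
      rw [h.FF_supp φ (fun hc => hu hc.2), mul_zero]
  rw [e, integral_indicator measurableSet_Icc]
  refine (norm_setIntegral_le_of_norm_le_const (C := K * (2 * R)) (by simp) ?_).trans ?_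
  · intro u _
    rw [norm_mul, ec_norm, one_mul]
    exact h.FF_bd _ _ _
  · rw [measureReal_def, Real.volume_Icc, ENNReal.toReal_ofReal (by linarith)]
    apply le_of_eq
    ring

theorem Nice.Fh_int (h : Nice G K R N) (φ τ : ℝ) :
    Integrable (fun m => Fh G φ m τ) ∧ MemLp (fun m => Fh G φ m τ) 2 := by
  have hm : Measurable (fun m => Fh G φ m τ) :=
    h.Fh_meas.comp (g := fun q : ℝ × (ℝ × ℝ) => Fh G q.1 q.2.1 q.2.2)
      (f := fun m => (φ, (m, τ))) (by fun_prop)
  refine bdd_integrable hm (fun m => h.Fh_bd φ m τ) (S := Icc (-(N + R)) (N + R)) (by simp)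
    measurableSet_Icc ?_
  intro m hm'
  unfold Fh
  have : ∀ u, ec (-(u * τ)) * FF G φ m u = 0 := by
    intro u
    rw [h.FF_supp, mul_zero]
    rintro ⟨h2, _⟩
    exact hm' (abs_le.1 h2)
  simp [this]

/-- The Fourier transform on the null planes. -/
theorem Nice.Fh_four (h : Nice G K R N) (φ τ σ : ℝ) :
    𝓕 (fun m => Fh G φ m τ) σ = BB G (rot φ (σ, τ)) σ := by
  rw [Real.fourier_real_eq, BB_eq]
  have hJ := h.J_int φ σ τ
  set J : (ℝ × ℝ) × ℝ → ℂ := fun q => ec (-(q.1.1 * σ + q.1.2 * τ)) *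
      G q.2 (rot φ (q.1.1 + q.2, q.1.2)) with hJdef
  have e1 : ∫ m, 𝐞 (-(m * σ)) • Fh G φ m τ = ∫ p : ℝ × ℝ, ∫ r, J (p, r) := by
    have hJ1 : Integrable (fun p : ℝ × ℝ => ∫ r, J (p, r)) := hJ.integral_prod_left
    rw [Measure.volume_eq_prod, integral_prod _ hJ1]
    apply integral_congr_ae
    filter_upwards with m
    rw [ec_smul, Fh, ← integral_const_mul]
    apply integral_congr_ae
    filter_upwards with u
    rw [FF, ← mul_assoc, ← ec_add, ← integral_const_mul]
    apply integral_congr_ae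
    filter_upwards with r
    simp only [hJdef]
    congr 2
    ring
  have e2 : ∫ p : ℝ × ℝ, ∫ r, J (p, r) = ∫ r, ∫ p : ℝ × ℝ, J (p, r) :=
    integral_integral_swap hJ
  rw [e1, e2]
  apply integral_congr_ae
  filter_upwards with r
  rw [ec_smul, hat_eq]
  have e3 : ∫ y, 𝐞 (-(inner ℝ y (rot φ (σ, τ)))) • G r y =
      ∫ p : ℝ × ℝ, ec (-(p.1 * σ + p.2 * τ)) * G r (rot φ p) := by
    have hm : Measurable (fun y : ℂ => ec (-(inner ℝ y (rot φ (σ, τ)))) * G r y) := by
      apply Measurable.mul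
      · apply ec_cont.measurable.comp
        apply Measurable.neg
        exact (continuous_id.inner continuous_const).measurable
      · exact h.meas.comp measurable_prodMk_left
    have hm' : ∫ y, 𝐞 (-(inner ℝ y (rot φ (σ, τ)))) • G r y =
        ∫ y, ec (-(inner ℝ y (rot φ (σ, τ)))) * G r y := by
      apply integral_congr_ae
      filter_upwards with y
      rw [ec_smul]
    rw [hm', ← (rot_mp φ).map_eq, integral_map (rot_mp φ).measurable.aemeasurable
      hm.aestronglyMeasurable]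
    apply integral_congr_ae
    filter_upwards with p
    rw [rot_inner]
  rw [e3, ← integral_const_mul]
  have e4 := integral_add_right_eq_self (μ := (volume : Measure (ℝ × ℝ)))
    (fun p : ℝ × ℝ => ec (r * σ) * (ec (-(p.1 * σ + p.2 * τ)) * G r (rot φ p))) (r, 0)
  rw [← e4]
  apply integral_congr_ae
  filter_upwards with p
  simp only [hJdef]
  have e5 : p + (r, (0 : ℝ)) = (p.1 + r, p.2) := by
    ext
    · rfl
    · simp
  rw [e5, ← mul_assoc, ← ec_add]
  simp only
  congr 2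
  ring

/-- Plancherel on the null planes. -/
theorem Nice.Fh_planch (h : Nice G K R N) (φ τ : ℝ) :
    ∫⁻ m, ‖Fh G φ m τ‖ₑ ^ 2 = ∫⁻ σ, ‖BB G (rot φ (σ, τ)) σ‖ₑ ^ 2 := by
  rw [← Pool.Agent.H153R4.plancherel _ (h.Fh_int φ τ).1 (h.Fh_int φ τ).2]
  apply lintegral_congr
  intro σ
  rw [h.Fh_four]

/-- The weighted estimate on a slice. -/
theorem Nice.slice (h : Nice G K R N) (φ : ℝ) :
    ∫⁻ m, ∫⁻ τ, (1 + ENNReal.ofReal |τ|) * ‖Fh G φ m τ‖ₑ ^ 2 =
      ∫⁻ ξ : ℂ, (1 + ENNReal.ofReal |cy ξ φ|) * ‖BB G ξ (cx ξ φ)‖ₑ ^ 2 := by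
  have hF : Measurable (fun q : ℝ × ℝ => Fh G φ q.1 q.2) :=
    h.Fh_meas.comp (g := fun q : ℝ × (ℝ × ℝ) => Fh G q.1 q.2.1 q.2.2)
      (f := fun q : ℝ × ℝ => (φ, q)) (by fun_prop)
  have hw : Measurable (fun τ : ℝ => 1 + ENNReal.ofReal |τ|) := by fun_prop
  have hcy : Measurable (fun ξ : ℂ => cy ξ φ) := by unfold cy; fun_prop
  have hcx : Measurable (fun ξ : ℂ => cx ξ φ) := by unfold cx; fun_prop
  have hB : Measurable (fun ξ : ℂ => (1 + ENNReal.ofReal |cy ξ φ|) * ‖BB G ξ (cx ξ φ)‖ₑ ^ 2) := by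
    have a1 : Measurable (fun ξ : ℂ => (1 + ENNReal.ofReal |cy ξ φ|)) :=
      measurable_const.add (hcy.abs.ennreal_ofReal)
    exact a1.mul ((h.BB_meas.comp (measurable_id.prodMk hcx)).enorm.pow_const _)
  rw [← (rot_mp φ).lintegral_comp hB, Measure.volume_eq_prod,
    lintegral_prod_symm (fun a => (1 + ENNReal.ofReal |cy (rot φ a) φ|) *
      ‖BB G (rot φ a) (cx (rot φ a) φ)‖ₑ ^ 2) ((hB.comp (rot_mp φ).measurable).aemeasurable)]
  rw [lintegral_lintegral_swap]
  · apply lintegral_congr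
    intro τ
    have hFτ : Measurable (fun m : ℝ => ‖Fh G φ m τ‖ₑ ^ 2) :=
      (hF.comp (measurable_prodMk_right (y := τ))).enorm.pow_const 2
    rw [lintegral_const_mul _ hFτ, h.Fh_planch, ← lintegral_const_mul]
    · apply lintegral_congr
      intro σ
      rw [cx_rot, cy_rot]
    · have a2 : Measurable (fun σ : ℝ => rot φ (σ, τ)) :=
        (rot_mp φ).measurable.comp measurable_prodMk_right
      exact (h.BB_meas.comp (a2.prodMk measurable_id)).enorm.pow_const _
  · exact ((hw.comp measurable_snd).mul (hF.enorm.pow_const _)).aemeasurable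

end Pool.Agent.N249.LR
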