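import Pool.Agent.N249.LR.Tub
import Pool.Agent.H742R2.Kk.Sphere

set_option autoImplicit false

/-!
Tubes tangent to a paraboloid: integration over the sphere of directions.
-/

open MeasureTheory Set ENNReal Real

namespace Pool.Agent.N249.LR

variable {k : ℕ}

theorem lint_scale {E : Type*} [NormedAddCommGroup E] [NormedSpace ℝ E] [MeasurableSpace E]
    [BorelSpace E] [FiniteDimensional ℝ E] (μ : Measure E) [μ.IsAddHaarMeasure] {c : ℝ}
    (hc : 0 < c) {h : E → ℝ≥0∞} (hh : Measurable h) :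
    ∫⁻ x, h (c⁻¹ • x) ∂μ = ENNReal.ofReal (c ^ Module.finrank ℝ E) * ∫⁻ x, h x ∂μ := by
  rw [← lintegral_map hh (measurable_const_smul _), Measure.map_addHaar_smul μ (by positivity),
    lintegral_smul_measure, smul_eq_mul]
  congr 2
  rw [inv_pow, inv_inv, abs_of_pos (by positivity)]

/-- The first two coordinates. -/
def yy (x : Eu k) : ℂ := ⟨x 0, x 1⟩

/-- The last `k` coordinates. -/
def rest (x : Eu k) : Fin k → ℝ := fun i => x i.succ.succ.succ

theorem yy_meas : Measurable (yy : Eu k → ℂ) := by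
  have h : (yy : Eu k → ℂ) = fun x => Complex.measurableEquivRealProd.symm (x 0, x 1) := by
    funext x
    rfl
  rw [h]
  apply Complex.measurableEquivRealProd.symm.measurable.comp
  fun_prop

theorem rest_meas : Measurable (rest : Eu k → Fin k → ℝ) := by
  unfold rest
  fun_prop

theorem yy_emb (q : ℂ × (ℝ × (Fin k → ℝ))) : yy (emb q) = q.1 := by
  unfold yy
  rw [emb_0, emb_1]

theorem rest_emb (q : ℂ × (ℝ × (Fin k → ℝ))) : rest (emb q) = q.2.2 := by
  funext i
  exact emb_s q i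

theorem yy_smul (c : ℝ) (x : Eu k) : yy (c • x) = (c : ℂ) * yy x := by
  unfold yy
  apply Complex.ext
  · simp
  · simp

theorem rest_smul (c : ℝ) (x : Eu k) : rest (c • x) = c • rest x := by
  funext i
  rfl

/-- A function of the direction. -/
noncomputable def Hs (Ψ : (Fin k → ℝ) × (ℝ × ℝ) → ℝ≥0∞) (x : Eu k) : ℝ≥0∞ :=
  {x : Eu k | yy x ≠ 0}.indicator
    (fun x => Ψ (‖yy x‖⁻¹ • rest x, (Complex.arg (yy x), (2 * ‖yy x‖)⁻¹ * x 2))) x

theorem Hs_meas {Ψ : (Fin k → ℝ) × (ℝ × ℝ) → ℝ≥0∞} (hΨ : Measurable Ψ) :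
    Measurable (Hs Ψ : Eu k → ℝ≥0∞) := by
  have hy := yy_meas (k := k)
  have hr := rest_meas (k := k)
  unfold Hs
  apply Measurable.indicator
  · apply hΨ.comp
    refine Measurable.prodMk ?_ (Measurable.prodMk ?_ ?_)
    · exact (hy.norm.inv).smul hr
    · exact Complex.measurable_arg.comp hy
    · exact ((hy.norm.const_mul 2).inv).mul (by fun_prop)
  · exact (measurableSet_singleton (0 : ℂ)).compl.preimage hy

theorem Hs_smul (Ψ : (Fin k → ℝ) × (ℝ × ℝ) → ℝ≥0∞) {c : ℝ} (hc : 0 < c) (x : Eu k) :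
    Hs Ψ (c • x) = Hs Ψ x := by
  unfold Hs
  by_cases hx : yy x = 0
  · have h1 : c • x ∉ {x : Eu k | yy x ≠ 0} := by
      simp only [mem_ofPred_eq, not_not]
      rw [yy_smul, hx, mul_zero]
    have h2 : x ∉ {x : Eu k | yy x ≠ 0} := by
      simp only [mem_ofPred_eq, not_not]
      exact hx
    rw [indicator_of_notMem h1, indicator_of_notMem h2]
  · have hcc : (c : ℂ) ≠ 0 := by exact_mod_cast hc.ne'
    have h1 : c • x ∈ {x : Eu k | yy x ≠ 0} := by
      simp only [mem_ofPred_eq]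
      rw [yy_smul]
      exact mul_ne_zero hcc hx
    have h2 : x ∈ {x : Eu k | yy x ≠ 0} := hx
    rw [indicator_of_mem h1, indicator_of_mem h2, yy_smul, rest_smul, norm_mul, Complex.norm_real,
      Real.norm_of_nonneg hc.le, Complex.arg_real_mul _ hc]
    have hn : ‖yy x‖ ≠ 0 := norm_ne_zero_iff.2 hx
    congr 2
    · rw [smul_smul]
      congr 1
      field_simp
    · congr 1
      simp only [PiLp.smul_apply, smul_eq_mul]
      field_simp

/-- Integration in the remaining variables. -/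
theorem slice_int {Ψ : (Fin k → ℝ) × (ℝ × ℝ) → ℝ≥0∞} (hΨ : Measurable Ψ) {y : ℂ} (hy : y ≠ 0) :
    ∫⁻ p, Hs Ψ (emb (y, p)) = ENNReal.ofReal (2 * ‖y‖) * (ENNReal.ofReal (‖y‖ ^ k) *
      ∫⁻ m, ∫⁻ v, Ψ (v, (Complex.arg y, m))) := by
  have hn : 0 < ‖y‖ := norm_pos_iff.2 hy
  have e0 : ∀ p : ℝ × (Fin k → ℝ), Hs Ψ (emb (y, p)) =
      Ψ (‖y‖⁻¹ • p.2, (Complex.arg y, (2 * ‖y‖)⁻¹ * p.1)) := by
    intro p
    unfold Hs
    have h2 : emb (y, p) ∈ {x : Eu k | yy x ≠ 0} := by
      simp only [mem_ofPred_eq]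
      rw [yy_emb]
      exact hy
    rw [indicator_of_mem h2, yy_emb, rest_emb, emb_2]
  simp only [e0]
  have hm : Measurable (fun p : ℝ × (Fin k → ℝ) =>
      Ψ (‖y‖⁻¹ • p.2, (Complex.arg y, (2 * ‖y‖)⁻¹ * p.1))) := by
    apply hΨ.comp
    refine Measurable.prodMk (by fun_prop) (Measurable.prodMk (by fun_prop) (by fun_prop))
  rw [Measure.volume_eq_prod, lintegral_prod _ hm.aemeasurable]
  have h1 : ∀ z : ℝ, ∫⁻ x : Fin k → ℝ, Ψ (‖y‖⁻¹ • x, (Complex.arg y, (2 * ‖y‖)⁻¹ * z)) =
      ENNReal.ofReal (‖y‖ ^ k) * ∫⁻ v, Ψ (v, (Complex.arg y, (2 * ‖y‖)⁻¹ * z)) := by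
    intro z
    have hm' : Measurable (fun v : Fin k → ℝ => Ψ (v, (Complex.arg y, (2 * ‖y‖)⁻¹ * z))) :=
      hΨ.comp (by fun_prop)
    have := lint_scale (volume : Measure (Fin k → ℝ)) hn hm'
    rw [Module.finrank_fin_fun] at this
    exact this
  simp only [h1]
  have hm2 : Measurable (fun m : ℝ => ∫⁻ v : Fin k → ℝ, Ψ (v, (Complex.arg y, m))) := by
    have : Measurable (fun q : ℝ × (Fin k → ℝ) => Ψ (q.2, (Complex.arg y, q.1))) :=
      hΨ.comp (by fun_prop)
    exact this.lintegral_prod_right'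
  rw [lintegral_const_mul' _ _ ENNReal.ofReal_ne_top]
  have h2 := lint_scale (volume : Measure ℝ) (c := 2 * ‖y‖) (by positivity) hm2
  rw [Module.finrank_self, pow_one] at h2
  simp only [smul_eq_mul] at h2
  rw [h2]
  ring

/-- Integration over the sphere of directions. -/
theorem sphere_le {Ψ : (Fin k → ℝ) × (ℝ × ℝ) → ℝ≥0∞} (hΨ : Measurable Ψ) :
    ∫⁻ e : Metric.sphere (0 : Eu k) 1, Hs Ψ e ∂(volume : Measure (Eu k)).toSphere ≤
      (2 * ((k : ℝ≥0∞) + 3)) * ∫⁻ φ in Ioc (-π) π, ∫⁻ m, ∫⁻ v, Ψ (v, (φ, m)) := by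
  have h1 := Pool.Agent.H742R2.Kk.sphere_le_ball (k + 2) (G := Hs Ψ) (Hs_meas hΨ)
  set W : ℝ → ℝ≥0∞ := fun φ => ∫⁻ m, ∫⁻ v, Ψ (v, (φ, m)) with hW
  have hWm : Measurable W := by
    have a1 : Measurable (fun q : (ℝ × ℝ) × (Fin k → ℝ) => Ψ (q.2, (q.1.1, q.1.2))) :=
      hΨ.comp (by fun_prop)
    have a2 : Measurable (fun q : ℝ × ℝ => ∫⁻ v : Fin k → ℝ, Ψ (v, (q.1, q.2))) :=
      a1.lintegral_prod_right'
    exact a2.lintegral_prod_right'
  set B : Set (Eu k) := {x | ‖yy x‖ ≤ 1} with hB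
  have hBm : MeasurableSet B := measurableSet_le (yy_meas.norm) measurable_const
  have h2 : ∫⁻ x in Metric.closedBall (0 : Eu k) 1, Hs Ψ (‖x‖⁻¹ • x) ≤
      ∫⁻ x, B.indicator (Hs Ψ) x := by
    rw [← lintegral_indicator Metric.isClosed_closedBall.measurableSet]
    apply lintegral_mono
    intro x
    by_cases hx : x ∈ Metric.closedBall (0 : Eu k) 1
    · rw [indicator_of_mem hx]
      have hx1 : ‖x‖ ≤ 1 := by simpa using hx
      have hyx : ‖yy x‖ ≤ ‖x‖ := by
        have a1 : ‖yy x‖ ^ 2 ≤ ‖x‖ ^ 2 := by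
          rw [EuclideanSpace.norm_sq_eq, ← Complex.normSq_eq_norm_sq, Complex.normSq_apply,
            Fin.sum_univ_succ, Fin.sum_univ_succ]
          simp only [Real.norm_eq_abs, sq_abs]
          have a2 : 0 ≤ ∑ i : Fin (k + 1), (x.ofLp i.succ.succ) ^ 2 :=
            Finset.sum_nonneg fun i _ => sq_nonneg _
          have a3 : (yy x).re = x 0 := rfl
          have a4 : (yy x).im = x (Fin.succ 0) := rfl
          rw [a3, a4]
          nlinarith
        exact abs_le_of_sq_le_sq' a1 (norm_nonneg _) |>.2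
      have hxB : x ∈ B := hyx.trans hx1
      rw [indicator_of_mem hxB]
      by_cases h0 : x = 0
      · rw [h0]
        simp
      · rw [Hs_smul Ψ (by positivity)]
    · rw [indicator_of_notMem hx]
      exact zero_le
  have hBH : Measurable (B.indicator (Hs Ψ)) := (Hs_meas hΨ).indicator hBm
  have h3 : ∫⁻ x, B.indicator (Hs Ψ) x ≤
      ∫⁻ y : ℂ, (Metric.closedBall (0 : ℂ) 1).indicator (fun y => 2 * W (Complex.arg y)) y := by
    rw [← emb_mp.lintegral_comp hBH, Measure.volume_eq_prod ℂ,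
      lintegral_prod (fun q => B.indicator (Hs Ψ) (emb q))
        (hBH.comp emb_mp.measurable).aemeasurable]
    apply lintegral_mono
    intro y
    beta_reduce
    by_cases hy1 : ‖y‖ ≤ 1
    · have hyB : y ∈ Metric.closedBall (0 : ℂ) 1 := by simpa using hy1
      rw [indicator_of_mem hyB]
      by_cases hy0 : y = 0
      · have : ∀ p : ℝ × (Fin k → ℝ), B.indicator (Hs Ψ) (emb (y, p)) = 0 := by
          intro p
          refine le_antisymm ((indicator_le_self' (fun _ _ => zero_le) _).trans (le_of_eq ?_)) zero_le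
          unfold Hs
          rw [indicator_of_notMem]
          simp only [mem_ofPred_eq, not_not]
          rw [yy_emb]
          exact hy0
        simp [this]
      · calc ∫⁻ p, B.indicator (Hs Ψ) (emb (y, p)) ≤ ∫⁻ p, Hs Ψ (emb (y, p)) :=
              lintegral_mono fun p => indicator_le_self' (fun _ _ => zero_le) _
          _ = ENNReal.ofReal (2 * ‖y‖) * (ENNReal.ofReal (‖y‖ ^ k) * W (Complex.arg y)) :=
              slice_int hΨ hy0
          _ ≤ ENNReal.ofReal 2 * (ENNReal.ofReal 1 * W (Complex.arg y)) := by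
              gcongr
              · linarith
              · exact pow_le_one₀ (norm_nonneg _) hy1
          _ = _ := by simp
    · have : ∀ p : ℝ × (Fin k → ℝ), B.indicator (Hs Ψ) (emb (y, p)) = 0 := by
        intro p
        rw [indicator_of_notMem]
        intro hc
        apply hy1
        have hc' : ‖yy (emb (y, p))‖ ≤ 1 := hc
        rw [yy_emb] at hc'
        exact hc'
      simp [this]
  have h4 : ∫⁻ y : ℂ, (Metric.closedBall (0 : ℂ) 1).indicator (fun y => 2 * W (Complex.arg y)) y ≤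
      2 * ∫⁻ φ in Ioc (-π) π, W φ := by
    rw [← Complex.lintegral_comp_polarCoord_symm]
    have hT : polarCoord.target = Ioi (0 : ℝ) ×ˢ Ioo (-π) π := rfl
    have hTm : MeasurableSet (polarCoord.target : Set (ℝ × ℝ)) := by
      rw [hT]; exact measurableSet_Ioi.prod measurableSet_Ioo
    set Q : ℝ × ℝ → ℝ≥0∞ := fun p => (Ioc (0 : ℝ) 1).indicator (fun _ => 1) p.1 *
      (Ioc (-π) π).indicator (fun φ => 2 * W φ) p.2 with hQ
    have h5 : ∫⁻ p in polarCoord.target, ENNReal.ofReal p.1 •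
        (Metric.closedBall (0 : ℂ) 1).indicator (fun y => 2 * W (Complex.arg y))
          (Complex.polarCoord.symm p) ≤ ∫⁻ p, Q p := by
      rw [← lintegral_indicator hTm]
      apply lintegral_mono
      intro p
      by_cases hp : p ∈ polarCoord.target
      · rw [indicator_of_mem hp]
        have hp' : p ∈ Ioi (0 : ℝ) ×ˢ Ioo (-π) π := hp
        obtain ⟨hp1, hp2⟩ := hp'
        have hp1' : 0 < p.1 := hp1
        have hp2' : p.2 ∈ Ioc (-π) π := ⟨hp2.1, hp2.2.le⟩
        rw [hQ]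
        simp only
        rw [indicator_of_mem hp2']
        by_cases hc : Complex.polarCoord.symm p ∈ Metric.closedBall (0 : ℂ) 1
        · rw [indicator_of_mem hc]
          have hn : p.1 ≤ 1 := by
            rw [mem_closedBall_zero_iff, Complex.norm_polarCoord_symm, abs_of_pos hp1'] at hc
            exact hc
          rw [indicator_of_mem (show p.1 ∈ Ioc (0 : ℝ) 1 from ⟨hp1', hn⟩), smul_eq_mul]
          have harg : Complex.arg (Complex.polarCoord.symm p) = p.2 := by
            rw [Complex.polarCoord_symm_apply, Complex.ofReal_cos, Complex.ofReal_sin]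
            exact Complex.arg_mul_cos_add_sin_mul_I hp1' hp2'
          rw [harg]
          apply mul_le_mul_left
          rw [← ENNReal.ofReal_one]
          exact ENNReal.ofReal_le_ofReal hn
        · rw [indicator_of_notMem hc, smul_zero]
          exact zero_le
      · rw [indicator_of_notMem hp]
        exact zero_le
    refine h5.trans (le_of_eq ?_)
    have hi1 : Measurable ((Ioc (0 : ℝ) 1).indicator (fun _ => (1 : ℝ≥0∞))) :=
      measurable_const.indicator measurableSet_Ioc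
    have hi2 : Measurable ((Ioc (-π) π).indicator (fun φ => 2 * W φ)) :=
      (hWm.const_mul 2).indicator measurableSet_Ioc
    rw [hQ, Measure.volume_eq_prod, lintegral_prod_mul hi1.aemeasurable hi2.aemeasurable,
      lintegral_indicator measurableSet_Ioc, lintegral_indicator measurableSet_Ioc,
      lintegral_const_mul _ hWm]
    simp
  calc ∫⁻ e : Metric.sphere (0 : Eu k) 1, Hs Ψ e ∂(volume : Measure (Eu k)).toSphere
      ≤ (((k + 2 : ℕ) : ℝ≥0∞) + 1) *
          ∫⁻ x in Metric.closedBall (0 : Eu k) 1, Hs Ψ (‖x‖⁻¹ • x) := h1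
    _ ≤ (((k + 2 : ℕ) : ℝ≥0∞) + 1) * (2 * ∫⁻ φ in Ioc (-π) π, W φ) := by
        gcongr
        exact h2.trans (h3.trans h4)
    _ = _ := by
        push_cast
        ring

end Pool.Agent.N249.LR
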