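import Pool.Agent.N249.LR.Geo

set_option autoImplicit false

/-!
Tubes tangent to a paraboloid: the averages over the tubes.
-/

open MeasureTheory Set ENNReal Real

namespace Pool.Agent.N249.LR

variable {k : ℕ}

/-- The tube. -/
def tub (δ : ℝ) (e c : Eu k) : Set (Eu k) :=
  {y | |inner ℝ (y - c) e| ≤ 1 / 2 ∧ ‖(y - c) - (inner ℝ (y - c) e : ℝ) • e‖ ≤ δ}

theorem tub_meas (δ : ℝ) (e c : Eu k) : MeasurableSet (tub δ e c) := by
  have h1 : Measurable (fun y : Eu k => |inner ℝ (y - c) e|) := by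
    apply Continuous.measurable
    fun_prop
  have h2 : Measurable (fun y : Eu k => ‖(y - c) - (inner ℝ (y - c) e : ℝ) • e‖) := by
    apply Continuous.measurable
    fun_prop
  exact (measurableSet_le h1 measurable_const).inter (measurableSet_le h2 measurable_const)

/-- A function in the coordinates adapted to the paraboloid. -/
noncomputable def gg (F : Eu k → ℝ≥0∞) (y : ℂ) (p : ℝ × (Fin k → ℝ)) : ℝ≥0∞ :=
  F (emb (y, (p.1 + ‖y‖ ^ 2, p.2)))

theorem gg_meas {F : Eu k → ℝ≥0∞} (hF : Measurable F) : Measurable (Function.uncurry (gg F)) := by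
  have h1 : Measurable (fun q : ℂ × (ℝ × (Fin k → ℝ)) =>
      ((q.1, (q.2.1 + ‖q.1‖ ^ 2, q.2.2)) : ℂ × (ℝ × (Fin k → ℝ)))) := by fun_prop
  exact hF.comp (emb_mp.measurable.comp h1)

theorem gg_int {F : Eu k → ℝ≥0∞} (hF : Measurable F) :
    ∫⁻ y, ∫⁻ p, gg F y p = ∫⁻ x, F x := by
  rw [← emb_mp.lintegral_comp hF, Measure.volume_eq_prod ℂ,
    lintegral_prod (fun q => F (emb q)) (hF.comp emb_mp.measurable).aemeasurable]
  apply lintegral_congr
  intro y
  have h := lintegral_add_right_eq_self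
    (μ := (volume : Measure ℝ).prod (volume : Measure (Fin k → ℝ)))
    (fun p => F (emb (y, p))) (‖y‖ ^ 2, 0)
  rw [← Measure.volume_eq_prod] at h
  rw [← h]
  apply lintegral_congr
  intro p
  unfold gg
  have : p + ((‖y‖ ^ 2, 0) : ℝ × (Fin k → ℝ)) = (p.1 + ‖y‖ ^ 2, p.2) := by
    ext
    · rfl
    · simp
  rw [this]

/-- The data of a tube tangent to the paraboloid. -/
structure Tan (R δ φ lam m u0 t0 : ℝ) (v : Fin k → ℝ) (e c P : Eu k) : Prop where
  R0 : 0 ≤ R
  l0 : 0 < lam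
  l1 : lam ≤ 1
  e0 : e 0 = lam * Real.cos φ
  e1 : e 1 = lam * Real.sin φ
  e2 : e 2 = 2 * (P 0 * e 0 + P 1 * e 1)
  es : ∀ i : Fin k, e i.succ.succ.succ = lam * v i
  vR : ∀ i, |v i| ≤ R
  P2 : P 2 = P 0 ^ 2 + P 1 ^ 2
  Ps : ∀ i : Fin k, P i.succ.succ.succ = 0
  PR : P 0 ^ 2 + P 1 ^ 2 ≤ R ^ 2
  cP : ‖(c - P) - (inner ℝ (c - P) e : ℝ) • e‖ ≤ δ
  hm : m = P 0 * Real.cos φ + P 1 * Real.sin φ
  hu : u0 = P 1 * Real.cos φ - P 0 * Real.sin φ
  ht : t0 = inner ℝ (c - P) e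

theorem Tan.pt {R δ φ lam m u0 t0 : ℝ} {v : Fin k → ℝ} {e c P : Eu k}
    (h : Tan R δ φ lam m u0 t0 v e c P) (hδ : 0 < δ) (hδ1 : δ ≤ 1) {a b : ℝ}
    (ha : (16 * R + 18) * δ ≤ a) (hb : (4 * R + 2) * δ ≤ b) {T : ℝ} (hT : |t0 * lam - T| ≤ 1 / 2)
    {r u' : ℝ} {p : ℝ × (Fin k → ℝ)}
    (hx : emb (rot φ (m + r, u'), (p.1 + ‖rot φ (m + r, u')‖ ^ 2, p.2)) ∈ tub δ e c) :
    |u' - u0| ≤ 4 * δ ∧ r ∈ Metric.closedBall T 5 ∧ p ∈ Bx a b v r := by
  obtain ⟨t, ht, hco⟩ := tube_coord hx.1 hx.2 h.cP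
  rw [← h.ht] at ht
  have hcs := Real.sin_sq_add_cos_sq φ
  have b0 := hco 0
  have b1 := hco 1
  have b2 := hco 2
  rw [emb_0, rot_re] at b0
  rw [emb_1, rot_im] at b1
  rw [emb_2] at b2
  simp only at b0 b1 b2
  have hn := rot_norm φ (m + r, u')
  simp only at hn
  rw [hn] at b2
  have h1 := contain_real (m := m) (ρ := r) (u' := u') (u0 := u0) hδ hδ1 hcs h.R0 h.l0 h.l1
    h.e0 h.e1 h.e2 h.P2 h.PR b0 b1 b2 ht h.hm (by linear_combination (-(m + r)) * hcs)
    (by linear_combination (-u') * hcs) h.hu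
  obtain ⟨c1, c2, c3, c4⟩ := h1
  refine ⟨c1, ?_, ?_, ?_⟩
  · rw [Metric.mem_closedBall, Real.dist_eq]
    have : r - T = (r - t0 * lam) + (t0 * lam - T) := by ring
    rw [this]
    refine (abs_add_le _ _).trans ?_
    linarith
  · have e1 : p.1 + ((m + r) ^ 2 + u' ^ 2) - ((Real.cos φ * (m + r) - Real.sin φ * u') ^ 2 +
        (Real.cos φ * u' + Real.sin φ * (m + r)) ^ 2) + r ^ 2 = p.1 + r ^ 2 := by
      linear_combination (-((m + r) ^ 2 + u' ^ 2)) * hcs
    rw [e1] at c2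
    exact c2.trans ha
  · intro i
    have b3 := hco i.succ.succ.succ
    rw [emb_s, h.Ps, h.es] at b3
    exact (contain_rest c3 (h.vR i) b3 hδ h.R0).trans hb

/-- The integral over a tangent tube. -/
theorem Tan.int {R δ φ lam m u0 t0 : ℝ} {v : Fin k → ℝ} {e c P : Eu k}
    (h : Tan R δ φ lam m u0 t0 v e c P) (hδ : 0 < δ) (hδ1 : δ ≤ 1) {a b : ℝ} (ha0 : 0 < a)
    (hb0 : 0 < b) (ha : (16 * R + 18) * δ ≤ a) (hb : (4 * R + 2) * δ ≤ b) {T : ℝ}
    (hT : |t0 * lam - T| ≤ 1 / 2) {u : ℝ} (hu : |u - u0| ≤ δ) {F : Eu k → ℝ≥0∞}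
    (hF : Measurable F) :
    ∫⁻ x in tub δ e c, F x ≤ bxv k a b *
      (ENNReal.ofReal (δ * Real.exp (25 * π)) * SS (Ga a b 5 T (gg F) v) δ φ m u) := by
  have hA0 : bxv k a b ≠ 0 := by
    unfold bxv
    have h1 : ENNReal.ofReal (2 * a) ≠ 0 := by
      rw [Ne, ENNReal.ofReal_eq_zero]; push Not; linarith
    have h2 : ENNReal.ofReal (2 * b) ^ k ≠ 0 := by
      apply pow_ne_zero
      rw [Ne, ENNReal.ofReal_eq_zero]; push Not; linarith
    exact mul_ne_zero h1 h2
  have hAt : bxv k a b ≠ ∞ := by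
    unfold bxv
    exact ENNReal.mul_ne_top ENNReal.ofReal_ne_top (ENNReal.pow_ne_top ENNReal.ofReal_ne_top)
  set F' : Eu k → ℝ≥0∞ := (tub δ e c).indicator F with hF'
  have hF'm : Measurable F' := hF.indicator (tub_meas δ e c)
  have hK : Measurable (fun y : ℂ => ∫⁻ p, gg F' y p) := (gg_meas hF'm).lintegral_prod_right'
  set K : ℂ → ℝ≥0∞ := fun y => ∫⁻ p, gg F' y p with hKdef
  have e1 : ∫⁻ x in tub δ e c, F x = ∫⁻ u', ∫⁻ r, K (rot φ (m + r, u')) := by
    rw [← lintegral_indicator (tub_meas δ e c), ← gg_int hF'm]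
    change ∫⁻ y, K y = _
    rw [← (rot_mp φ).lintegral_comp hK, Measure.volume_eq_prod,
      lintegral_prod_symm (fun q => K (rot φ q)) ((hK.comp (rot_mp φ).measurable).aemeasurable)]
    apply lintegral_congr
    intro u'
    exact (lintegral_add_left_eq_self (μ := (volume : Measure ℝ))
      (fun r => K (rot φ (r, u'))) m).symm
  have hpt : ∀ u' r : ℝ, K (rot φ (m + r, u')) ≤ bxv k a b * ENNReal.ofReal (δ * Real.exp (25 * π)) *
      ENNReal.ofReal (gam δ (u - u')) * Ga a b 5 T (gg F) v r (rot φ (m + r, u')) := by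
    intro u' r
    by_cases hc : |u' - u0| ≤ 4 * δ ∧ r ∈ Metric.closedBall T 5
    · have h1 : K (rot φ (m + r, u')) ≤ bxv k a b * Ga a b 5 T (gg F) v r (rot φ (m + r, u')) := by
        unfold Ga
        rw [indicator_of_mem hc.2, ← mul_assoc, ENNReal.mul_inv_cancel hA0 hAt, one_mul]
        apply lintegral_mono
        intro p
        unfold Wt gg
        beta_reduce
        by_cases hx : emb (rot φ (m + r, u'), (p.1 + ‖rot φ (m + r, u')‖ ^ 2, p.2)) ∈ tub δ e c
        · have h2 := (h.pt hδ hδ1 ha hb hT hx).2.2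
          rw [indicator_of_mem h2, one_mul, hF', indicator_of_mem hx]
        · rw [hF', indicator_of_notMem hx]
          exact zero_le
      have h2 : 1 ≤ ENNReal.ofReal (δ * Real.exp (25 * π)) * ENNReal.ofReal (gam δ (u - u')) := by
        rw [← ENNReal.ofReal_mul (by positivity), ← ENNReal.ofReal_one]
        apply ENNReal.ofReal_le_ofReal
        unfold gam
        have e3 : δ * Real.exp (25 * π) * (δ⁻¹ * Real.exp (-(π / δ ^ 2) * (u - u') ^ 2)) =
            Real.exp (25 * π + -(π / δ ^ 2) * (u - u') ^ 2) := by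
          rw [Real.exp_add]
          field_simp
        rw [e3]
        apply Real.one_le_exp
        have h4 : |u - u'| ≤ 5 * δ := by
          have : u - u' = (u - u0) - (u' - u0) := by ring
          rw [this]
          refine (abs_sub _ _).trans ?_
          linarith [hc.1]
        have h5 : (u - u') ^ 2 ≤ (5 * δ) ^ 2 := sq_le_sq' (abs_le.1 h4).1 (abs_le.1 h4).2
        have h6 : π / δ ^ 2 * (u - u') ^ 2 ≤ 25 * π := by
          rw [div_mul_eq_mul_div, div_le_iff₀ (by positivity)]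
          nlinarith [Real.pi_pos]
        linarith
      calc K (rot φ (m + r, u')) ≤ 1 * (bxv k a b * Ga a b 5 T (gg F) v r (rot φ (m + r, u'))) := by
            rw [one_mul]; exact h1
        _ ≤ (ENNReal.ofReal (δ * Real.exp (25 * π)) * ENNReal.ofReal (gam δ (u - u'))) *
              (bxv k a b * Ga a b 5 T (gg F) v r (rot φ (m + r, u'))) := by gcongr
        _ = _ := by ring
    · have h1 : K (rot φ (m + r, u')) = 0 := by
        have h2 : ∀ p, gg F' (rot φ (m + r, u')) p = 0 := by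
          intro p
          unfold gg
          rw [hF', indicator_of_notMem]
          intro hx
          have h2 := h.pt hδ hδ1 ha hb hT hx
          exact hc ⟨h2.1, h2.2.1⟩
        calc K (rot φ (m + r, u')) = ∫⁻ p, gg F' (rot φ (m + r, u')) p := rfl
          _ = ∫⁻ _ : ℝ × (Fin k → ℝ), 0 := lintegral_congr h2
          _ = 0 := lintegral_zero
      rw [h1]
      exact zero_le
  have hGm : Measurable (Function.uncurry (Ga a b 5 T (gg F) v)) :=
    (Ga_meas (gg_meas hF)).comp (g := fun q : (Fin k → ℝ) × (ℝ × ℂ) =>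
      Ga a b 5 T (gg F) q.1 q.2.1 q.2.2) (f := fun q : ℝ × ℂ => (v, q)) (by fun_prop)
  have hct : bxv k a b * ENNReal.ofReal (δ * Real.exp (25 * π)) ≠ ∞ :=
    ENNReal.mul_ne_top hAt ENNReal.ofReal_ne_top
  rw [e1]
  calc ∫⁻ u', ∫⁻ r, K (rot φ (m + r, u'))
      ≤ ∫⁻ u', ∫⁻ r, bxv k a b * ENNReal.ofReal (δ * Real.exp (25 * π)) *
          ENNReal.ofReal (gam δ (u - u')) * Ga a b 5 T (gg F) v r (rot φ (m + r, u')) :=
        lintegral_mono fun u' => lintegral_mono fun r => hpt u' r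
    _ = bxv k a b * ENNReal.ofReal (δ * Real.exp (25 * π)) *
          SS (Ga a b 5 T (gg F) v) δ φ m u := by
        rw [SS, ← lintegral_const_mul' _ _ hct]
        apply lintegral_congr
        intro u'
        rw [← mul_assoc, ← lintegral_const_mul' _ _ (ENNReal.mul_ne_top hct ENNReal.ofReal_ne_top)]
    _ = _ := by ring

end Pool.Agent.N249.LR
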